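import Pool.Agent.H88NS.Est

/-! Uniform interior analyticity of steady Navier-Stokes flows in terms of the local
Reynolds number. -/

open MeasureTheory Set Filter Metric Topology
open scoped ContDiff Nat

namespace H88NS

theorem iter_smooth {f : E → ℝ} (hf : ContDiff ℝ ∞ f) (e : E) (n : ℕ) :
    ContDiff ℝ ∞ ((D e)^[n] f) := by
  induction n with
  | zero => simpa using hf
  | succ n ih =>
    rw [Function.iterate_succ_apply']
    exact D_smooth ih e

theorem Stokes.iter {ν : ℝ} {u : Fin 3 → E → ℝ} {G : Fin 3 → Fin 3 → E → ℝ} {q : E → ℝ}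
    (h : Stokes ν u G q) (e : E) (n : ℕ) :
    Stokes ν (fun i => (D e)^[n] (u i)) (fun j k => (D e)^[n] (G j k)) ((D e)^[n] q) := by
  induction n with
  | zero => simpa using h
  | succ n ih =>
    have h1 := ih.deriv e
    simp only [Function.iterate_succ_apply']
    exact h1

theorem hasDerivAt_line {f : E → ℝ} (hf : ContDiff ℝ ∞ f) (x e : E) (t : ℝ) :
    HasDerivAt (fun t : ℝ => f (x + t • e)) (D e f (x + t • e)) t := by
  have h1 : HasDerivAt (fun t : ℝ => x + t • e) e t := by
    have := ((hasDerivAt_id t).smul_const e).const_add x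
    simpa using this
  have h2 : HasFDerivAt f (fderiv ℝ f (x + t • e)) (x + t • e) :=
    ((hf.differentiable (by simp)) _).hasFDerivAt
  exact h2.comp_hasDerivAt t h1

theorem iteratedDeriv_line {f : E → ℝ} (hf : ContDiff ℝ ∞ f) (x e : E) (n : ℕ) :
    iteratedDeriv n (fun t : ℝ => f (x + t • e)) = fun t => (D e)^[n] f (x + t • e) := by
  induction n with
  | zero => simp
  | succ n ih =>
    rw [iteratedDeriv_succ, ih]
    funext t
    rw [Function.iterate_succ_apply']
    exact (hasDerivAt_line (iter_smooth hf e n) x e t).deriv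

theorem leibniz {f g : E → ℝ} (hf : ContDiff ℝ ∞ f) (hg : ContDiff ℝ ∞ g) (e x : E) (n : ℕ) :
    (D e)^[n] (fun y => f y * g y) x =
      ∑ l ∈ Finset.range (n + 1), (n.choose l : ℝ) * (D e)^[l] f x * (D e)^[n - l] g x := by
  have hline : ∀ {f : E → ℝ}, ContDiff ℝ ∞ f → ContDiff ℝ ∞ (fun t : ℝ => f (x + t • e)) :=
    fun h => h.comp (by fun_prop)
  have hval : ∀ {f : E → ℝ}, ContDiff ℝ ∞ f → ∀ n, (D e)^[n] f x =
      iteratedDeriv n (fun t : ℝ => f (x + t • e)) 0 := by
    intro f hf n
    rw [iteratedDeriv_line hf]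
    simp
  rw [hval (hf.mul hg)]
  have h1 := iteratedDeriv_mul (n := n) (x := (0 : ℝ)) (f := fun t : ℝ => f (x + t • e))
    (g := fun t : ℝ => g (x + t • e)) ((hline hf).contDiffAt.of_le (by exact_mod_cast le_top))
    ((hline hg).contDiffAt.of_le (by exact_mod_cast le_top))
  rw [show (fun t : ℝ => (fun y => f y * g y) (x + t • e)) =
    (fun t : ℝ => f (x + t • e)) * (fun t : ℝ => g (x + t • e)) from rfl, h1]
  refine Finset.sum_congr rfl fun l _ => ?_
  rw [hval hf, hval hg]

set_option maxHeartbeats 4000000 in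
/-- **Interior derivative bounds.** -/
theorem deriv_bounds (e : E) {ν K : ℝ} (hν : 0 < ν) (hK : 0 ≤ K) : ∃ H : ℝ, 0 < H ∧
    ∀ (v : Fin 3 → E → ℝ) (p : E → ℝ), Stokes ν v (fun j k y => v j y * v k y) p →
    ∀ (x0 : E) (L m : ℝ), 0 < L → 0 ≤ m → L * m ≤ K →
      (∀ y ∈ closedBall x0 L, ∀ i, |v i y| ≤ m) →
      ∀ n : ℕ, ∀ x ∈ closedBall x0 L, ∀ i,
        |(D e)^[n] (v i) x| * (L - dist x x0) ^ n ≤ n ! * m * H ^ n := by
  obtain ⟨C1, C2, hC1, hC2, hgrad⟩ := stokes_grad e
  set δ : ℝ := min (1 / 2) (ν / (16 * C2 * (K + 1))) with hδ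
  have hδ0 : 0 < δ := by
    rw [hδ]
    exact lt_min (by norm_num) (by positivity)
  have hδ1 : δ ≤ 1 / 2 := min_le_left _ _
  have hδ2 : 2 * C2 * δ * K / ν ≤ 1 / 8 := by
    have h1 : δ ≤ ν / (16 * C2 * (K + 1)) := min_le_right _ _
    rw [div_le_iff₀ hν]
    rw [le_div_iff₀ (by positivity)] at h1
    nlinarith [mul_pos hC2 hδ0]
  set H : ℝ := 4 * C1 / δ with hH
  have hH0 : 0 < H := by positivity
  refine ⟨H, hH0, ?_⟩
  intro v p hS x0 L m hL hm hLm hv n
  induction n using Nat.strong_induction_on with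
  | _ n ih =>
    rcases n with _ | N
    · intro x hx i
      simpa using hv x hx i
    -- the maximal value of the weighted derivative
    set n := N + 1 with hn
    have hn0 : (0 : ℝ) < n := by rw [hn]; positivity
    have hn1 : (1 : ℝ) ≤ n := by rw [hn]; push_cast; linarith [Nat.cast_nonneg (α := ℝ) N]
    have hcont : Continuous fun x : E => ‖fun i => (D e)^[n] (v i) x‖ * (L - dist x x0) ^ n := by
      refine Continuous.mul (Continuous.norm (continuous_pi fun i => ?_)) (by fun_prop)
      exact (iter_smooth (hS.hu i) e n).continuous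
    obtain ⟨xs, hxs, hmax⟩ := (isCompact_closedBall x0 L).exists_isMaxOn
      ⟨x0, mem_closedBall_self hL.le⟩ hcont.continuousOn
    set S : ℝ := ‖fun i => (D e)^[n] (v i) xs‖ * (L - dist xs x0) ^ n with hSdef
    have hd_nonneg : ∀ x ∈ closedBall x0 L, 0 ≤ L - dist x x0 := fun x hx => by
      rw [mem_closedBall] at hx; linarith
    have hS0 : 0 ≤ S := mul_nonneg (norm_nonneg _) (pow_nonneg (hd_nonneg xs hxs) _)
    have hSle : ∀ x ∈ closedBall x0 L, ∀ i,
        |(D e)^[n] (v i) x| * (L - dist x x0) ^ n ≤ S := by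
      intro x hx i
      have h1 : |(D e)^[n] (v i) x| ≤ ‖fun i => (D e)^[n] (v i) x‖ :=
        norm_le_pi_norm (fun i => (D e)^[n] (v i) x) i
      calc |(D e)^[n] (v i) x| * (L - dist x x0) ^ n
          ≤ ‖fun i => (D e)^[n] (v i) x‖ * (L - dist x x0) ^ n :=
            mul_le_mul_of_nonneg_right h1 (pow_nonneg (hd_nonneg x hx) _)
        _ ≤ S := hmax hx
    -- it is enough to bound S
    suffices hgoal : S ≤ n ! * m * H ^ n from fun x hx i => (hSle x hx i).trans hgoal
    have hfac : (0 : ℝ) < n ! := by exact_mod_cast Nat.factorial_pos n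
    rcases (hd_nonneg xs hxs).eq_or_lt with hd | hd
    · have : S = 0 := by
        rw [hSdef, ← hd, hn, pow_succ, mul_zero, mul_zero]
      rw [this]; positivity
    set d : ℝ := L - dist xs x0 with hdd
    have hdL : d ≤ L := by rw [hdd]; linarith [dist_nonneg (x := xs) (y := x0)]
    set r : ℝ := δ * d / n with hr
    have hr0 : 0 < r := by positivity
    have hrd : r ≤ d / 2 := by
      rw [hr, div_le_div_iff₀ hn0 (by norm_num)]
      nlinarith
    -- points of the small ball
    have hpt : ∀ y ∈ closedBall xs r, y ∈ closedBall x0 L ∧ 0 < L - dist y x0 ∧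
        d ^ n ≤ 2 * (L - dist y x0) ^ n ∧ d ^ N ≤ 2 * (L - dist y x0) ^ N := by
      intro y hy
      rw [mem_closedBall] at hy
      have h1 : dist y x0 ≤ dist y xs + dist xs x0 := dist_triangle _ _ _
      have h2 : d - r ≤ L - dist y x0 := by rw [hdd]; linarith
      have h3 : 0 < L - dist y x0 := by linarith
      refine ⟨by rw [mem_closedBall]; linarith, h3, ?_, ?_⟩
      · have h4 : d - r = (1 - δ / n) * d := by rw [hr]; field_simp
        have h5 : 1 + (n : ℝ) * (-(δ / n)) ≤ (1 + (-(δ / n))) ^ n := by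
          apply one_add_mul_le_pow
          have : δ / n ≤ δ := div_le_self hδ0.le hn1
          linarith
        have h6 : 1 + (n : ℝ) * (-(δ / n)) = 1 - δ := by field_simp; ring
        have h7 : (1 / 2 : ℝ) ≤ (1 - δ / n) ^ n := by
          rw [h6] at h5
          have : (1 + -(δ / n) : ℝ) = 1 - δ / n := by ring
          rw [this] at h5
          linarith
        calc d ^ n = 2 * ((1 / 2) * d ^ n) := by ring
          _ ≤ 2 * ((1 - δ / n) ^ n * d ^ n) := by gcongr
          _ = 2 * (d - r) ^ n := by rw [h4, mul_pow]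
          _ ≤ 2 * (L - dist y x0) ^ n := by
            gcongr
            linarith
      · have h4 : d - r = (1 - δ / n) * d := by rw [hr]; field_simp
        have hδn : δ / n ≤ δ := div_le_self hδ0.le hn1
        have h5 : 1 + (n : ℝ) * (-(δ / n)) ≤ (1 + (-(δ / n))) ^ n := by
          apply one_add_mul_le_pow
          linarith
        have h6 : 1 + (n : ℝ) * (-(δ / n)) = 1 - δ := by field_simp; ring
        have h7 : (1 / 2 : ℝ) ≤ (1 - δ / n) ^ N := by
          rw [h6] at h5
          have h8 : (1 + -(δ / n) : ℝ) = 1 - δ / n := by ring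
          rw [h8] at h5
          have h9 : (1 - δ / n : ℝ) ^ n ≤ (1 - δ / n) ^ N := by
            apply pow_le_pow_of_le_one
            · linarith
            · have : 0 ≤ δ / n := by positivity
              linarith
            · omega
          linarith
        calc d ^ N = 2 * ((1 / 2) * d ^ N) := by ring
          _ ≤ 2 * ((1 - δ / n) ^ N * d ^ N) := by gcongr
          _ = 2 * (d - r) ^ N := by rw [h4, mul_pow]
          _ ≤ 2 * (L - dist y x0) ^ N := by
            gcongr
            linarith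
    -- bound for w = ∂^N v
    have ha : ∀ y ∈ closedBall xs r, ∀ i, |(D e)^[N] (v i) y| ≤ 2 * (N ! * m * H ^ N) / d ^ N := by
      intro y hy i
      obtain ⟨hy1, hy2, -, hy4⟩ := hpt y hy
      have h1 := ih N (by omega) y hy1 i
      rw [le_div_iff₀ (by positivity)]
      calc |(D e)^[N] (v i) y| * d ^ N
          ≤ |(D e)^[N] (v i) y| * (2 * (L - dist y x0) ^ N) := by gcongr
        _ = 2 * (|(D e)^[N] (v i) y| * (L - dist y x0) ^ N) := by ring
        _ ≤ 2 * (N ! * m * H ^ N) := by gcongr
    -- bound for ∂^n (v_j v_k)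
    have hg : ∀ y ∈ closedBall xs r, ∀ j k, |(D e)^[n] (fun z => v j z * v k z) y| ≤
        2 * (2 * m * S + n * (n ! * m ^ 2 * H ^ n)) / d ^ n := by
      intro y hy j k
      obtain ⟨hy1, hy2, hy3, -⟩ := hpt y hy
      set dy : ℝ := L - dist y x0 with hdy
      rw [leibniz (hS.hu j) (hS.hu k)]
      have hA : ∀ l, l < n → ∀ i, |(D e)^[l] (v i) y| * dy ^ l ≤ l ! * m * H ^ l :=
        fun l hl i => ih l hl y hy1 i
      have hAn : ∀ i, |(D e)^[n] (v i) y| * dy ^ n ≤ S := fun i => hSle y hy1 i
      have hterm : ∀ l, |(n.choose l : ℝ) * (D e)^[l] (v j) y * (D e)^[n - l] (v k) y| =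
          (n.choose l : ℝ) * |(D e)^[l] (v j) y| * |(D e)^[n - l] (v k) y| := by
        intro l
        rw [abs_mul, abs_mul, abs_of_nonneg (Nat.cast_nonneg _)]
      have hsum : (∑ l ∈ Finset.range (n + 1),
          (n.choose l : ℝ) * |(D e)^[l] (v j) y| * |(D e)^[n - l] (v k) y|) * dy ^ n ≤
          2 * m * S + n * (n ! * m ^ 2 * H ^ n) := by
        rw [Finset.sum_range_succ, hn, Finset.sum_range_succ', ← hn]
        simp only [Nat.choose_self, Nat.choose_zero_right, Nat.sub_self, Nat.sub_zero,
          Nat.cast_one, one_mul, Function.iterate_zero, id_eq]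
        have e1 : |v j y| * |(D e)^[n] (v k) y| * dy ^ n ≤ m * S := by
          calc |v j y| * |(D e)^[n] (v k) y| * dy ^ n
              = |v j y| * (|(D e)^[n] (v k) y| * dy ^ n) := by ring
            _ ≤ m * S := by
              gcongr
              · exact hv y hy1 j
              · exact hAn k
        have e2 : |(D e)^[n] (v j) y| * |v k y| * dy ^ n ≤ S * m := by
          calc |(D e)^[n] (v j) y| * |v k y| * dy ^ n
              = (|(D e)^[n] (v j) y| * dy ^ n) * |v k y| := by ring
            _ ≤ S * m := by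
              gcongr
              · exact hAn j
              · exact hv y hy1 k
        have e3 : (∑ l ∈ Finset.range N, (n.choose (l + 1) : ℝ) * |(D e)^[l + 1] (v j) y| *
            |(D e)^[n - (l + 1)] (v k) y|) * dy ^ n ≤ n * (n ! * m ^ 2 * H ^ n) := by
          rw [Finset.sum_mul]
          have e4 : ∀ l ∈ Finset.range N, (n.choose (l + 1) : ℝ) * |(D e)^[l + 1] (v j) y| *
            |(D e)^[n - (l + 1)] (v k) y| * dy ^ n ≤ n ! * m ^ 2 * H ^ n := by
            intro l hl
            rw [Finset.mem_range] at hl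
            have f1 := hA (l + 1) (by omega) j
            have f2 := hA (n - (l + 1)) (by omega) k
            have f3 : dy ^ n = dy ^ (l + 1) * dy ^ (n - (l + 1)) := by
              rw [← pow_add]; congr 1; omega
            have f4 : H ^ n = H ^ (l + 1) * H ^ (n - (l + 1)) := by
              rw [← pow_add]; congr 1; omega
            have f5 : (n.choose (l + 1) : ℝ) * (l + 1)! * (n - (l + 1))! = n ! := by
              exact_mod_cast Nat.choose_mul_factorial_mul_factorial (by omega : l + 1 ≤ n)
            calc (n.choose (l + 1) : ℝ) * |(D e)^[l + 1] (v j) y| *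
                |(D e)^[n - (l + 1)] (v k) y| * dy ^ n
                = (n.choose (l + 1) : ℝ) * ((|(D e)^[l + 1] (v j) y| * dy ^ (l + 1)) *
                  (|(D e)^[n - (l + 1)] (v k) y| * dy ^ (n - (l + 1)))) := by rw [f3]; ring
              _ ≤ (n.choose (l + 1) : ℝ) * (((l + 1)! * m * H ^ (l + 1)) *
                  ((n - (l + 1))! * m * H ^ (n - (l + 1)))) := by gcongr
              _ = ((n.choose (l + 1) : ℝ) * (l + 1)! * (n - (l + 1))!) * m ^ 2 *
                  (H ^ (l + 1) * H ^ (n - (l + 1))) := by ring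
              _ = n ! * m ^ 2 * H ^ n := by rw [f5, ← f4]
          calc _ ≤ ∑ l ∈ Finset.range N, (n ! * m ^ 2 * H ^ n) := Finset.sum_le_sum e4
            _ = N * (n ! * m ^ 2 * H ^ n) := by rw [Finset.sum_const, Finset.card_range]; simp
            _ ≤ n * (n ! * m ^ 2 * H ^ n) := by
              gcongr
              omega
        nlinarith [e1, e2, e3]
      rw [le_div_iff₀ (by positivity)]
      calc |∑ l ∈ Finset.range (n + 1),
            (n.choose l : ℝ) * (D e)^[l] (v j) y * (D e)^[n - l] (v k) y| * d ^ n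
          ≤ (∑ l ∈ Finset.range (n + 1),
            (n.choose l : ℝ) * |(D e)^[l] (v j) y| * |(D e)^[n - l] (v k) y|) * (2 * dy ^ n) := by
            have h9 := Finset.abs_sum_le_sum_abs (fun l =>
              (n.choose l : ℝ) * (D e)^[l] (v j) y * (D e)^[n - l] (v k) y) (Finset.range (n + 1))
            simp only [hterm] at h9
            gcongr
        _ = 2 * ((∑ l ∈ Finset.range (n + 1),
            (n.choose l : ℝ) * |(D e)^[l] (v j) y| * |(D e)^[n - l] (v k) y|) * dy ^ n) := by ring
        _ ≤ 2 * (2 * m * S + n * (n ! * m ^ 2 * H ^ n)) := by gcongr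
    -- the gradient estimate
    have hSt := hS.iter e n
    have hSt' : Stokes ν (fun i => D e ((D e)^[N] (v i)))
        (fun j k => (D e)^[n] (fun y => v j y * v k y)) ((D e)^[n] p) := by
      simp only [hn, Function.iterate_succ_apply'] at hSt ⊢
      exact hSt
    have hkey : ∀ i, |(D e)^[n] (v i) xs| ≤
        C1 * ((2 * (N ! * m * H ^ N) / d ^ N) / r) +
          C2 * (r * (2 * (2 * m * S + n * (n ! * m ^ 2 * H ^ n)) / d ^ n) / ν) := by
      intro i
      have := hgrad ν (fun i => (D e)^[N] (v i)) _ _ hν (fun i => iter_smooth (hS.hu i) e N) hSt'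
        xs r _ _ hr0 ha hg i
      rw [hn, Function.iterate_succ_apply']
      exact this
    have hnorm : ‖fun i => (D e)^[n] (v i) xs‖ ≤
        C1 * ((2 * (N ! * m * H ^ N) / d ^ N) / r) +
          C2 * (r * (2 * (2 * m * S + n * (n ! * m ^ 2 * H ^ n)) / d ^ n) / ν) := by
      refine (pi_norm_le_iff_of_nonneg ?_).mpr hkey
      positivity
    have hdn : 0 < d ^ n := by positivity
    have hfin : S ≤ (2 * C1 / δ) * (n ! * m * H ^ N) +
        (2 * C2 * δ * d / (n * ν)) * (2 * m * S + n * (n ! * m ^ 2 * H ^ n)) := by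
      have hf : (n ! : ℝ) = n * N ! := by rw [hn]; push_cast [Nat.factorial_succ]; ring
      calc S = ‖fun i => (D e)^[n] (v i) xs‖ * d ^ n := hSdef
        _ ≤ (C1 * ((2 * (N ! * m * H ^ N) / d ^ N) / r) +
          C2 * (r * (2 * (2 * m * S + n * (n ! * m ^ 2 * H ^ n)) / d ^ n) / ν)) * d ^ n := by
            gcongr
        _ = (2 * C1 / δ) * (n ! * m * H ^ N) +
        (2 * C2 * δ * d / (n * ν)) * (2 * m * S + n * (n ! * m ^ 2 * H ^ n)) := by
            rw [hr]
            have hdN : d ^ n = d ^ N * d := by rw [hn, pow_succ]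
            have e1 : C1 * ((2 * (N ! * m * H ^ N) / d ^ N) / (δ * d / n)) * d ^ n =
                (2 * C1 / δ) * (n ! * m * H ^ N) := by
              rw [hdN, hf]; field_simp
            have e2 : C2 * (δ * d / n * (2 * (2 * m * S + n * (n ! * m ^ 2 * H ^ n)) / d ^ n) / ν)
                * d ^ n =
                (2 * C2 * δ * d / (n * ν)) * (2 * m * S + n * (n ! * m ^ 2 * H ^ n)) := by
              field_simp
            rw [add_mul, e1, e2]
    -- conclusion
    have g1 : (2 * C1 / δ) * (n ! * m * H ^ N) = (1 / 2) * (n ! * m * H ^ n) := by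
      have : H ^ n = H ^ N * H := by rw [hn, pow_succ]
      rw [this]
      have h2 : 2 * C1 / δ = H / 2 := by rw [hH]; ring
      rw [h2]; ring
    have g2 : (2 * C2 * δ * d / (n * ν)) * (2 * m * S + n * (n ! * m ^ 2 * H ^ n)) ≤
        (1 / 8) * (2 * S + n ! * m * H ^ n) := by
      have hdm : d * m ≤ K := (mul_le_mul_of_nonneg_right hdL hm).trans hLm
      have h1 : (2 * C2 * δ * d / (n * ν)) * (2 * m * S + n * (n ! * m ^ 2 * H ^ n)) =
          (2 * C2 * δ * (d * m) / ν) * (2 * S / n + n ! * m * H ^ n) := by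
        field_simp
      rw [h1]
      have h2 : 2 * C2 * δ * (d * m) / ν ≤ 1 / 8 := by
        refine le_trans ?_ hδ2
        gcongr
      have h3 : 2 * S / n ≤ 2 * S := div_le_self (by positivity) hn1
      calc (2 * C2 * δ * (d * m) / ν) * (2 * S / n + n ! * m * H ^ n)
          ≤ (1 / 8) * (2 * S + n ! * m * H ^ n) := by
            gcongr
        _ = _ := rfl
    rw [g1] at hfin
    have hpos : 0 ≤ n ! * m * H ^ n := by positivity
    linarith [hfin, g2, hpos]

end H88NS
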