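import Pool.Agent.H88NS.Est

/-! Epsilon regularity: small `L³` norm on a ball bounds a steady flow pointwise. -/

open MeasureTheory Set Filter Metric Topology
open scoped ContDiff Nat

namespace H88NS

theorem kk_bounded : ∃ κ0 : ℝ, 0 < κ0 ∧ ∀ s, |kk s| ≤ κ0 := by
  obtain ⟨C, hC⟩ := kk_compact.exists_bound_of_continuous kk_contDiff.continuous
  refine ⟨|C| + 1, by positivity, fun s => ?_⟩
  have := hC s
  rw [Real.norm_eq_abs] at this
  linarith [le_abs_self C]

theorem cube_split {a η : ℝ} (ha : 0 ≤ a) (hη : 0 < η) : a ≤ (η ^ 2)⁻¹ * a ^ 3 + η := by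
  rcases le_total a η with h | h
  · have : 0 ≤ (η ^ 2)⁻¹ * a ^ 3 := by positivity
    linarith
  · have h1 : a ≤ (η ^ 2)⁻¹ * a ^ 3 := by
      rw [inv_mul_eq_div, le_div_iff₀ (by positivity)]
      have : η ^ 2 ≤ a ^ 2 := by gcongr
      nlinarith
    linarith

/-- scaling of the local cubic integral -/
theorem cube_scale {f : E → ℝ} {x : E} {r : ℝ} (hr : 0 < r) :
    ∫ s in closedBall (0 : E) 1, |f (x + r • s)| ^ 3 =
      (r ^ 3)⁻¹ * ∫ y in closedBall x r, |f y| ^ 3 := by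
  rw [← integral_indicator measurableSet_closedBall, ← integral_indicator measurableSet_closedBall]
  have h1 : (fun s : E => (closedBall (0 : E) 1).indicator (fun s => |f (x + r • s)| ^ 3) s) =
      fun s => (fun y => (closedBall x r).indicator (fun y => |f y| ^ 3) (x + y)) (r • s) := by
    funext s
    have hiff : s ∈ closedBall (0 : E) 1 ↔ x + r • s ∈ closedBall x r := by
      rw [mem_closedBall_zero_iff, mem_closedBall, dist_eq_norm, add_sub_cancel_left, norm_smul,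
        Real.norm_of_nonneg hr.le]
      constructor
      · intro h; nlinarith
      · intro h
        by_contra h2
        push Not at h2
        nlinarith
    by_cases hs : s ∈ closedBall (0 : E) 1
    · simp only [indicator_of_mem hs, indicator_of_mem (hiff.mp hs)]
    · simp only [indicator_of_notMem hs, indicator_of_notMem (fun h => hs (hiff.mpr h))]
  have h2 := Measure.integral_comp_smul (volume : Measure E)
    (fun y => (closedBall x r).indicator (fun y => |f y| ^ 3) (x + y)) r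
  have hdim : Module.finrank ℝ E = 3 := by simp [E]
  rw [integral_add_left_eq_self (fun y => (closedBall x r).indicator (fun y => |f y| ^ 3) y) x,
    hdim, smul_eq_mul, abs_of_pos (by positivity)] at h2
  rw [h1]
  exact h2

/-- the average is controlled by the `L³` norm -/
theorem avg_cube {κ0 : ℝ} (hκ0 : 0 < κ0) (hκ : ∀ s, |kk s| ≤ κ0) {f : E → ℝ} (hf : Continuous f)
    {x : E} {r η : ℝ} (hr : 0 < r) (hη : 0 < η) :
    |∫ s, kk s * f (x + r • s)| ≤
      κ0 * ((η ^ 2)⁻¹ * ((r ^ 3)⁻¹ * ∫ y in closedBall x r, |f y| ^ 3) +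
        η * (volume : Measure E).real (closedBall 0 1)) := by
  have hint : ∀ {g : E → ℝ}, Continuous g → IntegrableOn g (closedBall (0 : E) 1) := fun hg =>
    hg.continuousOn.integrableOn_compact (isCompact_closedBall _ _)
  have hfc : Continuous fun s : E => f (x + r • s) := hf.comp (by fun_prop)
  have h1 : ∫ s, kk s * f (x + r • s) = ∫ s in closedBall (0 : E) 1, kk s * f (x + r • s) := by
    rw [← integral_indicator measurableSet_closedBall]
    congr 1
    funext s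
    by_cases hs : s ∈ closedBall (0 : E) 1
    · rw [indicator_of_mem hs]
    · rw [indicator_of_notMem hs]
      rw [mem_closedBall_zero_iff, not_le] at hs
      rw [kk_zero hs.le, zero_mul]
  rw [h1, ← Real.norm_eq_abs]
  calc ‖∫ s in closedBall (0 : E) 1, kk s * f (x + r • s)‖
      ≤ ∫ s in closedBall (0 : E) 1, κ0 * ((η ^ 2)⁻¹ * |f (x + r • s)| ^ 3 + η) := by
        refine norm_integral_le_of_norm_le (hint (by fun_prop)) (Eventually.of_forall fun s => ?_)
        rw [norm_mul, Real.norm_eq_abs, Real.norm_eq_abs]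
        have h2 := cube_split (abs_nonneg (f (x + r • s))) hη
        have h3 := hκ s
        gcongr
    _ = _ := by
        rw [integral_const_mul, integral_add (hint (by fun_prop)) (hint (by fun_prop)),
          integral_const_mul, cube_scale hr, setIntegral_const, smul_eq_mul, mul_comm (_ : ℝ) η]

/-- **Epsilon regularity.** -/
theorem eps_reg : ∃ ε : ℝ, 0 < ε ∧ ∀ (ν : ℝ) (v : Fin 3 → E → ℝ) (p : E → ℝ), 0 < ν →
    Stokes ν v (fun j k y => v j y * v k y) p → ∀ (x0 : E) (L : ℝ), 0 < L →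
    (∀ i, ∫ y in closedBall x0 L, |v i y| ^ 3 ≤ (ε * ν) ^ 3) →
    ∀ x ∈ closedBall x0 L, ∀ i, |v i x| * (L - dist x x0) ≤ ν := by
  obtain ⟨κ0, hκ0, hκ⟩ := kk_bounded
  obtain ⟨C2, hC2, hval⟩ := stokes_val
  set c0 := ∫ s, kk s with hc0
  have hc0pos : 0 < c0 := kk_integral
  set V := (volume : Measure E).real (closedBall 0 1) with hV
  have hV0 : 0 ≤ V := measureReal_nonneg
  set θ : ℝ := min (1 / 2) (1 / (16 * C2)) with hθ
  have hθ0 : 0 < θ := lt_min (by norm_num) (by positivity)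
  have hθ1 : θ ≤ 1 / 2 := min_le_left _ _
  have hθ2 : 4 * C2 * θ ≤ 1 / 4 := by
    have h1 : θ ≤ 1 / (16 * C2) := min_le_right _ _
    rw [le_div_iff₀ (by positivity)] at h1
    linarith
  set κ : ℝ := c0 / (4 * κ0 * (V + 1)) with hκdef
  have hκpos : 0 < κ := by positivity
  have hκ1 : c0⁻¹ * (κ0 * (κ * V)) ≤ 1 / 4 := by
    have h1 : c0⁻¹ * (κ0 * (κ * V)) = V / (4 * (V + 1)) := by
      rw [hκdef]; field_simp
    rw [h1, div_le_div_iff₀ (by positivity) (by norm_num)]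
    linarith
  set ε : ℝ := min 1 (c0 * κ ^ 2 * θ ^ 3 / (4 * κ0)) with hε
  have hε0 : 0 < ε := lt_min (by norm_num) (by positivity)
  have hε1 : ε ≤ 1 := min_le_left _ _
  have hε2 : c0⁻¹ * (κ0 * ((κ ^ 2)⁻¹ * (θ ^ 3)⁻¹ * ε ^ 3)) ≤ 1 / 4 := by
    have h1 : ε ≤ c0 * κ ^ 2 * θ ^ 3 / (4 * κ0) := min_le_right _ _
    have h2 : ε ^ 3 ≤ ε := by
      have := pow_le_of_le_one hε0.le hε1 (n := 3) (by norm_num)
      exact this
    calc c0⁻¹ * (κ0 * ((κ ^ 2)⁻¹ * (θ ^ 3)⁻¹ * ε ^ 3))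
        ≤ c0⁻¹ * (κ0 * ((κ ^ 2)⁻¹ * (θ ^ 3)⁻¹ * (c0 * κ ^ 2 * θ ^ 3 / (4 * κ0)))) := by
          gcongr
          exact h2.trans h1
      _ = 1 / 4 := by field_simp
  refine ⟨ε, hε0, ?_⟩
  intro ν v p hν hS x0 L hL hcube
  have hcont : Continuous fun x : E => ‖fun i => v i x‖ * (L - dist x x0) :=
    Continuous.mul (Continuous.norm (continuous_pi fun i => (hS.hu i).continuous)) (by fun_prop)
  obtain ⟨xs, hxs, hmax⟩ := (isCompact_closedBall x0 L).exists_isMaxOn
    ⟨x0, mem_closedBall_self hL.le⟩ hcont.continuousOn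
  have hd_nonneg : ∀ x ∈ closedBall x0 L, 0 ≤ L - dist x x0 := fun x hx => by
    rw [mem_closedBall] at hx; linarith
  have hle : ∀ x ∈ closedBall x0 L, ∀ i, |v i x| * (L - dist x x0) ≤
      ‖fun i => v i xs‖ * (L - dist xs x0) := by
    intro x hx i
    have h1 : |v i x| ≤ ‖fun i => v i x‖ := norm_le_pi_norm (fun i => v i x) i
    exact (mul_le_mul_of_nonneg_right h1 (hd_nonneg x hx)).trans (hmax hx)
  suffices hgoal : ‖fun i => v i xs‖ * (L - dist xs x0) ≤ ν from
    fun x hx i => (hle x hx i).trans hgoal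
  by_contra hcon
  push Not at hcon
  set N : ℝ := ‖fun i => v i xs‖ with hN
  set d : ℝ := L - dist xs x0 with hd
  have hN0 : 0 ≤ N := norm_nonneg _
  have hd0 : 0 ≤ d := hd_nonneg xs hxs
  have hNd : 0 < N * d := hν.trans hcon
  have hNpos : 0 < N := lt_of_le_of_ne hN0 (fun h => by rw [← h, zero_mul] at hNd; exact lt_irrefl _ hNd)
  have hdpos : 0 < d := lt_of_le_of_ne hd0 (fun h => by rw [← h, mul_zero] at hNd; exact lt_irrefl _ hNd)
  set r : ℝ := θ * ν / N with hr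
  have hr0 : 0 < r := by positivity
  have hrd : r ≤ d / 2 := by
    rw [hr, div_le_iff₀ hNpos]
    nlinarith
  have hdL : d ≤ L := by rw [hd]; linarith [dist_nonneg (x := xs) (y := x0)]
  have hpt : ∀ y ∈ closedBall xs r, y ∈ closedBall x0 L ∧ ∀ i, |v i y| ≤ 2 * N := by
    intro y hy
    rw [mem_closedBall] at hy
    have h1 : dist y x0 ≤ dist y xs + dist xs x0 := dist_triangle _ _ _
    have h2 : d / 2 ≤ L - dist y x0 := by rw [hd] at hrd ⊢; linarith
    have hyL : y ∈ closedBall x0 L := by rw [mem_closedBall]; linarith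
    refine ⟨hyL, fun i => ?_⟩
    have h3 := hle y hyL i
    have h4 : |v i y| * (d / 2) ≤ N * d := by
      refine le_trans ?_ h3
      gcongr
    by_contra h5
    push Not at h5
    nlinarith
  have hg : ∀ y ∈ closedBall xs r, ∀ j k, |v j y * v k y| ≤ 4 * N ^ 2 := by
    intro y hy j k
    rw [abs_mul]
    calc |v j y| * |v k y| ≤ (2 * N) * (2 * N) := by
          gcongr
          · exact (hpt y hy).2 j
          · exact (hpt y hy).2 k
      _ = 4 * N ^ 2 := by ring
  have hkey : ∀ i, |v i xs| ≤ c0⁻¹ * (κ0 * ((κ ^ 2)⁻¹ * (θ ^ 3)⁻¹ * ε ^ 3 * N + κ * N * V))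
      + 4 * C2 * θ * N := by
    intro i
    have h1 := hval ν v _ p hν hS xs r (4 * N ^ 2) hr0 hg i
    have hη : 0 < κ * N := by positivity
    have h2 := avg_cube hκ0 hκ (hS.hu i).continuous (x := xs) hr0 hη
    have h3 : ∫ y in closedBall xs r, |v i y| ^ 3 ≤ (ε * ν) ^ 3 := by
      refine le_trans ?_ (hcube i)
      refine setIntegral_mono_set ?_ (Eventually.of_forall fun y => by positivity)
        (Eventually.of_forall fun y hy => (hpt y hy).1)
      exact ((hS.hu i).continuous.abs.pow 3).continuousOn.integrableOn_compact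
        (isCompact_closedBall _ _)
    have h4 : ((κ * N) ^ 2)⁻¹ * ((r ^ 3)⁻¹ * ∫ y in closedBall xs r, |v i y| ^ 3) ≤
        (κ ^ 2)⁻¹ * (θ ^ 3)⁻¹ * ε ^ 3 * N := by
      calc ((κ * N) ^ 2)⁻¹ * ((r ^ 3)⁻¹ * ∫ y in closedBall xs r, |v i y| ^ 3)
          ≤ ((κ * N) ^ 2)⁻¹ * ((r ^ 3)⁻¹ * (ε * ν) ^ 3) := by gcongr
        _ = (κ ^ 2)⁻¹ * (θ ^ 3)⁻¹ * ε ^ 3 * N := by
          rw [hr]
          field_simp
    have h5 : C2 * (r * (4 * N ^ 2) / ν) = 4 * C2 * θ * N := by
      rw [hr]; field_simp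
    rw [h5] at h1
    refine h1.trans ?_
    gcongr
    exact h2.trans (by gcongr)
  have hNle : N ≤ c0⁻¹ * (κ0 * ((κ ^ 2)⁻¹ * (θ ^ 3)⁻¹ * ε ^ 3 * N + κ * N * V))
      + 4 * C2 * θ * N := by
    refine (pi_norm_le_iff_of_nonneg ?_).mpr hkey
    positivity
  have h6 : c0⁻¹ * (κ0 * ((κ ^ 2)⁻¹ * (θ ^ 3)⁻¹ * ε ^ 3 * N + κ * N * V)) + 4 * C2 * θ * N =
      (c0⁻¹ * (κ0 * ((κ ^ 2)⁻¹ * (θ ^ 3)⁻¹ * ε ^ 3)) + c0⁻¹ * (κ0 * (κ * V)) + 4 * C2 * θ) * N := by
    ring
  rw [h6] at hNle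
  nlinarith

end H88NS
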