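import Mathlib

/-! Phragmen-Lindelof with small discs: an entire function of exponential type, bounded by `M` on
the real line and on discs `D(a, τ|a|)` for arbitrarily large real `a`, is bounded by `M`. -/

open Complex Set Filter Metric Topology Asymptotics Bornology

namespace H88NS

theorem pl0 {F : ℂ → ℂ} (hF : Differentiable ℂ F) {C A M : ℝ} (hA : 0 ≤ A)
    (hexp : ∀ z, ‖F z‖ ≤ C * Real.exp (A * ‖z‖)) (hb : ∀ x : ℝ, ‖F x‖ ≤ M) :
    ∀ z : ℂ, 0 ≤ z.im → ‖F z‖ ≤ M * Real.exp (A * z.im) := by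
  have hC : 0 ≤ C := by
    have := (norm_nonneg _).trans (hexp 0)
    simpa using this
  set f : ℂ → ℂ := fun w => F (I * w) * cexp (-(A : ℂ) * w) with hf
  have hfn : ∀ w, ‖f w‖ = ‖F (I * w)‖ * Real.exp (-A * w.re) := by
    intro w
    simp only [hf, norm_mul, Complex.norm_exp]
    congr 2
    simp
  have hfd : Differentiable ℂ f := by
    simp only [hf]
    fun_prop
  have key : ∀ w : ℂ, 0 ≤ w.re → ‖f w‖ ≤ M := by
    intro w hw
    refine PhragmenLindelof.right_half_plane_of_bounded_on_real hfd.diffContOnCl ?_ ?_ ?_ hw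
    · refine ⟨1, by norm_num, A, ?_⟩
      refine IsBigO.of_bound C ?_
      filter_upwards [mem_inf_of_right (mem_principal_self _)] with z hz
      rw [hfn, Real.norm_of_nonneg (Real.exp_nonneg _), Real.rpow_one]
      have hz' : 0 < z.re := hz
      have h1 := hexp (I * z)
      simp only [norm_mul, Complex.norm_I, one_mul] at h1
      have h2 : Real.exp (-A * z.re) ≤ 1 := by
        rw [Real.exp_le_one_iff]
        nlinarith
      calc ‖F (I * z)‖ * Real.exp (-A * z.re) ≤ (C * Real.exp (A * ‖z‖)) * 1 := by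
            gcongr
        _ = _ := by ring
    · refine ⟨C, ?_⟩
      simp only [eventually_map]
      filter_upwards [eventually_ge_atTop (0 : ℝ)] with x hx
      rw [hfn]
      have h1 := hexp (I * x)
      simp only [norm_mul, Complex.norm_I, one_mul, Complex.norm_real, Real.norm_eq_abs,
        abs_of_nonneg hx] at h1
      simp only [Complex.ofReal_re]
      have h3 : Real.exp (A * x) * Real.exp (-A * x) = 1 := by
        rw [← Real.exp_add]; simp
      calc ‖F (I * x)‖ * Real.exp (-A * x) ≤ (C * Real.exp (A * x)) * Real.exp (-A * x) := by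
            gcongr
        _ = C * (Real.exp (A * x) * Real.exp (-A * x)) := by ring
        _ = C := by rw [h3, mul_one]
    · intro x
      rw [hfn]
      have h1 := hb (-x)
      have h2 : I * (x * I) = ((-x : ℝ) : ℂ) := by
        push_cast
        linear_combination (x : ℂ) * Complex.I_mul_I
      rw [h2]
      simpa using h1
  intro z hz
  have h1 := key (-I * z) (by simpa using hz)
  rw [hfn] at h1
  have h2 : I * (-I * z) = z := by
    linear_combination (-z) * Complex.I_mul_I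
  rw [h2] at h1
  have h3 : (-I * z).re = z.im := by simp
  rw [h3] at h1
  have h4 : Real.exp (-A * z.im) * Real.exp (A * z.im) = 1 := by
    rw [← Real.exp_add]; simp
  calc ‖F z‖ = (‖F z‖ * Real.exp (-A * z.im)) * Real.exp (A * z.im) := by
        rw [mul_assoc, h4, mul_one]
    _ ≤ M * Real.exp (A * z.im) := by gcongr

/-- the comparison on the complement of one ball. -/
theorem pl_core {F : ℂ → ℂ} (hF : Differentiable ℂ F) {A M : ℝ} (hA : 0 ≤ A) (hM : 0 ≤ M)
    (hup : ∀ z : ℂ, 0 ≤ z.im → ‖F z‖ ≤ M * Real.exp (A * z.im))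
    {ζ : ℂ} {ρ : ℝ} (hρ : 0 < ρ) (hζ : ζ.im = 2 * ρ)
    (hball : ∀ z, ‖z - ζ‖ = ρ → ‖F z‖ ≤ M) {n : ℕ} (hn : (5 : ℝ) ^ n ≤ Real.exp (A * ρ))
    {z : ℂ} (hz : 0 < z.im) (hzρ : ρ < ‖z - ζ‖) :
    ‖F z‖ * ‖z - (starRingEnd ℂ) ζ‖ ^ n ≤ M * Real.exp (A * z.im) * ‖z - ζ‖ ^ n := by
  set ζ' : ℂ := (starRingEnd ℂ) ζ with hζ'
  set G : ℂ → ℂ := fun w => F w * cexp (I * A * w) * ((w - ζ') / (w - ζ)) ^ n with hG
  have hexpn : ∀ w : ℂ, ‖cexp (I * A * w)‖ = Real.exp (-(A * w.im)) := by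
    intro w
    rw [Complex.norm_exp]
    congr 1
    simp
  have hGn : ∀ w, ‖G w‖ = ‖F w‖ * Real.exp (-(A * w.im)) * (‖w - ζ'‖ / ‖w - ζ‖) ^ n := by
    intro w
    simp only [hG, norm_mul, norm_pow, norm_div, hexpn]
  have hMw : ∀ w : ℂ, 0 ≤ w.im → ‖F w‖ * Real.exp (-(A * w.im)) ≤ M := by
    intro w hw
    calc ‖F w‖ * Real.exp (-(A * w.im)) ≤ (M * Real.exp (A * w.im)) * Real.exp (-(A * w.im)) := by
          gcongr; exact hup w hw
      _ = M := by rw [mul_assoc, ← Real.exp_add]; simp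
  have hζn : ‖ζ'‖ = ‖ζ‖ := Complex.norm_conj ζ
  -- squares of distances
  have hsq : ∀ w : ℂ, ‖w - ζ'‖ ^ 2 = ‖w - ζ‖ ^ 2 + 4 * w.im * ζ.im := by
    intro w
    rw [← Complex.normSq_eq_norm_sq, ← Complex.normSq_eq_norm_sq, Complex.normSq_apply,
      Complex.normSq_apply]
    simp only [hζ', Complex.sub_re, Complex.sub_im, Complex.conj_re, Complex.conj_im]
    ring
  -- main bound for every large T
  have hT : ∀ T : ℝ, ‖ζ‖ + ‖z‖ + 1 ≤ T → ‖G z‖ ≤ M * ((T + ‖ζ‖) / (T - ‖ζ‖)) ^ n := by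
    intro T hTz
    have hTζ : 0 < T - ‖ζ‖ := by linarith [norm_nonneg z]
    have hTpos : 0 < T := by linarith [norm_nonneg z, norm_nonneg ζ]
    have hr1 : 1 ≤ (T + ‖ζ‖) / (T - ‖ζ‖) := by
      rw [le_div_iff₀ hTζ]; linarith [norm_nonneg ζ]
    set U : Set ℂ := (ball 0 T ∩ {w : ℂ | 0 < w.im}) ∩ {w : ℂ | ρ < ‖w - ζ‖} with hU
    have hUo : IsOpen U := by
      refine (isOpen_ball.inter (isOpen_lt continuous_const Complex.continuous_im)).inter
        (isOpen_lt continuous_const (by fun_prop))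
    have hUb : Bornology.IsBounded U := by
      refine (isBounded_ball (x := (0 : ℂ)) (r := T)).subset ?_
      intro w hw
      exact hw.1.1
    have hUc : closure U ⊆ (closedBall 0 T ∩ {w : ℂ | 0 ≤ w.im}) ∩ {w : ℂ | ρ ≤ ‖w - ζ‖} := by
      refine closure_minimal ?_ ?_
      · rintro w ⟨⟨h1, h2⟩, h3⟩
        exact ⟨⟨ball_subset_closedBall h1, le_of_lt (show 0 < w.im from h2)⟩,
          le_of_lt (show ρ < ‖w - ζ‖ from h3)⟩
      · exact (isClosed_closedBall.inter (isClosed_le continuous_const Complex.continuous_im)).inter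
          (isClosed_le continuous_const (by fun_prop))
    have hzU : z ∈ U := by
      refine ⟨⟨?_, hz⟩, hzρ⟩
      rw [mem_ball_zero_iff]
      linarith [norm_nonneg ζ]
    have hGd : DiffContOnCl ℂ G U := by
      apply DifferentiableOn.diffContOnCl
      intro w hw
      have h1 : ρ ≤ ‖w - ζ‖ := (hUc hw).2
      have h2 : w - ζ ≠ 0 := by
        intro h0
        rw [h0, norm_zero] at h1
        linarith
      apply DifferentiableAt.differentiableWithinAt
      simp only [hG]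
      have h3 : DifferentiableAt ℂ F w := hF w
      fun_prop (disch := assumption)
    refine Complex.norm_le_of_forall_mem_frontier_norm_le hUb hGd ?_ (subset_closure hzU)
    intro w hw
    have hwc : w ∈ closure U := hw.1
    have hwU : w ∉ U := by
      have := hw.2
      rwa [hUo.interior_eq] at this
    obtain ⟨⟨hw1, hw2⟩, hw3⟩ := hUc hwc
    rw [mem_closedBall_zero_iff] at hw1
    replace hw2 : 0 ≤ w.im := hw2
    replace hw3 : ρ ≤ ‖w - ζ‖ := hw3
    have hwζ : 0 < ‖w - ζ‖ := by linarith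
    rw [hGn]
    by_cases c1 : ‖w - ζ‖ = ρ
    · -- on the small circle
      have him : ρ ≤ w.im := by
        have h1 : |(w - ζ).im| ≤ ‖w - ζ‖ := Complex.abs_im_le_norm _
        rw [c1, Complex.sub_im, hζ] at h1
        have := (abs_le.mp h1).1
        linarith
      have h5 : ‖w - ζ'‖ / ‖w - ζ‖ ≤ 5 := by
        rw [div_le_iff₀ hwζ, c1]
        have h6 : ‖w - ζ'‖ ≤ ‖w - ζ‖ + ‖ζ - ζ'‖ := by
          have : w - ζ' = (w - ζ) + (ζ - ζ') := by ring
          rw [this]; exact norm_add_le _ _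
        have h7 : ‖ζ - ζ'‖ = 4 * ρ := by
          have : ζ - ζ' = ((4 * ρ : ℝ) : ℂ) * I := by
            apply Complex.ext
            · simp [hζ']
            · simp [hζ', hζ]; ring
          rw [this, norm_mul, Complex.norm_I, mul_one, Complex.norm_real, Real.norm_of_nonneg]
          linarith
        rw [h7, c1] at h6
        linarith
      have h8 : Real.exp (-(A * w.im)) ≤ Real.exp (-(A * ρ)) := by
        apply Real.exp_le_exp.mpr
        nlinarith
      calc ‖F w‖ * Real.exp (-(A * w.im)) * (‖w - ζ'‖ / ‖w - ζ‖) ^ n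
          ≤ M * Real.exp (-(A * ρ)) * 5 ^ n := by
            gcongr
            exact hball w c1
        _ ≤ M * Real.exp (-(A * ρ)) * Real.exp (A * ρ) := by gcongr
        _ = M * 1 := by rw [mul_assoc, ← Real.exp_add]; simp
        _ ≤ M * ((T + ‖ζ‖) / (T - ‖ζ‖)) ^ n := by
            gcongr
            exact one_le_pow₀ hr1
    · by_cases c2 : w.im = 0
      · have h1 : ‖w - ζ'‖ / ‖w - ζ‖ = 1 := by
          have h2 := hsq w
          rw [c2] at h2
          simp only [mul_zero, zero_mul, add_zero] at h2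
          have h3 : ‖w - ζ'‖ = ‖w - ζ‖ := by
            nlinarith [norm_nonneg (w - ζ'), norm_nonneg (w - ζ), sq_nonneg (‖w - ζ'‖ - ‖w - ζ‖),
              abs_eq_abs.mpr (sq_eq_sq_iff_eq_or_eq_neg.mp h2), abs_of_nonneg (norm_nonneg (w - ζ')),
              abs_of_nonneg (norm_nonneg (w - ζ))]
          rw [h3, div_self hwζ.ne']
        rw [h1]
        calc ‖F w‖ * Real.exp (-(A * w.im)) * 1 ^ n ≤ M * 1 := by
              rw [one_pow]
              have := hMw w hw2
              linarith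
          _ ≤ M * ((T + ‖ζ‖) / (T - ‖ζ‖)) ^ n := by
              gcongr
              exact one_le_pow₀ hr1
      · -- then `‖w‖ = T`
        have hwT : T ≤ ‖w‖ := by
          by_contra hlt
          push Not at hlt
          apply hwU
          refine ⟨⟨by rwa [mem_ball_zero_iff], lt_of_le_of_ne hw2 (Ne.symm c2)⟩,
            lt_of_le_of_ne hw3 (Ne.symm c1)⟩
        have hwT' : ‖w‖ = T := le_antisymm hw1 hwT
        have h1 : ‖w - ζ'‖ ≤ T + ‖ζ‖ := by
          have := norm_sub_le w ζ'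
          rw [hζn, hwT'] at this
          exact this
        have h2 : T - ‖ζ‖ ≤ ‖w - ζ‖ := by
          have := norm_sub_norm_le w ζ
          rw [hwT'] at this
          exact this
        have h3 := hMw w hw2
        have h4 : ‖w - ζ'‖ / ‖w - ζ‖ ≤ (T + ‖ζ‖) / (T - ‖ζ‖) := by
          gcongr
        gcongr
  -- let T tend to infinity
  have hlim : Tendsto (fun T : ℝ => M * ((T + ‖ζ‖) / (T - ‖ζ‖)) ^ n) atTop (𝓝 (M * 1 ^ n)) := by
    have h1 : Tendsto (fun T : ℝ => (T + ‖ζ‖) / (T - ‖ζ‖)) atTop (𝓝 1) := by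
      have h2 : Tendsto (fun T : ℝ => 1 + (2 * ‖ζ‖) / (T - ‖ζ‖)) atTop (𝓝 (1 + 0)) := by
        refine tendsto_const_nhds.add ?_
        refine tendsto_const_nhds.div_atTop ?_
        exact tendsto_atTop_add_const_right _ _ tendsto_id
      rw [add_zero] at h2
      refine h2.congr' ?_
      filter_upwards [eventually_gt_atTop ‖ζ‖] with T hT0
      have : T - ‖ζ‖ ≠ 0 := (sub_pos.mpr hT0).ne'
      field_simp
      ring
    exact (h1.pow n).const_mul M
  have hGz : ‖G z‖ ≤ M := by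
    have h1 : ‖G z‖ ≤ M * 1 ^ n := by
      refine ge_of_tendsto hlim ?_
      filter_upwards [eventually_ge_atTop (‖ζ‖ + ‖z‖ + 1)] with T hT0 using hT T hT0
    simpa using h1
  rw [hGn] at hGz
  have hzpos : 0 < ‖z - ζ‖ := by linarith
  rw [div_pow, ← mul_div_assoc, div_le_iff₀ (by positivity)] at hGz
  have h4 : Real.exp (-(A * z.im)) * Real.exp (A * z.im) = 1 := by
    rw [← Real.exp_add]; simp
  calc ‖F z‖ * ‖z - ζ'‖ ^ n
      = (‖F z‖ * Real.exp (-(A * z.im)) * ‖z - ζ'‖ ^ n) * Real.exp (A * z.im) := by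
        linear_combination (‖F z‖ * ‖z - ζ'‖ ^ n) * (-h4)
    _ ≤ (M * ‖z - ζ‖ ^ n) * Real.exp (A * z.im) := by gcongr
    _ = _ := by ring

set_option maxHeartbeats 1000000 in
/-- one step of the iteration: the exponential type in the upper half plane is reduced by a
fixed factor. -/
theorem pl1 {F : ℂ → ℂ} (hF : Differentiable ℂ F) {A M τ : ℝ} (hA : 0 ≤ A) (hM : 0 ≤ M)
    (hτ : 0 < τ) (hτ1 : τ ≤ 1)
    (hup : ∀ z : ℂ, 0 ≤ z.im → ‖F z‖ ≤ M * Real.exp (A * z.im))
    (hdisc : ∀ N : ℝ, ∃ a : ℝ, N ≤ |a| ∧ ∀ z : ℂ, ‖z - a‖ ≤ τ * |a| → ‖F z‖ ≤ M) :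
    ∀ z : ℂ, 0 ≤ z.im → ‖F z‖ ≤ M * Real.exp (A * (1 - τ ^ 2 / 32) * z.im) := by
  intro z hz0
  rcases hz0.eq_or_lt with hz | hz
  · have := hup z hz0
    rw [← hz] at this ⊢
    simpa using this
  -- for every large `b`
  have key : ∀ N : ℝ, ∃ b : ℝ, N ≤ b ∧
      ‖F z‖ ≤ M * Real.exp (A * (1 - τ ^ 2 / 32) * z.im + z.im / (4 * b)) := by
    intro N
    obtain ⟨a, ha, hD⟩ := hdisc (max N (max 1 (2 * ‖z‖)))
    set b := |a| with hb
    have hbN : N ≤ b := (le_max_left _ _).trans ha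
    have hb1 : 1 ≤ b := ((le_max_left _ _).trans (le_max_right _ _)).trans ha
    have hbz : 2 * ‖z‖ ≤ b := ((le_max_right _ _).trans (le_max_right _ _)).trans ha
    have hb0 : 0 < b := by linarith
    set ρ := τ * b / 4 with hρ
    have hρ0 : 0 < ρ := by positivity
    have hρb : ρ ≤ b / 4 := by
      rw [hρ]
      nlinarith
    set ζ : ℂ := (a : ℂ) + (((2 * ρ : ℝ) : ℂ)) * I with hζ
    have hζim : ζ.im = 2 * ρ := by simp [hζ]
    have hζre : ζ.re = a := by simp [hζ]
    have hζa : ‖ζ - a‖ = 2 * ρ := by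
      have : ζ - a = (((2 * ρ : ℝ) : ℂ)) * I := by rw [hζ]; ring
      rw [this, norm_mul, Complex.norm_I, mul_one, Complex.norm_real, Real.norm_of_nonneg]
      positivity
    have hζlow : b ≤ ‖ζ‖ := by
      have := Complex.abs_re_le_norm ζ
      rwa [hζre] at this
    have hζup : ‖ζ‖ ≤ b + 2 * ρ := by
      have h1 : ‖ζ‖ ≤ ‖(a : ℂ)‖ + ‖ζ - a‖ := by
        have : ζ = (a : ℂ) + (ζ - a) := by ring
        calc ‖ζ‖ = ‖(a : ℂ) + (ζ - a)‖ := by rw [← this]
          _ ≤ _ := norm_add_le _ _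
      rw [hζa, Complex.norm_real, Real.norm_eq_abs] at h1
      exact h1
    have hball : ∀ w : ℂ, ‖w - ζ‖ = ρ → ‖F w‖ ≤ M := by
      intro w hw
      apply hD
      have : w - a = (w - ζ) + (ζ - a) := by ring
      calc ‖w - a‖ = ‖(w - ζ) + (ζ - a)‖ := by rw [← this]
        _ ≤ ‖w - ζ‖ + ‖ζ - a‖ := norm_add_le _ _
        _ = ρ + 2 * ρ := by rw [hw, hζa]
        _ ≤ τ * |a| := by rw [← hb, hρ]; nlinarith
    set n := ⌊A * ρ / 2⌋₊ with hn
    have hnle : (n : ℝ) ≤ A * ρ / 2 := Nat.floor_le (by positivity)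
    have hnge : A * ρ / 2 - 1 < n := Nat.sub_one_lt_floor _
    have h5 : (5 : ℝ) ^ n ≤ Real.exp (A * ρ) := by
      have h6 : (5 : ℝ) ≤ Real.exp 2 := by
        have := Real.exp_one_gt_d9
        have h7 : Real.exp 2 = Real.exp 1 * Real.exp 1 := by rw [← Real.exp_add]; norm_num
        rw [h7]; nlinarith
      calc (5 : ℝ) ^ n ≤ (Real.exp 2) ^ n := by gcongr
        _ = Real.exp (n * 2) := by rw [← Real.exp_nat_mul]
        _ ≤ Real.exp (A * ρ) := by
            apply Real.exp_le_exp.mpr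
            linarith
    have hzζ : ρ < ‖z - ζ‖ := by
      have h1 : ‖ζ‖ - ‖z‖ ≤ ‖z - ζ‖ := by
        rw [norm_sub_rev]; exact norm_sub_norm_le _ _
      linarith
    have hcore := pl_core hF hA hM hup hρ0 hζim hball h5 hz hzζ
    set ζ' : ℂ := (starRingEnd ℂ) ζ with hζ'
    have hζ'n : ‖ζ'‖ = ‖ζ‖ := Complex.norm_conj ζ
    set P := ‖z - ζ'‖ with hP
    set Q := ‖z - ζ‖ with hQ
    have hQ0 : 0 < Q := by linarith
    have hsq : P ^ 2 = Q ^ 2 + 4 * z.im * (2 * ρ) := by
      rw [hP, hQ, ← hζim, ← Complex.normSq_eq_norm_sq, ← Complex.normSq_eq_norm_sq,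
        Complex.normSq_apply, Complex.normSq_apply]
      simp only [hζ', Complex.sub_re, Complex.sub_im, Complex.conj_re, Complex.conj_im]
      ring
    have hP0 : 0 < P := by
      have h1 : 0 < P ^ 2 := by rw [hsq]; positivity
      exact lt_of_le_of_ne (norm_nonneg _) (fun h => by rw [← h] at h1; norm_num at h1)
    have hPup : P ≤ 2 * b := by
      have h1 : P ≤ ‖z‖ + ‖ζ'‖ := norm_sub_le _ _
      rw [hζ'n] at h1
      linarith
    have hratio : (Q / P) ^ 2 ≤ Real.exp (-(z.im * τ / (2 * b))) := by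
      have h1 : (Q / P) ^ 2 = 1 - 8 * z.im * ρ / P ^ 2 := by
        rw [div_pow]
        have : P ^ 2 ≠ 0 := by positivity
        field_simp
        rw [hsq]; ring
      have h2 : z.im * τ / (2 * b) ≤ 8 * z.im * ρ / P ^ 2 := by
        rw [div_le_div_iff₀ (by positivity) (by positivity), hρ]
        have h3 : P ^ 2 ≤ 4 * b ^ 2 := by nlinarith
        have h4 : 0 ≤ z.im * τ := by positivity
        nlinarith [mul_le_mul_of_nonneg_left h3 h4]
      have h3 := Real.add_one_le_exp (-(z.im * τ / (2 * b)))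
      rw [h1]
      linarith
    have hpow : (Q / P) ^ n ≤ Real.exp (-(n * (z.im * τ / (4 * b)))) := by
      have h1 : ((Q / P) ^ n) ^ 2 ≤ (Real.exp (-(n * (z.im * τ / (4 * b))))) ^ 2 := by
        calc ((Q / P) ^ n) ^ 2 = ((Q / P) ^ 2) ^ n := by rw [← pow_mul, ← pow_mul, mul_comm]
          _ ≤ (Real.exp (-(z.im * τ / (2 * b)))) ^ n := by gcongr
          _ = (Real.exp (-(n * (z.im * τ / (4 * b))))) ^ 2 := by
            rw [← Real.exp_nat_mul, ← Real.exp_nat_mul]
            congr 1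
            push_cast
            field_simp
            ring
      exact (pow_le_pow_iff_left₀ (by positivity) (Real.exp_nonneg _) (by norm_num)).mp h1
    refine ⟨b, hbN, ?_⟩
    have h1 : ‖F z‖ ≤ M * Real.exp (A * z.im) * (Q / P) ^ n := by
      rw [div_pow, ← mul_div_assoc, le_div_iff₀ (by positivity)]
      exact hcore
    calc ‖F z‖ ≤ M * Real.exp (A * z.im) * (Q / P) ^ n := h1
      _ ≤ M * Real.exp (A * z.im) * Real.exp (-(n * (z.im * τ / (4 * b)))) := by gcongr
      _ = M * Real.exp (A * z.im - n * (z.im * τ / (4 * b))) := by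
        rw [mul_assoc, ← Real.exp_add]; rfl
      _ ≤ M * Real.exp (A * (1 - τ ^ 2 / 32) * z.im + z.im / (4 * b)) := by
        gcongr
        have h2 : (A * ρ / 2 - 1) * (z.im * τ / (4 * b)) ≤ n * (z.im * τ / (4 * b)) := by
          gcongr
        have h3 : (A * ρ / 2 - 1) * (z.im * τ / (4 * b))
            = A * τ ^ 2 * z.im / 32 - z.im * τ / (4 * b) := by
          rw [hρ]; field_simp; ring
        have h4 : z.im * τ / (4 * b) ≤ z.im / (4 * b) := by
          gcongr
          nlinarith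
        rw [h3] at h2
        have h5 : A * (1 - τ ^ 2 / 32) * z.im = A * z.im - A * τ ^ 2 * z.im / 32 := by ring
        rw [h5]
        linarith
  -- limit
  have hlim : Tendsto (fun b : ℝ => M * Real.exp (A * (1 - τ ^ 2 / 32) * z.im + z.im / (4 * b)))
      atTop (𝓝 (M * Real.exp (A * (1 - τ ^ 2 / 32) * z.im + 0))) := by
    refine ((Real.continuous_exp.tendsto _).comp (tendsto_const_nhds.add ?_)).const_mul M
    refine tendsto_const_nhds.div_atTop ?_
    exact tendsto_id.const_mul_atTop (by norm_num : (0 : ℝ) < 4)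
  rw [add_zero] at hlim
  refine ge_of_tendsto_of_frequently hlim ?_
  rw [frequently_atTop]
  intro N
  obtain ⟨b, hb, hb2⟩ := key N
  exact ⟨b, hb, hb2⟩

/-- the upper half plane. -/
theorem pl_upper {F : ℂ → ℂ} (hF : Differentiable ℂ F) {C A M τ : ℝ} (hA : 0 ≤ A) (hM : 0 ≤ M)
    (hτ : 0 < τ) (hτ1 : τ ≤ 1)
    (hexp : ∀ z, ‖F z‖ ≤ C * Real.exp (A * ‖z‖)) (hb : ∀ x : ℝ, ‖F x‖ ≤ M)
    (hdisc : ∀ N : ℝ, ∃ a : ℝ, N ≤ |a| ∧ ∀ z : ℂ, ‖z - a‖ ≤ τ * |a| → ‖F z‖ ≤ M) :
    ∀ z : ℂ, 0 ≤ z.im → ‖F z‖ ≤ M := by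
  have hθ0 : 0 ≤ 1 - τ ^ 2 / 32 := by nlinarith
  have hθ1 : 1 - τ ^ 2 / 32 < 1 := by
    have : 0 < τ ^ 2 := by positivity
    linarith
  have hiter : ∀ n : ℕ, ∀ z : ℂ, 0 ≤ z.im →
      ‖F z‖ ≤ M * Real.exp (A * (1 - τ ^ 2 / 32) ^ n * z.im) := by
    intro n
    induction n with
    | zero => simpa using pl0 hF hA hexp hb
    | succ n ih =>
      have := pl1 hF (mul_nonneg hA (pow_nonneg hθ0 n)) hM hτ hτ1 ih hdisc
      intro z hz
      rw [pow_succ, ← mul_assoc]
      exact this z hz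
  intro z hz
  have hlim : Tendsto (fun n : ℕ => M * Real.exp (A * (1 - τ ^ 2 / 32) ^ n * z.im))
      atTop (𝓝 (M * Real.exp (A * 0 * z.im))) := by
    refine ((Real.continuous_exp.tendsto _).comp (Tendsto.mul_const _ (Tendsto.const_mul _ ?_))).const_mul M
    exact tendsto_pow_atTop_nhds_zero_of_lt_one hθ0 hθ1
  simp only [mul_zero, zero_mul, Real.exp_zero, mul_one] at hlim
  exact ge_of_tendsto' hlim fun n => hiter n z hz

/-- **Phragmen-Lindelof with discs.** -/
theorem pl_main {F : ℂ → ℂ} (hF : Differentiable ℂ F) {C A M τ : ℝ} (hM : 0 ≤ M)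
    (hτ : 0 < τ) (hτ1 : τ ≤ 1)
    (hexp : ∀ z, ‖F z‖ ≤ C * Real.exp (A * ‖z‖)) (hb : ∀ x : ℝ, ‖F x‖ ≤ M)
    (hdisc : ∀ N : ℝ, ∃ a : ℝ, N ≤ |a| ∧ ∀ z : ℂ, ‖z - a‖ ≤ τ * |a| → ‖F z‖ ≤ M) :
    ∀ z : ℂ, ‖F z‖ ≤ M := by
  have hC : 0 ≤ C := by
    have := (norm_nonneg _).trans (hexp 0)
    simpa using this
  have hexp' : ∀ z, ‖F z‖ ≤ C * Real.exp (|A| * ‖z‖) := by
    intro z
    refine (hexp z).trans ?_
    gcongr
    exact le_abs_self A
  intro z
  rcases le_total 0 z.im with hz | hz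
  · exact pl_upper hF (abs_nonneg A) hM hτ hτ1 hexp' hb hdisc z hz
  · have h1 := pl_upper (F := fun w => F (-w)) (by fun_prop) (C := C) (abs_nonneg A) hM hτ hτ1
      (fun w => by simpa using hexp' (-w)) (fun x => by simpa using hb (-x)) ?_ (-z) (by simpa using hz)
    · simpa using h1
    · intro N
      obtain ⟨a, ha, hD⟩ := hdisc N
      refine ⟨-a, by simpa using ha, fun w hw => hD _ ?_⟩
      have : -w - (a : ℂ) = -(w - ((-a : ℝ) : ℂ)) := by push_cast; ring
      rw [this, norm_neg]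
      simpa using hw

end H88NS
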