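import Pool.Agent.H88NS.Anal
import Pool.Agent.H88NS.PL

/-! The complex bound near a ball with bounded local Reynolds number. -/

open MeasureTheory Set Filter Metric Topology
open scoped ContDiff Nat

namespace H88NS

theorem iteratedDeriv_real {F : ℂ → ℂ} (hF : Differentiable ℂ F) {f : ℝ → ℝ}
    (hf : ContDiff ℝ ∞ f) (hFf : ∀ t : ℝ, F t = (f t : ℂ)) (n : ℕ) :
    ∀ t : ℝ, iteratedDeriv n F (t : ℂ) = ((iteratedDeriv n f t : ℝ) : ℂ) := by
  induction n with
  | zero => simpa using hFf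
  | succ n ih =>
    intro t
    rw [iteratedDeriv_succ, iteratedDeriv_succ]
    have h1 : Differentiable ℂ (iteratedDeriv n F) :=
      (hF.contDiff (n := ⊤)).differentiable_iteratedDeriv n (by exact_mod_cast WithTop.coe_lt_top _)
    have h2 : Differentiable ℝ (iteratedDeriv n f) :=
      hf.differentiable_iteratedDeriv n (by exact_mod_cast WithTop.coe_lt_top _)
    have h3 : HasDerivAt (fun y : ℝ => iteratedDeriv n F (y : ℂ)) (deriv (iteratedDeriv n F) t) t :=
      (h1 (t : ℂ)).hasDerivAt.comp_ofReal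
    have h4 : HasDerivAt (fun y : ℝ => ((iteratedDeriv n f y : ℝ) : ℂ))
        ((deriv (iteratedDeriv n f) t : ℝ) : ℂ) t :=
      (h2 t).hasDerivAt.ofReal_comp
    have h5 : (fun y : ℝ => iteratedDeriv n F (y : ℂ)) =
        fun y : ℝ => ((iteratedDeriv n f y : ℝ) : ℂ) := funext ih
    rw [h5] at h3
    exact h3.unique h4

/-- If the Taylor coefficients at a real point are bounded geometrically, the entire function is
bounded on a disc. -/
theorem disc_bound {F : ℂ → ℂ} (hF : Differentiable ℂ F) {f : ℝ → ℝ}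
    (hf : ContDiff ℝ ∞ f) (hFf : ∀ t : ℝ, F t = (f t : ℂ)) {a m B : ℝ} (hB : 0 < B)
    (hb : ∀ n : ℕ, |iteratedDeriv n f a| ≤ n ! * m * B ^ n) {z : ℂ} (hz : ‖z - a‖ ≤ 1 / (2 * B)) :
    ‖F z‖ ≤ 2 * m := by
  have hm : 0 ≤ m := by
    have := (abs_nonneg _).trans (hb 0)
    simpa using this
  have h1 := Complex.hasSum_taylorSeries_of_entire hF (a : ℂ) z
  have h2 : HasSum (fun n : ℕ => m * (1 / 2 : ℝ) ^ n) (m * 2) := hasSum_geometric_two.mul_left m
  rw [← h1.tsum_eq]
  refine (tsum_of_norm_bounded h2 fun n => ?_).trans (le_of_eq (by ring))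
  rw [iteratedDeriv_real hF hf hFf n a, norm_smul, norm_smul, norm_inv, norm_pow,
    Complex.norm_real, Real.norm_eq_abs]
  have h3 : ‖((n ! : ℕ) : ℂ)‖ = (n ! : ℝ) := by simp
  rw [h3]
  have hfac : (0 : ℝ) < n ! := by exact_mod_cast Nat.factorial_pos n
  calc (n ! : ℝ)⁻¹ * (‖z - a‖ ^ n * |iteratedDeriv n f a|)
      ≤ (n ! : ℝ)⁻¹ * ((1 / (2 * B)) ^ n * (n ! * m * B ^ n)) := by
        gcongr
        exact hb n
    _ = m * ((1 / (2 * B)) * B) ^ n := by
        rw [mul_pow]
        field_simp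
    _ = m * (1 / 2) ^ n := by
        congr 2
        field_simp

end H88NS
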