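import Pool.Agent.H88NS.Discs
import Pool.Agent.H88NS.EpsReg
import Pool.Agent.H88NS.Local

/-! Assembly. -/

open MeasureTheory Set Filter Metric Topology
open scoped ContDiff Nat

namespace H88NS

/-- complexification of a real vector -/
noncomputable def cx (x : E) : EuclideanSpace ℂ (Fin 3) := WithLp.toLp 2 fun j => (x j : ℂ)

theorem cx_line (x e : E) (t : ℝ) : cx (x + t • e) = cx x + (t : ℂ) • cx e := by
  ext j
  simp [cx]

theorem cx_contDiff : ContDiff ℝ ∞ cx := by
  unfold cx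
  rw [contDiff_piLp]
  intro i
  exact Complex.ofRealCLM.contDiff.comp (coord_contDiff i)

/-- smoothness of the real field -/
theorem smooth_of_ext {v : E → E} {V : EuclideanSpace ℂ (Fin 3) → EuclideanSpace ℂ (Fin 3)}
    (hV : AnalyticOnNhd ℂ V univ) (hVv : ∀ x i, V (cx x) i = (v x i : ℂ)) (i : Fin 3) :
    ContDiff ℝ ∞ (fun y => v y i) := by
  have h1 : ContDiff ℝ ∞ V := (hV.contDiff (n := ∞)).restrict_scalars ℝ
  have h2 : ContDiff ℝ ∞ (fun y => V (cx y)) := h1.comp cx_contDiff
  have h3 : ContDiff ℝ ∞ (fun y => V (cx y) i) := by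
    have h4 := contDiff_piLp (p := 2) |>.mp h2
    exact h4 i
  have h4 : ContDiff ℝ ∞ (fun y => (V (cx y) i).re) := Complex.reCLM.contDiff.comp h3
  have h5 : (fun y => (V (cx y) i).re) = fun y => v y i := by
    funext y
    rw [hVv]
    simp
  rwa [h5] at h4

/-- a differentiable function all of whose partial derivatives are smooth is smooth -/
theorem smooth_of_partials {p : E → ℝ} (hp : Differentiable ℝ p)
    (h : ∀ k, ContDiff ℝ ∞ (D (bb k) p)) : ContDiff ℝ ∞ p := by
  rw [contDiff_infty_iff_fderiv]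
  refine ⟨hp, ?_⟩
  rw [contDiff_clm_apply_iff]
  intro w
  have h1 : (fun x => fderiv ℝ p x w) = fun x => ∑ j, w j * D (bb j) p x := by
    funext x
    exact fderiv_eq_sum p x w
  rw [h1]
  exact ContDiff.sum fun j _ => contDiff_const.mul (h j)

/-- from Navier-Stokes to the Stokes structure -/
theorem stokes_of_ns {ν : ℝ} {v : Fin 3 → E → ℝ} {p : E → ℝ} (hv : ∀ i, ContDiff ℝ ∞ (v i))
    (hp : Differentiable ℝ p) (hdiv : ∀ x, ∑ j, D (bb j) (v j) x = 0)
    (hns : ∀ x i, -ν * ∑ j, D (bb j) (D (bb j) (v i)) x + ∑ j, v j x * D (bb j) (v i) x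
      + D (bb i) p x = 0) :
    Stokes ν v (fun j k y => v j y * v k y) p := by
  have hpk : ∀ k, D (bb k) p = fun x => ν * lap (v k) x - ∑ j, v j x * D (bb j) (v k) x := by
    intro k
    funext x
    have := hns x k
    unfold lap
    linarith
  have hps : ContDiff ℝ ∞ p := by
    refine smooth_of_partials hp fun k => ?_
    rw [hpk]
    exact (contDiff_const.mul (lap_smooth (hv k))).sub
      (ContDiff.sum fun j _ => (hv j).mul (D_smooth (hv k) _))
  refine ⟨hv, fun j k => (hv j).mul (hv k), hps, hdiv, ?_⟩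
  intro k x
  have h1 : ∀ j, D (bb j) (fun y => v j y * v k y) x =
      v j x * D (bb j) (v k) x + D (bb j) (v j) x * v k x := by
    intro j
    rw [D_mul ((hv j).of_le one_le_infty) ((hv k).of_le one_le_infty)]
  simp only [h1]
  rw [Finset.sum_add_distrib, ← Finset.sum_mul, hdiv, zero_mul, add_zero]
  have := congrFun (hpk k) x
  rw [this]
  ring

/-- The complex bound at a point with small `L³` norm on a ball. -/
theorem complex_bound : ∃ ε : ℝ, 0 < ε ∧ ∀ (ν : ℝ), 0 < ν → ∀ e : E, ∃ H : ℝ, 0 < H ∧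
    ∀ (v : E → E) (p : E → ℝ) (V : EuclideanSpace ℂ (Fin 3) → EuclideanSpace ℂ (Fin 3)),
    Stokes ν (fun i y => v y i) (fun j k y => v y j * v y k) p →
    AnalyticOnNhd ℂ V univ → (∀ x i, V (cx x) i = (v x i : ℂ)) →
    ∀ (y : E) (ρ : ℝ), 0 < ρ → (∫ z in closedBall y ρ, ‖v z‖ ^ 3 ≤ (ε * ν) ^ 3) →
    ∀ (x1 : E) (t : ℝ), y = x1 + t • e → ∀ i (ζ : ℂ), ‖ζ - t‖ ≤ ρ / (4 * H) →
      ‖V (cx x1 + ζ • cx e) i‖ ≤ 4 * ν / ρ := by
  obtain ⟨ε, hε, heps⟩ := eps_reg
  refine ⟨ε, hε, ?_⟩
  intro ν hν e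
  obtain ⟨H, hH, hder⟩ := deriv_bounds e (K := ν) hν hν.le
  refine ⟨H, hH, ?_⟩
  intro v p V hS hV hVv y ρ hρ hcube x1 t hy i ζ hζ
  have hvi : ∀ i, ContDiff ℝ ∞ (fun y => v y i) := fun i => hS.hu i
  have hvc : Continuous v := by
    have h1 : Continuous (fun y => WithLp.toLp 2 (fun i => v y i)) :=
      (PiLp.continuous_toLp 2 _).comp (continuous_pi fun i => (hvi i).continuous)
    exact h1
  -- pointwise bound on the half ball
  have hb1 : ∀ x ∈ closedBall y ρ, ∀ i, |v x i| * (ρ - dist x y) ≤ ν := by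
    refine heps ν (fun i y => v y i) p hν hS y ρ hρ fun i => ?_
    refine le_trans ?_ hcube
    refine setIntegral_mono ?_ ?_ fun z => ?_
    · exact ((hvi i).continuous.abs.pow 3).continuousOn.integrableOn_compact
        (isCompact_closedBall _ _)
    · exact (hvc.norm.pow 3).continuousOn.integrableOn_compact (isCompact_closedBall _ _)
    · have h2 : |v z i| ≤ ‖v z‖ := by
        have := PiLp.norm_apply_le (v z) i
        rwa [Real.norm_eq_abs] at this
      simp only
      gcongr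
  have hb2 : ∀ x ∈ closedBall y (ρ / 2), ∀ i, |v x i| ≤ 2 * ν / ρ := by
    intro x hx i
    rw [mem_closedBall] at hx
    have h1 := hb1 x (by rw [mem_closedBall]; linarith) i
    rw [le_div_iff₀ hρ]
    have h2 : |v x i| * (ρ / 2) ≤ ν := by
      refine le_trans ?_ h1
      gcongr
      linarith
    linarith
  have hb3 := hder (fun i y => v y i) p hS y (ρ / 2) (2 * ν / ρ) (by positivity) (by positivity)
    (le_of_eq (by field_simp)) hb2
  -- the line
  set F : ℂ → ℂ := fun ζ => V (cx x1 + ζ • cx e) i with hF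
  have hVd : Differentiable ℂ V := fun z => (hV z (mem_univ z)).differentiableAt
  have hFd : Differentiable ℂ F := by
    have h1 : Differentiable ℂ (fun ζ : ℂ => V (cx x1 + ζ • cx e)) := hVd.comp (by fun_prop)
    have h2 : Differentiable ℂ (fun z : EuclideanSpace ℂ (Fin 3) => z i) :=
      (EuclideanSpace.proj (𝕜 := ℂ) i).differentiable
    exact h2.comp h1
  set f : ℝ → ℝ := fun τ => v (x1 + τ • e) i with hf
  have hfs : ContDiff ℝ ∞ f := (hvi i).comp (by fun_prop)
  have hFf : ∀ τ : ℝ, F τ = (f τ : ℂ) := by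
    intro τ
    simp only [hF, hf]
    rw [← cx_line, hVv]
  have hcoef : ∀ n : ℕ, |iteratedDeriv n f t| ≤ n ! * (2 * ν / ρ) * (2 * H / ρ) ^ n := by
    intro n
    have h1 := hb3 n y (mem_closedBall_self (by positivity)) i
    rw [dist_self, sub_zero] at h1
    have h2 : iteratedDeriv n f t = (D e)^[n] (fun y => v y i) y := by
      have h3 := congrFun (iteratedDeriv_line (hvi i) x1 e n) t
      rw [hy]
      exact h3
    rw [h2]
    have h4 : (2 * H / ρ) ^ n = H ^ n / (ρ / 2) ^ n := by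
      rw [← div_pow]; congr 1; field_simp
    rw [h4, ← mul_div_assoc, le_div_iff₀ (by positivity)]
    exact h1
  have h5 := disc_bound hFd hfs hFf (B := 2 * H / ρ) (by positivity) hcoef (z := ζ)
    (hζ.trans (le_of_eq (by field_simp; norm_num)))
  calc ‖V (cx x1 + ζ • cx e) i‖ = ‖F ζ‖ := rfl
    _ ≤ 2 * (2 * ν / ρ) := h5
    _ = 4 * ν / ρ := by ring

end H88NS
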