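import Mathlib

/-! Directional derivatives of scalar functions on `ℝ³`, integration by parts, dilations. -/

open MeasureTheory Set Filter Metric Topology
open scoped ContDiff

namespace H88NS

/-- Euclidean three space -/
abbrev E := EuclideanSpace ℝ (Fin 3)

/-- derivative of a scalar function in the direction `w` -/
noncomputable def D (w : E) (f : E → ℝ) : E → ℝ := fun x => fderiv ℝ f x w

/-- coordinate vectors -/
noncomputable def bb (j : Fin 3) : E := EuclideanSpace.single j (1 : ℝ)

/-- Laplacian of a scalar function -/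
noncomputable def lap (f : E → ℝ) : E → ℝ := fun x => ∑ j, D (bb j) (D (bb j) f) x

theorem D_contDiff {m n : WithTop ℕ∞} {f : E → ℝ} (hf : ContDiff ℝ n f) (hmn : m + 1 ≤ n)
    (w : E) : ContDiff ℝ m (D w f) := by
  unfold D
  exact (hf.fderiv_right hmn).clm_apply contDiff_const

theorem D_smooth {f : E → ℝ} (hf : ContDiff ℝ ∞ f) (w : E) : ContDiff ℝ ∞ (D w f) :=
  D_contDiff hf (by norm_cast) w

theorem lap_contDiff {m n : WithTop ℕ∞} {f : E → ℝ} (hf : ContDiff ℝ n f) (hmn : m + 1 + 1 ≤ n) :
    ContDiff ℝ m (lap f) := by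
  unfold lap
  refine ContDiff.sum fun j _ => D_contDiff (D_contDiff (m := m + 1) hf hmn _) le_rfl _

theorem lap_smooth {f : E → ℝ} (hf : ContDiff ℝ ∞ f) : ContDiff ℝ ∞ (lap f) := by
  unfold lap
  exact ContDiff.sum fun j _ => D_smooth (D_smooth hf _) _

theorem D_comm {f : E → ℝ} (hf : ContDiff ℝ 2 f) (a b : E) : D a (D b f) = D b (D a f) := by
  funext x
  have h1 : ∀ v w : E, D v (D w f) x = fderiv ℝ (fderiv ℝ f) x v w := by
    intro v w
    unfold D
    have hd : DifferentiableAt ℝ (fderiv ℝ f) x :=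
      ((hf.fderiv_right (m := 1) (by norm_num)).differentiable (by norm_num)) x
    have h2 : HasFDerivAt (fun y => fderiv ℝ f y w)
        ((ContinuousLinearMap.apply ℝ ℝ w).comp (fderiv ℝ (fderiv ℝ f) x)) x :=
      (ContinuousLinearMap.apply ℝ ℝ w).hasFDerivAt.comp x hd.hasFDerivAt
    rw [h2.fderiv]
    simp
  rw [h1, h1]
  have h3 : IsSymmSndFDerivAt ℝ f x :=
    hf.contDiffAt.isSymmSndFDerivAt (by simp)
  exact h3 a b

theorem D_sum {ι : Type*} (s : Finset ι) {f : ι → E → ℝ} (hf : ∀ i ∈ s, ContDiff ℝ 1 (f i))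
    (w : E) : D w (fun x => ∑ i ∈ s, f i x) = fun x => ∑ i ∈ s, D w (f i) x := by
  funext x
  unfold D
  rw [fderiv_fun_sum (fun i hi => ((hf i hi).differentiable (by norm_num)) x)]
  simp

theorem D_add {f g : E → ℝ} (hf : ContDiff ℝ 1 f) (hg : ContDiff ℝ 1 g) (w : E) :
    D w (fun x => f x + g x) = fun x => D w f x + D w g x := by
  funext x
  unfold D
  rw [fderiv_fun_add ((hf.differentiable (by norm_num)) x) ((hg.differentiable (by norm_num)) x)]
  simp

theorem D_sub {f g : E → ℝ} (hf : ContDiff ℝ 1 f) (hg : ContDiff ℝ 1 g) (w : E) :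
    D w (fun x => f x - g x) = fun x => D w f x - D w g x := by
  funext x
  unfold D
  rw [fderiv_fun_sub ((hf.differentiable (by norm_num)) x) ((hg.differentiable (by norm_num)) x)]
  simp

theorem D_mul {f g : E → ℝ} (hf : ContDiff ℝ 1 f) (hg : ContDiff ℝ 1 g) (w : E) :
    D w (fun x => f x * g x) = fun x => f x * D w g x + D w f x * g x := by
  funext x
  unfold D
  rw [fderiv_fun_mul ((hf.differentiable (by norm_num)) x) ((hg.differentiable (by norm_num)) x)]
  simp
  ring

theorem D_const_mul {f : E → ℝ} (hf : ContDiff ℝ 1 f) (c : ℝ) (w : E) :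
    D w (fun x => c * f x) = fun x => c * D w f x := by
  funext x
  unfold D
  rw [fderiv_const_mul ((hf.differentiable (by norm_num)) x)]
  simp

/-- the dilation `s ↦ f (x + t s)` -/
theorem D_dil {f : E → ℝ} (hf : ContDiff ℝ 1 f) (x : E) (t : ℝ) (w : E) :
    D w (fun s => f (x + t • s)) = fun s => t * D w f (x + t • s) := by
  funext s
  unfold D
  have h1 : HasFDerivAt (fun s : E => x + t • s) (t • ContinuousLinearMap.id ℝ E) s :=
    ((hasFDerivAt_id s).const_smul t).const_add x
  have h2 : HasFDerivAt f (fderiv ℝ f (x + t • s)) (x + t • s) :=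
    ((hf.differentiable (by norm_num)) _).hasFDerivAt
  have h3 := h2.comp s h1
  have h4 : HasFDerivAt (fun s => f (x + t • s))
      ((fderiv ℝ f (x + t • s)).comp (t • ContinuousLinearMap.id ℝ E)) s := h3
  rw [h4.fderiv]
  simp

theorem dil_contDiff {n : WithTop ℕ∞} {f : E → ℝ} (hf : ContDiff ℝ n f) (x : E) (t : ℝ) :
    ContDiff ℝ n (fun s => f (x + t • s)) := by
  exact hf.comp (by fun_prop)

theorem D_compact {f : E → ℝ} (hf : HasCompactSupport f) (w : E) : HasCompactSupport (D w f) :=
  hf.fderiv_apply ℝ w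

/-- integration by parts -/
theorem ibp {φ F : E → ℝ} (hφ : ContDiff ℝ 1 φ) (hc : HasCompactSupport φ) (hF : ContDiff ℝ 1 F)
    (w : E) : ∫ s, φ s * D w F s = - ∫ s, D w φ s * F s := by
  unfold D
  refine integral_mul_fderiv_eq_neg_fderiv_mul_of_integrable ?_ ?_ ?_
    (fun x _ => (hφ.differentiable (by norm_num)) x) (fun x _ => (hF.differentiable (by norm_num)) x)
  · have h1 : Continuous (fun x => fderiv ℝ φ x w) := (D_contDiff (m := 0) hφ (by norm_num) w).continuous
    exact (h1.mul hF.continuous).integrable_of_hasCompactSupport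
      ((hc.fderiv_apply ℝ w).mul_right)
  · have h1 : Continuous (fun x => fderiv ℝ F x w) := (D_contDiff (m := 0) hF (by norm_num) w).continuous
    exact (hφ.continuous.mul h1).integrable_of_hasCompactSupport hc.mul_right
  · exact (hφ.continuous.mul hF.continuous).integrable_of_hasCompactSupport hc.mul_right

theorem ibp_dil {φ F : E → ℝ} (hφ : ContDiff ℝ 1 φ) (hc : HasCompactSupport φ)
    (hF : ContDiff ℝ 1 F) (x : E) (t : ℝ) (w : E) :
    t * ∫ s, φ s * D w F (x + t • s) = - ∫ s, D w φ s * F (x + t • s) := by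
  have h := ibp hφ hc (dil_contDiff hF x t) w
  rw [D_dil hF] at h
  rw [← h, ← integral_const_mul]
  congr 1
  funext s
  ring

theorem vec_sum (s : E) : s = ∑ j, s j • bb j := by
  ext i
  simp [bb, Finset.sum_apply, Pi.single_apply]

theorem fderiv_eq_sum (f : E → ℝ) (x s : E) : fderiv ℝ f x s = ∑ j, s j * D (bb j) f x := by
  conv_lhs => rw [vec_sum s]
  simp [D]

/-- differentiation of the dilated average -/
theorem hasDerivAt_J {k f : E → ℝ} (hk : Continuous k) (hkc : HasCompactSupport k)
    (hf : ContDiff ℝ 1 f) (x : E) (t : ℝ) :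
    HasDerivAt (fun t : ℝ => ∫ s, k s * f (x + t • s))
      (∫ s, k s * fderiv ℝ f (x + t • s) s) t := by
  have hfc : Continuous (fun p : ℝ × E => fderiv ℝ f (x + p.1 • p.2) p.2) := by
    have h1 : Continuous (fderiv ℝ f) := hf.continuous_fderiv (by norm_num)
    have h2 : Continuous (fun p : ℝ × E => fderiv ℝ f (x + p.1 • p.2)) := h1.comp (by fun_prop)
    exact h2.clm_apply continuous_snd
  obtain ⟨C, hC⟩ := ((isCompact_closedBall t 1).prod hkc.isCompact).exists_bound_of_continuousOn
    hfc.continuousOn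
  have hC0 : ∀ τ ∈ ball t 1, ∀ s, ‖k s * fderiv ℝ f (x + τ • s) s‖ ≤ ‖k s‖ * C := by
    intro τ hτ s
    by_cases hs : s ∈ tsupport k
    · rw [norm_mul]
      gcongr
      exact hC (τ, s) ⟨ball_subset_closedBall hτ, hs⟩
    · rw [image_eq_zero_of_notMem_tsupport hs]
      simp
  have hdil : ∀ τ : ℝ, Continuous (fun s : E => f (x + τ • s)) := fun τ =>
    (dil_contDiff (n := 1) hf x τ).continuous
  refine (hasDerivAt_integral_of_dominated_loc_of_deriv_le (μ := volume) (s := ball t 1)
    (F := fun τ s => k s * f (x + τ • s)) (F' := fun τ s => k s * fderiv ℝ f (x + τ • s) s)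
    (bound := fun s => ‖k s‖ * C) (ball_mem_nhds t one_pos) ?_ ?_ ?_ ?_ ?_ ?_).2
  · exact Eventually.of_forall fun τ => (hk.mul (hdil τ)).aestronglyMeasurable
  · exact (hk.mul (hdil t)).integrable_of_hasCompactSupport hkc.mul_right
  · have : Continuous (fun s => fderiv ℝ f (x + t • s) s) :=
      hfc.comp (by fun_prop : Continuous fun s : E => (t, s))
    exact (hk.mul this).aestronglyMeasurable
  · exact Eventually.of_forall fun s τ hτ => hC0 τ hτ s
  · exact (hk.norm.integrable_of_hasCompactSupport hkc.norm).mul_const C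
  · refine Eventually.of_forall fun s τ hτ => ?_
    have h1 : HasDerivAt (fun τ : ℝ => x + τ • s) s τ := by
      have := ((hasDerivAt_id τ).smul_const s).const_add x
      simpa using this
    have h2 : HasFDerivAt f (fderiv ℝ f (x + τ • s)) (x + τ • s) :=
      ((hf.differentiable (by norm_num)) _).hasFDerivAt
    exact (h2.comp_hasDerivAt τ h1).const_mul (k s)

end H88NS
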