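import Pool.Agent.H88NS.Stokes

/-! The explicit bump `χ(s) = (1 - |s|²)₊⁵` and the kernel `k` with `k(s) s = ½ ∇Δχ(s)`. -/

open MeasureTheory Set Filter Metric Topology
open scoped ContDiff

namespace H88NS

/-- `(1-u)₊ⁿ` -/
noncomputable def q (n : ℕ) (u : ℝ) : ℝ := (max (1 - u) 0) ^ n

theorem q_zero {n : ℕ} (hn : n ≠ 0) {u : ℝ} (hu : 1 ≤ u) : q n u = 0 := by
  unfold q
  rw [max_eq_right (by linarith), zero_pow hn]

theorem q_eq {n : ℕ} {u : ℝ} (hu : u ≤ 1) : q n u = (1 - u) ^ n := by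
  unfold q
  rw [max_eq_left (by linarith)]

theorem q_cont (n : ℕ) : Continuous (q n) := by
  unfold q
  fun_prop

theorem q_deriv (n : ℕ) (u : ℝ) : HasDerivAt (q (n + 2)) (-(n + 2 : ℝ) * q (n + 1) u) u := by
  rcases lt_trichotomy u 1 with hu | hu | hu
  · have h1 : HasDerivAt (fun u : ℝ => (1 - u) ^ (n + 2)) (-(n + 2 : ℝ) * (1 - u) ^ (n + 1)) u := by
      have h0 : HasDerivAt (fun u : ℝ => (1 - u) ^ (n + 2))
          (((n + 2 : ℕ) : ℝ) * (1 - u) ^ (n + 2 - 1) * (-1)) u :=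
        ((hasDerivAt_id' u).const_sub 1).fun_pow (n + 2)
      convert h0 using 1
      have : n + 2 - 1 = n + 1 := rfl
      rw [this]
      push_cast
      ring
    rw [q_eq hu.le]
    refine h1.congr_of_eventuallyEq ?_
    filter_upwards [Iio_mem_nhds hu] with y hy
    exact q_eq (le_of_lt hy)
  · subst hu
    rw [q_zero (by omega) le_rfl, mul_zero, hasDerivAt_iff_isLittleO_nhds_zero]
    simp only [smul_zero, sub_zero]
    rw [q_zero (by omega) le_rfl]
    simp only [sub_zero]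
    have h1 : (fun h : ℝ => q (n + 2) (1 + h)) =O[𝓝 0] fun h : ℝ => h ^ (n + 2) := by
      refine Asymptotics.IsBigO.of_bound 1 (Eventually.of_forall fun h => ?_)
      unfold q
      rw [one_mul, norm_pow, norm_pow]
      gcongr
      rw [Real.norm_eq_abs, Real.norm_eq_abs, abs_of_nonneg (le_max_right _ _)]
      refine max_le ?_ (abs_nonneg h)
      have := neg_abs_le h
      linarith
    refine h1.trans_isLittleO ?_
    have h2 := Asymptotics.isLittleO_pow_id (𝕜 := ℝ) (n := n + 2) (by omega)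
    exact h2
  · rw [q_zero (by omega) hu.le, mul_zero]
    refine (hasDerivAt_const u (0 : ℝ)).congr_of_eventuallyEq ?_
    filter_upwards [Ioi_mem_nhds hu] with y hy
    exact q_zero (by omega) (le_of_lt hy)

theorem q_contDiff (n : ℕ) : ContDiff ℝ n (q (n + 1)) := by
  induction n with
  | zero => exact contDiff_zero.mpr (q_cont _)
  | succ n ih =>
    push_cast
    rw [contDiff_succ_iff_deriv]
    refine ⟨fun u => (q_deriv n u).differentiableAt, by simp, ?_⟩
    have : deriv (q (n + 1 + 1)) = fun u => -(n + 2 : ℝ) * q (n + 1) u := by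
      funext u
      exact (q_deriv n u).deriv
    rw [this]
    exact contDiff_const.mul ih

/-- radial functions -/
theorem D_radial {F F' : ℝ → ℝ} (hF : ∀ u, HasDerivAt F (F' u) u) (w : E) :
    D w (fun s => F (‖s‖ ^ 2)) = fun s => F' (‖s‖ ^ 2) * (2 * inner ℝ s w) := by
  funext s
  unfold D
  have h1 : HasFDerivAt (fun s : E => ‖s‖ ^ 2) (2 • (innerSL ℝ s)) s :=
    (hasStrictFDerivAt_norm_sq s).hasFDerivAt
  have h2 := (hF (‖s‖ ^ 2)).hasFDerivAt.comp s h1
  have h3 : HasFDerivAt (fun s : E => F (‖s‖ ^ 2)) _ s := h2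
  rw [h3.fderiv]
  simp
  ring

theorem inner_bb (s : E) (j : Fin 3) : inner ℝ s (bb j) = s j := by
  unfold bb
  rw [EuclideanSpace.inner_single_right]
  simp

theorem bb_apply (i j : Fin 3) : (bb j : E) i = if i = j then 1 else 0 := by
  simp [bb]

theorem D_coord (i : Fin 3) (w : E) : D w (fun s : E => s i) = fun _ => w i := by
  funext s
  unfold D
  have h1 : HasFDerivAt (fun s : E => s i) (EuclideanSpace.proj (𝕜 := ℝ) i) s :=
    (EuclideanSpace.proj (𝕜 := ℝ) i).hasFDerivAt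
  rw [h1.fderiv]
  rfl

theorem coord_contDiff {n : WithTop ℕ∞} (i : Fin 3) : ContDiff ℝ n (fun s : E => s i) :=
  (EuclideanSpace.proj (𝕜 := ℝ) i).contDiff

/-- the bump -/
noncomputable def chi : E → ℝ := fun s => q 5 (‖s‖ ^ 2)

theorem norm_sq_contDiff {n : WithTop ℕ∞} : ContDiff ℝ n (fun s : E => ‖s‖ ^ 2) :=
  contDiff_norm_sq ℝ

theorem chi_contDiff : ContDiff ℝ 4 chi := by
  have := q_contDiff 4
  exact (by exact_mod_cast this : ContDiff ℝ 4 (q 5)).comp norm_sq_contDiff

theorem chi_compact : HasCompactSupport chi := by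
  refine HasCompactSupport.intro (isCompact_closedBall (0 : E) 1) fun s hs => ?_
  rw [mem_closedBall_zero_iff, not_le] at hs
  exact q_zero (by norm_num) (by nlinarith [norm_nonneg s])

/-- the kernel -/
noncomputable def kk : E → ℝ := fun s => 200 * q 3 (‖s‖ ^ 2) - 240 * ‖s‖ ^ 2 * q 2 (‖s‖ ^ 2)

theorem kk_contDiff : ContDiff ℝ 1 kk := by
  have h2 : ContDiff ℝ 1 (q 2) := by exact_mod_cast q_contDiff 1
  have h3 : ContDiff ℝ 1 (q 3) :=
    (by exact_mod_cast q_contDiff 2 : ContDiff ℝ 2 (q 3)).of_le (by norm_num)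
  unfold kk
  exact (contDiff_const.mul (h3.comp norm_sq_contDiff)).sub
    ((contDiff_const.mul norm_sq_contDiff).mul (h2.comp norm_sq_contDiff))

theorem kk_zero {s : E} (hs : 1 ≤ ‖s‖) : kk s = 0 := by
  have : 1 ≤ ‖s‖ ^ 2 := by nlinarith
  unfold kk
  rw [q_zero (by norm_num) this, q_zero (by norm_num) this]
  ring

theorem kk_compact : HasCompactSupport kk := by
  refine HasCompactSupport.intro (isCompact_closedBall (0 : E) 1) fun s hs => ?_
  rw [mem_closedBall_zero_iff, not_le] at hs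
  exact kk_zero hs.le

theorem lap_chi : lap chi = fun s => -30 * q 4 (‖s‖ ^ 2) + 80 * ‖s‖ ^ 2 * q 3 (‖s‖ ^ 2) := by
  have hq5 : ∀ u, HasDerivAt (q 5) (-5 * q 4 u) u := fun u => by
    convert q_deriv 3 u using 1
    norm_num
  have hq4 : ∀ u, HasDerivAt (fun u => -10 * q 4 u) (40 * q 3 u) u := fun u => by
    refine ((q_deriv 2 u).const_mul (-10)).congr_deriv ?_
    norm_num
    ring
  have h1 : ∀ w, D w chi = fun s => (-10 * q 4 (‖s‖ ^ 2)) * inner ℝ s w := by
    intro w
    unfold chi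
    rw [D_radial hq5]
    funext s
    ring
  have h4 : ContDiff ℝ 3 (q 4) := by exact_mod_cast q_contDiff 3
  have h2 : ∀ j, D (bb j) (D (bb j) chi) = fun s =>
      (-10 * q 4 (‖s‖ ^ 2)) + 80 * (s j) ^ 2 * q 3 (‖s‖ ^ 2) := by
    intro j
    rw [h1]
    simp only [inner_bb]
    rw [D_mul (f := fun s : E => -10 * q 4 (‖s‖ ^ 2)) (g := fun s : E => s j)
      (contDiff_const.mul ((h4.of_le (by norm_num)).comp norm_sq_contDiff))
      (coord_contDiff j)]
    rw [D_coord, D_radial (F := fun u => -10 * q 4 u) hq4]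
    funext s
    simp only [inner_bb, bb_apply, if_true]
    ring
  funext s
  unfold lap
  simp only [h2]
  have h3 : (s 0) ^ 2 + (s 1) ^ 2 + (s 2) ^ 2 = ‖s‖ ^ 2 := by
    rw [EuclideanSpace.norm_sq_eq, Fin.sum_univ_three]
    simp
  rw [Fin.sum_univ_three]
  linear_combination (80 * q 3 (‖s‖ ^ 2)) * h3

theorem kk_chi (s : E) (j : Fin 3) : kk s * s j = (1 / 2) * D (bb j) (lap chi) s := by
  have hF : ∀ u, HasDerivAt (fun u => -30 * q 4 u + 80 * u * q 3 u)
      (200 * q 3 u - 240 * u * q 2 u) u := by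
    intro u
    have h1 := (q_deriv 2 u).const_mul (-30)
    have h2 : HasDerivAt (fun u : ℝ => 80 * u * q 3 u) (80 * 1 * q 3 u + 80 * u *
        (-((1 : ℕ) + 2 : ℝ) * q 2 u)) u :=
      (((hasDerivAt_id' u).const_mul 80)).fun_mul (q_deriv 1 u)
    refine (h1.fun_add h2).congr_deriv ?_
    norm_num
    ring
  rw [lap_chi, D_radial (F := fun u => -30 * q 4 u + 80 * u * q 3 u) hF]
  simp only [inner_bb]
  unfold kk
  ring

theorem kk_integral : 0 < ∫ s, kk s := by
  have h1 : ∫ s, kk s = _ := integral_fun_norm_addHaar (volume : Measure E)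
    (fun y : ℝ => 200 * q 3 (y ^ 2) - 240 * y ^ 2 * q 2 (y ^ 2))
  rw [h1]
  have hdim : Module.finrank ℝ E = 3 := by simp [E]
  rw [hdim]
  have hvol : 0 < (volume : Measure E).real (ball 0 1) := by
    rw [Measure.real]
    exact ENNReal.toReal_pos (measure_ball_pos _ _ one_pos).ne' measure_ball_lt_top.ne
  have h2 : ∫ y in Ioi (0 : ℝ), y ^ (3 - 1) • (200 * q 3 (y ^ 2) - 240 * y ^ 2 * q 2 (y ^ 2)) =
      ∫ y in (0 : ℝ)..1, y ^ 2 * (200 * (1 - y ^ 2) ^ 3 - 240 * y ^ 2 * (1 - y ^ 2) ^ 2) := by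
    rw [intervalIntegral.integral_of_le zero_le_one,
      ← integral_indicator measurableSet_Ioc, ← integral_indicator measurableSet_Ioi]
    congr 1
    funext y
    by_cases hy0 : 0 < y
    · by_cases hy1 : y ≤ 1
      · rw [indicator_of_mem (show y ∈ Ioi (0 : ℝ) from hy0),
          indicator_of_mem (show y ∈ Ioc (0 : ℝ) 1 from ⟨hy0, hy1⟩)]
        have : y ^ 2 ≤ 1 := by nlinarith
        rw [q_eq this, q_eq this]
        simp
      · rw [indicator_of_mem (show y ∈ Ioi (0 : ℝ) from hy0),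
          indicator_of_notMem (fun h : y ∈ Ioc (0 : ℝ) 1 => hy1 h.2)]
        push Not at hy1
        have : 1 ≤ y ^ 2 := by nlinarith
        rw [q_zero (by norm_num) this, q_zero (by norm_num) this]
        simp
    · rw [indicator_of_notMem (show y ∉ Ioi (0 : ℝ) from hy0),
        indicator_of_notMem (fun h : y ∈ Ioc (0 : ℝ) 1 => hy0 h.1)]
  rw [h2]
  have h3 : ∫ y in (0 : ℝ)..1, y ^ 2 * (200 * (1 - y ^ 2) ^ 3 - 240 * y ^ 2 * (1 - y ^ 2) ^ 2) =
      256 / 63 := by
    have h4 : ∀ y : ℝ, y ^ 2 * (200 * (1 - y ^ 2) ^ 3 - 240 * y ^ 2 * (1 - y ^ 2) ^ 2) =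
        200 * y ^ 2 - 840 * y ^ 4 + 1080 * y ^ 6 - 440 * y ^ 8 := by
      intro y
      ring
    simp only [h4]
    have hci : ∀ {f : ℝ → ℝ}, Continuous f → IntervalIntegrable f volume 0 1 :=
      fun h => h.intervalIntegrable _ _
    rw [intervalIntegral.integral_sub (hci (by fun_prop)) (hci (by fun_prop)),
      intervalIntegral.integral_add (hci (by fun_prop)) (hci (by fun_prop)),
      intervalIntegral.integral_sub (hci (by fun_prop)) (hci (by fun_prop))]
    simp only [intervalIntegral.integral_const_mul, integral_pow]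
    norm_num
  rw [h3]
  simp only [nsmul_eq_mul, smul_eq_mul]
  positivity

end H88NS
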