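import Pool.Agent.H88NS.PLM

/-! Phragmen-Lindelof with arbitrary pairwise disjoint discs centred on the positive half line:
`∑ (h i / t i)² = ∞`. -/

open Complex Set Filter Metric Topology Asymptotics Bornology MeasureTheory

namespace H88NS

/-- the Cauchy density -/
noncomputable def cau (a b : ℝ) (x : ℝ) : ℝ := (1 + ((x - a) / b) ^ 2)⁻¹

theorem cau_nonneg (a b x : ℝ) : 0 ≤ cau a b x := by
  unfold cau; positivity

theorem cau_integrable (a : ℝ) {b : ℝ} (hb : 0 < b) : Integrable (cau a b) := by
  have h1 : Integrable fun x : ℝ => (1 + (x / b) ^ 2)⁻¹ :=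
    integrable_inv_one_add_sq.comp_div hb.ne'
  exact h1.comp_sub_right a

theorem cau_integral (a : ℝ) {b : ℝ} (hb : 0 < b) : ∫ x, cau a b x = b * Real.pi := by
  have h1 : ∫ x, cau a b x = ∫ x : ℝ, (1 + (x / b) ^ 2)⁻¹ :=
    integral_sub_right_eq_self (fun x : ℝ => (1 + (x / b) ^ 2)⁻¹) a
  rw [h1, Measure.integral_comp_div (fun x : ℝ => (1 + x ^ 2)⁻¹) b, integral_univ_inv_one_add_sq,
    abs_of_pos hb, smul_eq_mul]

/-- sums over disjoint intervals -/
theorem sep_sum {ι : Type*} (T : Finset ι) {t h : ι → ℝ}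
    (hsep : ∀ i ∈ T, ∀ j ∈ T, i ≠ j → h i + h j ≤ |t i - t j|) (a : ℝ) {b : ℝ} (hb : 0 < b) :
    ∑ i ∈ T, ∫ x in Ioo (t i - h i) (t i + h i), cau a b x ≤ b * Real.pi := by
  rw [← integral_biUnion_finset T (fun i _ => measurableSet_Ioo) ?_
    (fun i _ => (cau_integrable a hb).integrableOn), ← cau_integral a hb]
  · exact setIntegral_le_integral (cau_integrable a hb) (Eventually.of_forall (cau_nonneg a b))
  · intro i hi j hj hij
    have h1 := hsep i hi j hj hij
    rw [Function.onFun, Set.disjoint_left]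
    rintro x ⟨hx1, hx2⟩ ⟨hx3, hx4⟩
    rcases le_total (t i) (t j) with h2 | h2
    · rw [abs_of_nonpos (by linarith)] at h1; linarith
    · rw [abs_of_nonneg (by linarith)] at h1; linarith

/-- one interval -/
theorem one_int {t h a b κ : ℝ} (hh : 0 < h) (hb : 0 < b)
    (hk : ∀ x ∈ Ioo (t - h) (t + h), κ ≤ cau a b x) :
    2 * h * κ ≤ ∫ x in Ioo (t - h) (t + h), cau a b x := by
  have h1 : ∫ x in Ioo (t - h) (t + h), κ ≤ ∫ x in Ioo (t - h) (t + h), cau a b x := by
    refine setIntegral_mono_on ?_ (cau_integrable a hb).integrableOn measurableSet_Ioo hk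
    exact integrableOn_const (by simp) (by simp)
  rw [setIntegral_const, smul_eq_mul] at h1
  have h2 : (volume : Measure ℝ).real (Ioo (t - h) (t + h)) = 2 * h := by
    rw [Measure.real, Real.volume_Ioo, ENNReal.toReal_ofReal (by linarith)]
    ring
  rw [h2] at h1
  exact h1

/-- greedy selection -/
theorem greedy {ι : Type*} [DecidableEq ι] (B : Finset ι) (h : ι → ℝ) (K : ι → ι → ℝ) (C : ℝ) :
    ∃ B' ⊆ B, (∀ i ∈ B', ∑ j ∈ B'.filter (fun j => h i < h j), K i j ≤ C) ∧
      (∀ i ∈ B, i ∉ B' → C < ∑ j ∈ B'.filter (fun j => h i < h j), K i j) := by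
  induction B using Finset.induction_on_min_value h with
  | empty => exact ⟨∅, by simp, by simp, by simp⟩
  | insert a s ha hmin ih =>
    obtain ⟨B', hB's, h1, h2⟩ := ih
    have haB' : a ∉ B' := fun h => ha (hB's h)
    -- the filter does not see `a`
    have hfil : ∀ i ∈ insert a s, (insert a B').filter (fun j => h i < h j) =
        B'.filter (fun j => h i < h j) := by
      intro i hi
      rw [Finset.filter_insert, if_neg]
      rcases Finset.mem_insert.mp hi with h3 | h3
      · rw [h3]; exact lt_irrefl _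
      · exact not_lt.mpr (hmin i h3)
    by_cases hc : ∑ j ∈ B'.filter (fun j => h a < h j), K a j ≤ C
    · refine ⟨insert a B', Finset.insert_subset_insert _ hB's, ?_, ?_⟩
      · intro i hi
        have hi' : i ∈ insert a s := Finset.insert_subset_insert _ hB's hi
        rw [hfil i hi']
        rcases Finset.mem_insert.mp hi with h3 | h3
        · rw [h3]; exact hc
        · exact h1 i h3
      · intro i hi hiB
        rw [hfil i hi]
        rcases Finset.mem_insert.mp hi with h3 | h3
        · exact absurd (by rw [h3]; exact Finset.mem_insert_self _ _) hiB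
        · exact h2 i h3 fun h4 => hiB (Finset.mem_insert_of_mem h4)
    · push Not at hc
      refine ⟨B', hB's.trans (Finset.subset_insert _ _), h1, ?_⟩
      intro i hi hiB
      rcases Finset.mem_insert.mp hi with h3 | h3
      · rw [h3]; exact hc
      · exact h2 i h3 hiB

/-- pairwise disjoint discs centred on the positive half line -/
structure Sep {ι : Type*} (t h : ι → ℝ) : Prop where
  ht : ∀ i, 1 / 2 ≤ t i
  hh : ∀ i, 0 < h i
  hht : ∀ i, h i ≤ t i / 8
  hsep : ∀ i j, i ≠ j → h i + h j ≤ |t i - t j|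

/-- pairwise disjoint discs centred on the positive half line on which `F` is bounded by `M` -/
structure Discs {ι : Type*} (F : ℂ → ℂ) (M : ℝ) (t h : ι → ℝ) : Prop extends Sep t h where
  hF : ∀ i (z : ℂ), ‖z - t i‖ ≤ h i → ‖F z‖ ≤ M
  hdiv : ¬ Summable fun i => (h i / t i) ^ 2

namespace Sep

variable {ι : Type*} {t h : ι → ℝ}

theorem tpos (b : Sep t h) (i : ι) : 0 < t i := by
  have := b.ht i
  linarith

/-- near-field sum -/
theorem near (b : Sep t h) (j : ι) (T : Finset ι) (hT : ∀ i ∈ T, i ≠ j ∧ h i ≤ h j) :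
    ∑ i ∈ T, (h i) ^ 2 / (t i - t j) ^ 2 ≤ 8 := by
  have hhj := b.hh j
  have h1 : ∀ i ∈ T, (h i) ^ 2 / (t i - t j) ^ 2 ≤
      (5 / (2 * h j)) * ∫ x in Ioo (t i - h i) (t i + h i), cau (t j) (h j) x := by
    intro i hi
    obtain ⟨hij, hle⟩ := hT i hi
    have hhi := b.hh i
    have hs := b.hsep i j hij
    set d := |t i - t j| with hd
    have hd0 : 0 < d := by linarith
    have hdsq : (t i - t j) ^ 2 = d ^ 2 := (sq_abs _).symm
    have h2 := one_int (κ := (h j) ^ 2 / (5 * d ^ 2)) hhi hhj (t := t i) (a := t j) (b := h j) ?_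
    · rw [hdsq]
      have h3 : (h i) ^ 2 / d ^ 2 ≤ (5 / (2 * h j)) * (2 * h i * ((h j) ^ 2 / (5 * d ^ 2))) := by
        have h4 : (5 / (2 * h j)) * (2 * h i * ((h j) ^ 2 / (5 * d ^ 2))) = h i * h j / d ^ 2 := by
          field_simp
        rw [h4, sq (h i)]
        gcongr
      exact h3.trans (by gcongr)
    · intro x hx
      have hxj : |x - t j| ≤ 2 * d := by
        have h5 : |x - t i| ≤ h i := by
          rw [abs_le]; constructor <;> linarith [hx.1, hx.2]
        have h6 : |x - t j| ≤ |x - t i| + |t i - t j| := abs_sub_le _ _ _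
        linarith
      unfold cau
      rw [div_le_iff₀ (by positivity), inv_mul_eq_div, le_div_iff₀ (by positivity), div_pow]
      have h7 : (x - t j) ^ 2 ≤ 4 * d ^ 2 := by
        rw [← sq_abs]
        nlinarith [abs_nonneg (x - t j)]
      have h8 : h j ^ 2 ≤ d ^ 2 := by
        have : h j ≤ d := by linarith
        gcongr
      calc h j ^ 2 * (1 + (x - t j) ^ 2 / h j ^ 2) = h j ^ 2 + (x - t j) ^ 2 := by field_simp
        _ ≤ 5 * d ^ 2 := by linarith
  calc ∑ i ∈ T, (h i) ^ 2 / (t i - t j) ^ 2
      ≤ ∑ i ∈ T, (5 / (2 * h j)) * ∫ x in Ioo (t i - h i) (t i + h i), cau (t j) (h j) x :=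
        Finset.sum_le_sum h1
    _ = (5 / (2 * h j)) * ∑ i ∈ T, ∫ x in Ioo (t i - h i) (t i + h i), cau (t j) (h j) x := by
        rw [Finset.mul_sum]
    _ ≤ (5 / (2 * h j)) * (h j * Real.pi) := by
        gcongr
        exact sep_sum T (fun i _ j _ hij => b.hsep i j hij) _ hhj
    _ = 5 / 2 * Real.pi := by field_simp
    _ ≤ 8 := by
        have := Real.pi_lt_d2
        linarith

/-- the linear sum converges -/
theorem lin (b : Sep t h) : Summable fun i => h i / (t i) ^ 2 := by
  refine summable_of_sum_le (c := 12) (fun i => ?_) fun T => ?_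
  · have := b.hh i
    have := b.tpos i
    simp only [Pi.zero_apply]
    positivity
  have h1 : ∀ i ∈ T, h i / (t i) ^ 2 ≤
      3 * ∫ x in Ioo (t i - h i) (t i + h i), cau 0 1 x := by
    intro i _
    have hhi := b.hh i
    have hti := b.ht i
    have hht := b.hht i
    have h2 := one_int (κ := 1 / (6 * (t i) ^ 2)) hhi one_pos (t := t i) (a := 0) (b := 1) ?_
    · have h3 : h i / (t i) ^ 2 = 3 * (2 * h i * (1 / (6 * (t i) ^ 2))) := by
        field_simp
        norm_num
      rw [h3]
      gcongr
    · intro x hx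
      unfold cau
      rw [sub_zero, div_one, one_div]
      apply inv_anti₀ (by positivity)
      have h4 : 0 < x := by linarith [hx.1]
      have h5 : x ≤ 9 / 8 * t i := by linarith [hx.2]
      have h6 : x ^ 2 ≤ (9 / 8 * t i) ^ 2 := by gcongr
      nlinarith
  calc ∑ i ∈ T, h i / (t i) ^ 2
      ≤ ∑ i ∈ T, 3 * ∫ x in Ioo (t i - h i) (t i + h i), cau 0 1 x := Finset.sum_le_sum h1
    _ = 3 * ∑ i ∈ T, ∫ x in Ioo (t i - h i) (t i + h i), cau 0 1 x := by rw [Finset.mul_sum]
    _ ≤ 3 * (1 * Real.pi) := by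
        gcongr
        exact sep_sum T (fun i _ j _ hij => b.hsep i j hij) _ one_pos
    _ ≤ 12 := by
        have := Real.pi_lt_d2
        linarith

end Sep

namespace Discs

variable {ι : Type*} {F : ℂ → ℂ} {M : ℝ} {t h : ι → ℝ}

theorem eta_le (b : Discs F M t h) (i : ι) : (h i / t i) ^ 2 ≤ 1 / 8 := by
  have h1 : h i / t i ≤ 1 / 8 := by
    rw [div_le_div_iff₀ (b.toSep.tpos i) (by norm_num)]
    have := b.hht i
    linarith
  have h2 : 0 ≤ h i / t i := by have := b.hh i; have := b.toSep.tpos i; positivity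
  nlinarith

/-- existence of blocks -/
theorem block (b : Discs F M t h) {A Z : ℝ} (hA : 0 < A) (hZ : 0 ≤ Z) : ∃ B : Finset ι,
    (∀ i ∈ B, 200 ≤ A * h i ∧ 2 * Z ≤ t i) ∧ 1 / 2 ≤ ∑ i ∈ B, (h i / t i) ^ 2 ∧
    ∑ i ∈ B, (h i / t i) ^ 2 ≤ 1 := by
  classical
  set f : ι → ℝ := fun i => if 200 ≤ A * h i ∧ 2 * Z ≤ t i then (h i / t i) ^ 2 else 0 with hf
  have hf0 : ∀ i, 0 ≤ f i := by
    intro i
    simp only [hf]
    split_ifs
    · positivity
    · exact le_rfl
  have hf8 : ∀ i, f i ≤ 1 / 8 := by
    intro i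
    simp only [hf]
    split_ifs
    · exact b.eta_le i
    · norm_num
  have hfs : ¬ Summable f := by
    intro hs
    apply b.hdiv
    have h1 : Summable fun i => (h i / t i) ^ 2 - f i := by
      refine Summable.of_nonneg_of_le (g := fun i => (h i / t i) ^ 2 - f i)
        (f := fun i => (200 / A + Z) * (h i / (t i) ^ 2)) ?_ ?_ (b.toSep.lin.mul_left _)
      · intro i
        simp only [hf]
        split_ifs
        · simp
        · rw [sub_zero]; positivity
      · intro i
        have hti := b.toSep.tpos i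
        have hhi := b.hh i
        have hht := b.hht i
        have h5 : 0 ≤ 200 / A := by positivity
        simp only [hf]
        split_ifs with hc
        · rw [sub_self]; positivity
        · rw [sub_zero, div_pow, sq (h i), mul_div_assoc]
          rw [not_and_or, not_le, not_le] at hc
          have h6 : h i ≤ 200 / A + Z := by
            rcases hc with hc | hc
            · have h3 : h i ≤ 200 / A := by
                rw [le_div_iff₀ hA]; linarith
              linarith
            · linarith
          gcongr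
    have h2 := h1.add hs
    simpa using h2
  -- a finite set with large sum
  have hex : ∃ s : Finset ι, 1 / 2 < ∑ i ∈ s, f i := by
    by_contra hcon
    push Not at hcon
    exact hfs (summable_of_sum_le hf0 hcon)
  obtain ⟨s, hs⟩ := hex
  -- reduce it
  have hred : ∀ s : Finset ι, 1 / 2 < ∑ i ∈ s, f i →
      ∃ s' : Finset ι, 1 / 2 ≤ ∑ i ∈ s', f i ∧ ∑ i ∈ s', f i ≤ 1 := by
    intro s
    induction s using Finset.induction_on with
    | empty => intro h; norm_num at h
    | insert a s ha ih =>
      intro h1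
      by_cases h2 : 1 / 2 < ∑ i ∈ s, f i
      · exact ih h2
      · push Not at h2
        refine ⟨insert a s, h1.le, ?_⟩
        rw [Finset.sum_insert ha]
        have := hf8 a
        linarith
  obtain ⟨s', h1, h2⟩ := hred s hs
  refine ⟨s'.filter (fun i => 200 ≤ A * h i ∧ 2 * Z ≤ t i), ?_, ?_, ?_⟩
  · intro i hi
    exact (Finset.mem_filter.mp hi).2
  · rw [Finset.sum_filter]
    exact h1
  · rw [Finset.sum_filter]
    exact h2

/-- selection of a good subfamily -/
theorem select [DecidableEq ι] (b : Discs F M t h) (B : Finset ι) (hB : ∑ i ∈ B, (h i / t i) ^ 2 ≤ 1) :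
    ∃ B' ⊆ B, (∑ i ∈ B, (h i / t i) ^ 2) / 2 ≤ ∑ i ∈ B', (h i / t i) ^ 2 ∧
      ∀ i ∈ B', ∑ j ∈ B'.filter (fun j => j ≠ i), (h j) ^ 2 / (t j - t i) ^ 2 ≤ 44 := by
  obtain ⟨B', hB'B, h1, h2⟩ := greedy B h (fun i j => (h j) ^ 2 / (t j - t i) ^ 2) 36
  refine ⟨B', hB'B, ?_, ?_⟩
  · -- mass of the skipped discs
    set η : ι → ℝ := fun i => (h i / t i) ^ 2 with hη
    have hη0 : ∀ i, 0 ≤ η i := fun i => by simp only [hη]; positivity
    have h3 : ∑ i ∈ B \ B', η i ≤ ∑ j ∈ B', η j := by
      have h4 : 36 * ∑ i ∈ B \ B', η i ≤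
          ∑ i ∈ B \ B', ∑ j ∈ B'.filter (fun j => h i < h j),
            η i * ((h j) ^ 2 / (t j - t i) ^ 2) := by
        rw [Finset.mul_sum]
        refine Finset.sum_le_sum fun i hi => ?_
        rw [Finset.mem_sdiff] at hi
        have h5 := h2 i hi.1 hi.2
        rw [← Finset.mul_sum, mul_comm]
        exact mul_le_mul_of_nonneg_left h5.le (hη0 i)
      have h5 : ∑ i ∈ B \ B', ∑ j ∈ B'.filter (fun j => h i < h j),
            η i * ((h j) ^ 2 / (t j - t i) ^ 2) =
          ∑ j ∈ B', ∑ i ∈ (B \ B').filter (fun i => h i < h j),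
            η i * ((h j) ^ 2 / (t j - t i) ^ 2) := by
        simp only [Finset.sum_filter]
        rw [Finset.sum_comm]
      have h6 : ∀ j ∈ B', ∑ i ∈ (B \ B').filter (fun i => h i < h j),
            η i * ((h j) ^ 2 / (t j - t i) ^ 2) ≤ 36 * η j := by
        intro j hj
        have htj := b.toSep.tpos j
        have hhj := b.hh j
        -- termwise
        have h7 : ∀ i ∈ (B \ B').filter (fun i => h i < h j),
            η i * ((h j) ^ 2 / (t j - t i) ^ 2) ≤
              4 * η j * ((h i) ^ 2 / (t i - t j) ^ 2) + 4 * η j * η i := by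
          intro i hi
          rw [Finset.mem_filter, Finset.mem_sdiff] at hi
          have hij : i ≠ j := fun h => hi.1.2 (h ▸ hj)
          have hs := b.hsep i j hij
          have hhi := b.hh i
          have hti := b.toSep.tpos i
          have hd0 : 0 < |t i - t j| := by linarith
          have hdsq : (t i - t j) ^ 2 = |t i - t j| ^ 2 := (sq_abs _).symm
          have hdsq' : (t j - t i) ^ 2 = |t i - t j| ^ 2 := by rw [← sq_abs, abs_sub_comm]
          rw [hdsq, hdsq']
          set d := |t i - t j| with hd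
          by_cases hc : t j / 2 ≤ t i
          · have h8 : η i * ((h j) ^ 2 / d ^ 2) ≤ 4 * η j * ((h i) ^ 2 / d ^ 2) := by
              have h9 : η i * ((h j) ^ 2 / d ^ 2) =
                  (h i ^ 2 * h j ^ 2 / d ^ 2) * (1 / (t i) ^ 2) := by
                simp only [hη]; field_simp
              have h10 : 4 * η j * ((h i) ^ 2 / d ^ 2) =
                  (h i ^ 2 * h j ^ 2 / d ^ 2) * (1 / (t j / 2) ^ 2) := by
                simp only [hη]; field_simp; norm_num
              rw [h9, h10]
              gcongr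
            have h11 : 0 ≤ 4 * η j * η i := by
              have := hη0 i; have := hη0 j; positivity
            linarith
          · push Not at hc
            have h8 : t j / 2 ≤ d := by
              rw [hd, abs_sub_comm]
              have := le_abs_self (t j - t i)
              linarith
            have h9 : η i * ((h j) ^ 2 / d ^ 2) ≤ 4 * η j * η i := by
              have h10 : 4 * η j * η i = η i * ((h j) ^ 2 / (t j / 2) ^ 2) := by
                simp only [hη]; field_simp; norm_num
              rw [h10]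
              have := hη0 i
              gcongr
            have h11 : 0 ≤ 4 * η j * ((h i) ^ 2 / d ^ 2) := by
              have := hη0 j; positivity
            linarith
        have h8 := b.toSep.near j ((B \ B').filter (fun i => h i < h j)) (by
          intro i hi
          rw [Finset.mem_filter, Finset.mem_sdiff] at hi
          exact ⟨fun h => hi.1.2 (h ▸ hj), hi.2.le⟩)
        have h9 : ∑ i ∈ (B \ B').filter (fun i => h i < h j), η i ≤ 1 := by
          refine le_trans (Finset.sum_le_sum_of_subset_of_nonneg ?_ fun i _ _ => hη0 i) hB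
          exact (Finset.filter_subset _ _).trans Finset.sdiff_subset
        calc ∑ i ∈ (B \ B').filter (fun i => h i < h j), η i * ((h j) ^ 2 / (t j - t i) ^ 2)
            ≤ ∑ i ∈ (B \ B').filter (fun i => h i < h j),
              (4 * η j * ((h i) ^ 2 / (t i - t j) ^ 2) + 4 * η j * η i) :=
              Finset.sum_le_sum h7
          _ = 4 * η j * ∑ i ∈ (B \ B').filter (fun i => h i < h j), (h i) ^ 2 / (t i - t j) ^ 2 +
              4 * η j * ∑ i ∈ (B \ B').filter (fun i => h i < h j), η i := by
              rw [Finset.sum_add_distrib, ← Finset.mul_sum, ← Finset.mul_sum]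
          _ ≤ 4 * η j * 8 + 4 * η j * 1 := by
              have := hη0 j
              gcongr
          _ = 36 * η j := by ring
      have h7 : 36 * ∑ i ∈ B \ B', η i ≤ 36 * ∑ j ∈ B', η j := by
        calc 36 * ∑ i ∈ B \ B', η i ≤ _ := h4
          _ = _ := h5
          _ ≤ ∑ j ∈ B', 36 * η j := Finset.sum_le_sum h6
          _ = 36 * ∑ j ∈ B', η j := by rw [Finset.mul_sum]
      linarith
    have h4 : ∑ i ∈ B, η i = ∑ i ∈ B \ B', η i + ∑ i ∈ B', η i :=
      (Finset.sum_sdiff hB'B).symm
    linarith
  · intro i hi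
    have h3 := h1 i hi
    have h4 := b.toSep.near i ((B'.filter (fun j => j ≠ i)).filter (fun j => ¬ h i < h j)) (by
      intro j hj
      rw [Finset.mem_filter, Finset.mem_filter] at hj
      exact ⟨hj.1.2, not_lt.mp hj.2⟩)
    have h5 : ∑ j ∈ B'.filter (fun j => j ≠ i), (h j) ^ 2 / (t j - t i) ^ 2 =
        ∑ j ∈ (B'.filter (fun j => j ≠ i)).filter (fun j => h i < h j),
          (h j) ^ 2 / (t j - t i) ^ 2 +
        ∑ j ∈ (B'.filter (fun j => j ≠ i)).filter (fun j => ¬ h i < h j),
          (h j) ^ 2 / (t j - t i) ^ 2 := by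
      rw [Finset.sum_filter_add_sum_filter_not]
    have h6 : (B'.filter (fun j => j ≠ i)).filter (fun j => h i < h j) =
        B'.filter (fun j => h i < h j) := by
      ext j
      simp only [Finset.mem_filter]
      constructor
      · rintro ⟨⟨h7, -⟩, h8⟩; exact ⟨h7, h8⟩
      · rintro ⟨h7, h8⟩; exact ⟨⟨h7, fun h => by rw [h] at h8; exact lt_irrefl _ h8⟩, h8⟩
    rw [h5, h6]
    linarith

end Discs

/-- centers of the small discs -/
noncomputable def dc {ι : Type*} (t h : ι → ℝ) (i : ι) : ℂ :=
  ((t i : ℝ) : ℂ) + ((h i / 2 : ℝ) : ℂ) * I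

theorem dc_re {ι : Type*} (t h : ι → ℝ) (i : ι) : (dc t h i).re = t i := by
  simp [dc]

theorem dc_im {ι : Type*} (t h : ι → ℝ) (i : ι) : (dc t h i).im = 2 * (h i / 4) := by
  simp [dc]
  ring

theorem discs_step {ι : Type*} {F : ℂ → ℂ} (hF : Differentiable ℂ F) {A M : ℝ} {t h : ι → ℝ}
    (hA : 0 < A) (hM : 0 ≤ M) (b : Discs F M t h)
    (hup : ∀ z : ℂ, 0 ≤ z.im → ‖F z‖ ≤ M * Real.exp (A * z.im)) :
    ∀ z : ℂ, 0 ≤ z.im → ‖F z‖ ≤ M * Real.exp (A * (1 - 1 / 3200) * z.im) := by
  classical
  intro z hz0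
  rcases hz0.eq_or_lt with hz | hz
  · have := hup z hz0
    rw [← hz] at this ⊢
    simpa using this
  obtain ⟨B, hB, hB1, hB2⟩ := b.block hA (norm_nonneg z)
  obtain ⟨s, hsB, hs1, hs2⟩ := b.select B hB2
  set n : ι → ℕ := fun i => ⌊A * h i / 100⌋₊ with hn
  have hhp := b.hh
  have htp := b.toSep.tpos
  have hnle : ∀ i, (n i : ℝ) ≤ A * h i / 100 := fun i =>
    Nat.floor_le (by have := hhp i; positivity)
  -- the key sum on the small circles
  have hS : ∀ i ∈ s, ∀ w : ℂ, ‖w - dc t h i‖ = h i / 4 →
      ∑ j ∈ s, (n j : ℝ) * (h j / ‖w - dc t h j‖ ^ 2) ≤ A := by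
    intro i hi w hw
    have hre : |w.re - t i| ≤ h i / 4 := by
      have h1 := Complex.abs_re_le_norm (w - dc t h i)
      rw [hw, Complex.sub_re, dc_re] at h1
      exact h1
    have hhi := hhp i
    have hterm : ∀ j ∈ s.filter (fun j => j ≠ i), (n j : ℝ) * (h j / ‖w - dc t h j‖ ^ 2) ≤
        (A * 16 / 900) * ((h j) ^ 2 / (t j - t i) ^ 2) := by
      intro j hj
      rw [Finset.mem_filter] at hj
      have hhj := hhp j
      have hsep := b.hsep j i hj.2
      have hdsq : (t j - t i) ^ 2 = |t j - t i| ^ 2 := (sq_abs _).symm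
      rw [hdsq]
      set d := |t j - t i| with hd
      have hd0 : 0 < d := by linarith
      have h1 : 3 / 4 * d ≤ ‖w - dc t h j‖ := by
        have h2 := Complex.abs_re_le_norm (w - dc t h j)
        rw [Complex.sub_re, dc_re] at h2
        refine le_trans ?_ h2
        have h3 : d ≤ |w.re - t j| + |w.re - t i| := by
          have h4 : t j - t i = (w.re - t i) - (w.re - t j) := by ring
          rw [hd, h4]
          have := abs_sub (w.re - t i) (w.re - t j)
          linarith
        linarith
      calc (n j : ℝ) * (h j / ‖w - dc t h j‖ ^ 2)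
          ≤ (A * h j / 100) * (h j / (3 / 4 * d) ^ 2) := by
            have := hnle j
            gcongr
        _ = (A * 16 / 900) * ((h j) ^ 2 / d ^ 2) := by
            field_simp
            norm_num
    have hself : (n i : ℝ) * (h i / ‖w - dc t h i‖ ^ 2) ≤ A * 16 / 100 := by
      rw [hw]
      calc (n i : ℝ) * (h i / (h i / 4) ^ 2) ≤ (A * h i / 100) * (h i / (h i / 4) ^ 2) := by
            have := hnle i
            gcongr
        _ = A * 16 / 100 := by field_simp; norm_num
    have hsplit : ∑ j ∈ s, (n j : ℝ) * (h j / ‖w - dc t h j‖ ^ 2) =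
        (n i : ℝ) * (h i / ‖w - dc t h i‖ ^ 2) +
        ∑ j ∈ s.filter (fun j => j ≠ i), (n j : ℝ) * (h j / ‖w - dc t h j‖ ^ 2) := by
      rw [← Finset.add_sum_erase s _ hi, Finset.filter_ne' s i]
    rw [hsplit]
    calc (n i : ℝ) * (h i / ‖w - dc t h i‖ ^ 2) +
        ∑ j ∈ s.filter (fun j => j ≠ i), (n j : ℝ) * (h j / ‖w - dc t h j‖ ^ 2)
        ≤ A * 16 / 100 + ∑ j ∈ s.filter (fun j => j ≠ i),
          (A * 16 / 900) * ((h j) ^ 2 / (t j - t i) ^ 2) :=
          add_le_add hself (Finset.sum_le_sum hterm)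
      _ = A * 16 / 100 + (A * 16 / 900) * ∑ j ∈ s.filter (fun j => j ≠ i),
          (h j) ^ 2 / (t j - t i) ^ 2 := by rw [Finset.mul_sum]
      _ ≤ A * 16 / 100 + (A * 16 / 900) * 44 := by
          gcongr
          exact hs2 i hi
      _ ≤ A := by linarith
  -- the comparison
  have hρ : ∀ i ∈ s, 0 < h i / 4 := fun i _ => by have := hhp i; positivity
  have hzcn : ∀ i, t i ≤ ‖dc t h i‖ := by
    intro i
    have h1 := Complex.abs_re_le_norm (dc t h i)
    rw [dc_re] at h1
    exact (le_abs_self _).trans h1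
  have hzρ : ∀ i ∈ s, h i / 4 < ‖z - dc t h i‖ := by
    intro i hi
    have h1 : ‖dc t h i‖ - ‖z‖ ≤ ‖z - dc t h i‖ := by
      rw [norm_sub_rev]; exact norm_sub_norm_le _ _
    have h2 := hzcn i
    have h3 := (hB i (hsB hi)).2
    have h4 := b.hht i
    have h5 := htp i
    linarith
  have hcore := pl_multi s hF hM hup (dc t h) (fun i => h i / 4) n hρ ?_ hz hzρ
  · -- lower bound of the product
    have hdist : ∀ i ∈ s, ‖z - (starRingEnd ℂ) (dc t h i)‖ ≤ 2 * t i := by
      intro i hi
      have h1 : ‖z - (starRingEnd ℂ) (dc t h i)‖ ≤ ‖z‖ + ‖dc t h i‖ := by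
        have := norm_sub_le z ((starRingEnd ℂ) (dc t h i))
        rwa [Complex.norm_conj] at this
      have h2 : ‖dc t h i‖ ≤ t i + h i / 2 := by
        unfold dc
        refine (norm_add_le _ _).trans ?_
        rw [norm_mul, Complex.norm_I, mul_one, Complex.norm_real, Complex.norm_real,
          Real.norm_of_nonneg, Real.norm_of_nonneg]
        · have := hhp i; positivity
        · exact (htp i).le
      have h3 := (hB i (hsB hi)).2
      have h4 := b.hht i
      have h5 := htp i
      linarith
    have hprod : Real.exp (z.im * (A / 3200)) ≤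
        ∏ j ∈ s, (‖z - (starRingEnd ℂ) (dc t h j)‖ / ‖z - dc t h j‖) ^ n j := by
      calc Real.exp (z.im * (A / 3200))
          ≤ Real.exp (∑ j ∈ s, (n j : ℝ) * (z.im * h j / (2 * t j) ^ 2)) := by
            apply Real.exp_le_exp.mpr
            have h1 : ∀ j ∈ s, z.im * (A / 800) * (h j / t j) ^ 2 ≤
                (n j : ℝ) * (z.im * h j / (2 * t j) ^ 2) := by
              intro j hj
              have hti := htp j
              have hhj := hhp j
              have hnk : A * h j / 200 ≤ n j := by
                have h2 : A * h j / 100 - 1 < n j := Nat.sub_one_lt_floor _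
                have h3 := (hB j (hsB hj)).1
                linarith
              calc z.im * (A / 800) * (h j / t j) ^ 2
                  = (A * h j / 200) * (z.im * h j / (2 * t j) ^ 2) := by
                    field_simp
                    norm_num
                _ ≤ (n j : ℝ) * (z.im * h j / (2 * t j) ^ 2) := by
                    gcongr
            calc z.im * (A / 3200) = z.im * (A / 800) * ((1 / 2) / 2) := by ring
              _ ≤ z.im * (A / 800) * ((∑ i ∈ B, (h i / t i) ^ 2) / 2) := by gcongr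
              _ ≤ z.im * (A / 800) * ∑ j ∈ s, (h j / t j) ^ 2 := by gcongr
              _ = ∑ j ∈ s, z.im * (A / 800) * (h j / t j) ^ 2 := by rw [Finset.mul_sum]
              _ ≤ _ := Finset.sum_le_sum h1
        _ = ∏ j ∈ s, (Real.exp (z.im * h j / (2 * t j) ^ 2)) ^ n j := by
            rw [Real.exp_sum]
            refine Finset.prod_congr rfl fun j _ => ?_
            rw [← Real.exp_nat_mul]
        _ ≤ _ := by
            refine Finset.prod_le_prod (fun j _ => by positivity) fun j hj => ?_
            have hposz : 0 < ‖z - dc t h j‖ := (hρ j hj).trans (hzρ j hj)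
            have h1 := le_ratio (w := z) (dc_im t h j) hposz hz.le (hρ j hj).le
            have h2 : Real.exp (z.im * h j / (2 * t j) ^ 2) ≤
                Real.exp (4 * z.im * (h j / 4) / ‖z - (starRingEnd ℂ) (dc t h j)‖ ^ 2) := by
              apply Real.exp_le_exp.mpr
              have h3 : 4 * z.im * (h j / 4) = z.im * h j := by ring
              rw [h3]
              have h4 := hhp j
              have h5 : 0 < ‖z - (starRingEnd ℂ) (dc t h j)‖ := by
                have h6 := dist_conj_sq z (dc t h j)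
                rw [dc_im] at h6
                have h7 : 0 < ‖z - (starRingEnd ℂ) (dc t h j)‖ ^ 2 := by rw [h6]; positivity
                exact lt_of_le_of_ne (norm_nonneg _) (fun h => by rw [← h] at h7; norm_num at h7)
              have h6 := hdist j hj
              gcongr
            have h3 := h2.trans h1
            gcongr
    have h1 : ‖F z‖ * Real.exp (z.im * (A / 3200)) ≤ M * Real.exp (A * z.im) :=
      (mul_le_mul_of_nonneg_left hprod (norm_nonneg _)).trans hcore
    calc ‖F z‖ = (‖F z‖ * Real.exp (z.im * (A / 3200))) *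
          Real.exp (-(z.im * (A / 3200))) := by
          rw [mul_assoc, ← Real.exp_add]; simp
      _ ≤ (M * Real.exp (A * z.im)) * Real.exp (-(z.im * (A / 3200))) := by gcongr
      _ = M * Real.exp (A * (1 - 1 / 3200) * z.im) := by
          rw [mul_assoc, ← Real.exp_add]
          congr 2
          ring
  · -- on the small circles
    intro i hi w hw0 hwi hwj
    have hFw : ‖F w‖ ≤ M := by
      refine b.hF i w ?_
      have h3 : w - (t i : ℂ) = (w - dc t h i) + ((h i / 2 : ℝ) : ℂ) * I := by
        unfold dc; ring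
      rw [h3]
      refine (norm_add_le _ _).trans ?_
      rw [hwi, norm_mul, Complex.norm_I, mul_one, Complex.norm_real, Real.norm_of_nonneg]
      · have := hhp i; linarith
      · have := hhp i; positivity
    have hprod : ∏ j ∈ s, (‖w - (starRingEnd ℂ) (dc t h j)‖ / ‖w - dc t h j‖) ^ n j ≤
        Real.exp (A * w.im) := by
      calc ∏ j ∈ s, (‖w - (starRingEnd ℂ) (dc t h j)‖ / ‖w - dc t h j‖) ^ n j
          ≤ ∏ j ∈ s, (Real.exp (w.im * (h j / ‖w - dc t h j‖ ^ 2))) ^ n j := by
            refine Finset.prod_le_prod (fun j _ => by positivity) fun j hj => ?_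
            have hpos : 0 < ‖w - dc t h j‖ := (hρ j hj).trans_le (hwj j hj)
            have h1 := ratio_le (w := w) (dc_im t h j) hpos
            have h2 : 4 * w.im * (h j / 4) / ‖w - dc t h j‖ ^ 2 =
                w.im * (h j / ‖w - dc t h j‖ ^ 2) := by ring
            rw [h2] at h1
            gcongr
        _ = Real.exp (w.im * ∑ j ∈ s, (n j : ℝ) * (h j / ‖w - dc t h j‖ ^ 2)) := by
            rw [Finset.mul_sum, Real.exp_sum]
            refine Finset.prod_congr rfl fun j _ => ?_
            rw [← Real.exp_nat_mul]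
            congr 1
            ring
        _ ≤ Real.exp (A * w.im) := by
            apply Real.exp_le_exp.mpr
            have := mul_le_mul_of_nonneg_left (hS i hi w hwi) hw0
            linarith
    gcongr

theorem discs_upper {ι : Type*} {F : ℂ → ℂ} (hF : Differentiable ℂ F) {C A M : ℝ} {t h : ι → ℝ}
    (hA : 0 < A) (hM : 0 ≤ M) (b : Discs F M t h)
    (hexp : ∀ z, ‖F z‖ ≤ C * Real.exp (A * ‖z‖)) (hb : ∀ x : ℝ, ‖F x‖ ≤ M) :
    ∀ z : ℂ, 0 ≤ z.im → ‖F z‖ ≤ M := by
  have hθ0 : (0 : ℝ) < 1 - 1 / 3200 := by norm_num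
  have hθ1 : (1 : ℝ) - 1 / 3200 < 1 := by norm_num
  have hiter : ∀ n : ℕ, ∀ z : ℂ, 0 ≤ z.im →
      ‖F z‖ ≤ M * Real.exp (A * (1 - 1 / 3200) ^ n * z.im) := by
    intro n
    induction n with
    | zero => simpa using pl0 hF hA.le hexp hb
    | succ n ih =>
      have := discs_step hF (mul_pos hA (pow_pos hθ0 n)) hM b ih
      intro z hz
      rw [pow_succ, ← mul_assoc]
      exact this z hz
  intro z hz
  have hlim : Tendsto (fun n : ℕ => M * Real.exp (A * (1 - 1 / 3200) ^ n * z.im))
      atTop (𝓝 (M * Real.exp (A * 0 * z.im))) := by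
    refine ((Real.continuous_exp.tendsto _).comp
      (Tendsto.mul_const _ (Tendsto.const_mul _ ?_))).const_mul M
    exact tendsto_pow_atTop_nhds_zero_of_lt_one hθ0.le hθ1
  simp only [mul_zero, zero_mul, Real.exp_zero, mul_one] at hlim
  exact ge_of_tendsto' hlim fun n => hiter n z hz

/-- **Phragmen-Lindelof with disjoint discs.** -/
theorem discs_main {ι : Type*} {F : ℂ → ℂ} (hF : Differentiable ℂ F) {C A M : ℝ} {t h : ι → ℝ}
    (hM : 0 ≤ M) (b : Discs F M t h)
    (hexp : ∀ z, ‖F z‖ ≤ C * Real.exp (A * ‖z‖)) (hb : ∀ x : ℝ, ‖F x‖ ≤ M) :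
    ∀ z : ℂ, ‖F z‖ ≤ M := by
  have hC : 0 ≤ C := by
    have := (norm_nonneg _).trans (hexp 0)
    simpa using this
  have hexp' : ∀ z, ‖F z‖ ≤ C * Real.exp ((|A| + 1) * ‖z‖) := by
    intro z
    refine (hexp z).trans ?_
    gcongr
    linarith [le_abs_self A]
  have hA' : 0 < |A| + 1 := by positivity
  intro z
  rcases le_total 0 z.im with hz | hz
  · exact discs_upper hF hA' hM b hexp' hb z hz
  · set G : ℂ → ℂ := (starRingEnd ℂ) ∘ F ∘ (starRingEnd ℂ) with hG
    have hGn : ∀ w, ‖G w‖ = ‖F ((starRingEnd ℂ) w)‖ := fun w => by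
      simp only [hG, Function.comp_apply, Complex.norm_conj]
    have hGd : Differentiable ℂ G := by
      intro w
      exact differentiableAt_conj_conj_iff.mpr (hF ((starRingEnd ℂ) w))
    have hD : Discs G M t h :=
      { toSep := b.toSep, hdiv := b.hdiv
        hF := by
          intro i w hw
          rw [hGn]
          refine b.hF i _ ?_
          have : (starRingEnd ℂ) w - (t i : ℂ) = (starRingEnd ℂ) (w - t i) := by simp
          rw [this, Complex.norm_conj]
          exact hw }
    have h1 := discs_upper hGd hA' hM hD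
      (fun w => by rw [hGn]; simpa using hexp' ((starRingEnd ℂ) w))
      (fun x => by rw [hGn, Complex.conj_ofReal]; exact hb x) ((starRingEnd ℂ) z)
      (by simpa using hz)
    rw [hGn] at h1
    simpa using h1

end H88NS
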