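import Pool.Agent.H88NS.Chi

/-! The gradient estimate for the Stokes system with right side in divergence form. -/

open MeasureTheory Set Filter Metric Topology
open scoped ContDiff

namespace H88NS

/-- bound of a dilated average -/
theorem avg_bound {φ F : E → ℝ} (hφ : Continuous φ) (hc : HasCompactSupport φ)
    (hs : ∀ s, 1 < ‖s‖ → φ s = 0) {x : E} {t r g : ℝ}
    (ht0 : 0 ≤ t) (htr : t ≤ r) (hg : ∀ y ∈ closedBall x r, |F y| ≤ g) :
    |∫ s, φ s * F (x + t • s)| ≤ (∫ s, |φ s|) * g := by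
  rw [← integral_mul_const, ← Real.norm_eq_abs]
  refine norm_integral_le_of_norm_le ?_ (Eventually.of_forall fun s => ?_)
  · exact (hφ.abs.integrable_of_hasCompactSupport hc.abs).mul_const g
  · by_cases h1 : 1 < ‖s‖
    · rw [hs s h1]; simp
    · push Not at h1
      rw [norm_mul, Real.norm_eq_abs, Real.norm_eq_abs]
      gcongr
      apply hg
      rw [mem_closedBall, dist_eq_norm, add_sub_cancel_left, norm_smul, Real.norm_eq_abs,
        abs_of_nonneg ht0]
      nlinarith [norm_nonneg s]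

theorem D_support {f : E → ℝ} (hf : ∀ s, 1 < ‖s‖ → f s = 0) (w : E) :
    ∀ s, 1 < ‖s‖ → D w f s = 0 := by
  intro s hs
  unfold D
  have h1 : f =ᶠ[𝓝 s] fun _ => 0 := by
    have : {s : E | 1 < ‖s‖} ∈ 𝓝 s := (isOpen_lt continuous_const continuous_norm).mem_nhds hs
    filter_upwards [this] with y hy using hf y hy
  rw [h1.fderiv_eq]
  simp

theorem chi_support : ∀ s : E, 1 < ‖s‖ → chi s = 0 := fun s hs =>
  q_zero (by norm_num) (by nlinarith [norm_nonneg s])

theorem Th_support (i k : Fin 3) : ∀ s : E, 1 < ‖s‖ → Th chi i k s = 0 := by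
  intro s hs
  unfold Th lap
  have h : ∀ a b, D (bb a) (D (bb b) chi) s = 0 := fun a b =>
    D_support (D_support chi_support _) _ s hs
  simp [h]

/-- **Value estimate.** -/
theorem stokes_val : ∃ C2 : ℝ, 0 < C2 ∧
    ∀ (ν : ℝ) (u : Fin 3 → E → ℝ) (G : Fin 3 → Fin 3 → E → ℝ) (p : E → ℝ), 0 < ν →
      Stokes ν u G p →
      ∀ (x : E) (r g : ℝ), 0 < r → (∀ y ∈ closedBall x r, ∀ j k, |G j k y| ≤ g) →
      ∀ i, |u i x| ≤ (∫ s, kk s)⁻¹ * |∫ s, kk s * u i (x + r • s)| + C2 * (r * g / ν) := by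
  set c0 := ∫ s, kk s with hc0
  have hc0pos : 0 < c0 := kk_integral
  set B := ∑ i, ∑ j, ∑ m, ∫ s, |D (bb j) (Th chi i m) s| with hB
  have hI0 : ∀ i j m : Fin 3, 0 ≤ ∫ s, |D (bb j) (Th chi i m) s| := fun i j m =>
    integral_nonneg fun s => abs_nonneg _
  have hB0 : 0 ≤ B := Finset.sum_nonneg fun i _ => Finset.sum_nonneg fun j _ =>
    Finset.sum_nonneg fun m _ => hI0 i j m
  have hBi : ∀ i : Fin 3, ∑ j, ∑ m, ∫ s, |D (bb j) (Th chi i m) s| ≤ B := by
    intro i
    rw [hB]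
    exact Finset.single_le_sum (f := fun i : Fin 3 => ∑ j : Fin 3, ∑ m : Fin 3,
      ∫ s, |D (bb j) (Th chi i m) s|)
      (fun i _ => Finset.sum_nonneg fun j _ => Finset.sum_nonneg fun m _ => hI0 i j m)
      (Finset.mem_univ i)
  refine ⟨B / (2 * c0) + 1, by positivity, ?_⟩
  intro ν u G p hν hS x r g hr hg i
  have hx : x ∈ closedBall x r := mem_closedBall_self hr.le
  have hg0 : 0 ≤ g := (abs_nonneg _).trans (hg x hx 0 0)
  set J : ℝ → ℝ := fun t => ∫ s, kk s * u i (x + t • s) with hJ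
  have hJd : ∀ t, HasDerivAt J
      (-(1 / (2 * ν)) * ∑ j, ∑ m, ∫ s, D (bb j) (Th chi i m) s * G j m (x + t • s)) t :=
    fun t => J_deriv hν.ne' hS chi_contDiff chi_compact kk_contDiff.continuous kk_compact kk_chi
      i x t
  have hThd : ∀ j m, ContDiff ℝ 1 (D (bb j) (Th chi i m)) := fun j m =>
    D_contDiff (Th_contDiff chi_contDiff i m) (by norm_num) _
  -- bound of the derivative
  have hJb : ∀ t, 0 ≤ t → t ≤ r →
      ‖-(1 / (2 * ν)) * ∑ j, ∑ m, ∫ s, D (bb j) (Th chi i m) s * G j m (x + t • s)‖ ≤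
        B * g / (2 * ν) := by
    intro t ht0 htr
    rw [norm_mul, norm_neg, Real.norm_of_nonneg (by positivity : (0 : ℝ) ≤ 1 / (2 * ν))]
    have h1 : ‖∑ j, ∑ m, ∫ s, D (bb j) (Th chi i m) s * G j m (x + t • s)‖ ≤
        ∑ j, ∑ m, (∫ s, |D (bb j) (Th chi i m) s|) * g := by
      refine norm_sum_le_of_le _ fun j _ => norm_sum_le_of_le _ fun m _ => ?_
      rw [Real.norm_eq_abs]
      exact avg_bound (hThd j m).continuous (D_compact (Th_compact chi_compact i m) _)
        (D_support (Th_support i m) _) ht0 htr (fun y hy => hg y hy j m)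
    have h2 : ∑ j, ∑ m, (∫ s, |D (bb j) (Th chi i m) s|) * g ≤ B * g := by
      simp only [← Finset.sum_mul]
      exact mul_le_mul_of_nonneg_right (hBi i) hg0
    calc 1 / (2 * ν) * ‖∑ j, ∑ m, ∫ s, D (bb j) (Th chi i m) s * G j m (x + t • s)‖
        ≤ 1 / (2 * ν) * (B * g) := by gcongr; exact h1.trans h2
      _ = B * g / (2 * ν) := by ring
  have hJdiff : ‖J r - J 0‖ ≤ B * g / (2 * ν) * (r - 0) :=
    norm_image_sub_le_of_norm_deriv_le_segment' (a := 0) (b := r)
      (fun t _ => (hJd t).hasDerivWithinAt) (fun t ht => hJb t ht.1 ht.2.le) r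
      ⟨hr.le, le_rfl⟩
  have hJ0 : J 0 = c0 * u i x := by
    simp only [hJ, zero_smul, add_zero]
    rw [integral_mul_const]
  have h5 : c0 * |u i x| ≤ |J r| + B * g / (2 * ν) * r := by
    have habs : c0 * |u i x| = |J 0| := by
      rw [hJ0, abs_mul, abs_of_pos hc0pos]
    rw [habs]
    rw [Real.norm_eq_abs, sub_zero] at hJdiff
    have : |J 0| ≤ |J r| + |J r - J 0| := by
      have h6 : J 0 = J r - (J r - J 0) := by ring
      calc |J 0| = |J r - (J r - J 0)| := by rw [← h6]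
        _ ≤ _ := abs_sub _ _
    linarith
  have h6 : |u i x| ≤ (|J r| + B * g / (2 * ν) * r) / c0 := by
    rw [le_div_iff₀ hc0pos]; linarith
  calc |u i x| ≤ (|J r| + B * g / (2 * ν) * r) / c0 := h6
    _ = c0⁻¹ * |J r| + B / (2 * c0) * (r * g / ν) := by field_simp
    _ ≤ c0⁻¹ * |J r| + (B / (2 * c0) + 1) * (r * g / ν) := by
      have h8 : 0 ≤ r * g / ν := by positivity
      nlinarith

/-- **Gradient estimate.** -/
theorem stokes_grad (e : E) : ∃ C1 C2 : ℝ, 0 < C1 ∧ 0 < C2 ∧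
    ∀ (ν : ℝ) (w : Fin 3 → E → ℝ) (G : Fin 3 → Fin 3 → E → ℝ) (p : E → ℝ), 0 < ν →
      (∀ i, ContDiff ℝ ∞ (w i)) → Stokes ν (fun i => D e (w i)) G p →
      ∀ (x : E) (r a g : ℝ), 0 < r → (∀ y ∈ closedBall x r, ∀ i, |w i y| ≤ a) →
      (∀ y ∈ closedBall x r, ∀ j k, |G j k y| ≤ g) →
      ∀ i, |D e (w i) x| ≤ C1 * (a / r) + C2 * (r * g / ν) := by
  obtain ⟨C2, hC2, hval⟩ := stokes_val
  set c0 := ∫ s, kk s with hc0
  have hc0pos : 0 < c0 := kk_integral
  set A := ∫ s, |D e kk s| with hA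
  have hA0 : 0 ≤ A := integral_nonneg fun s => abs_nonneg _
  refine ⟨c0⁻¹ * A + 1, C2, by positivity, hC2, ?_⟩
  intro ν w G p hν hw hS x r a g hr ha hg i
  have hx : x ∈ closedBall x r := mem_closedBall_self hr.le
  have ha0 : 0 ≤ a := (abs_nonneg _).trans (ha x hx i)
  have h0 := hval ν _ G p hν hS x r g hr hg i
  have h1 := ibp_dil kk_contDiff kk_compact ((hw i).of_le one_le_infty) x r e
  have h2 : |∫ s, D e kk s * w i (x + r • s)| ≤ (∫ s, |D e kk s|) * a :=
    avg_bound (D_contDiff (m := 0) kk_contDiff (by norm_num) e).continuous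
      (D_compact kk_compact e) (D_support (fun s hs => kk_zero hs.le) e)
      hr.le le_rfl (fun y hy => ha y hy i)
  have hJr : |∫ s, kk s * D e (w i) (x + r • s)| ≤ A * (a / r) := by
    have h3 : r * |∫ s, kk s * D e (w i) (x + r • s)| ≤ A * a := by
      have h4 : r * |∫ s, kk s * D e (w i) (x + r • s)| =
          |∫ s, D e kk s * w i (x + r • s)| := by
        rw [← abs_neg (∫ s, D e kk s * w i (x + r • s)), ← h1, abs_mul, abs_of_pos hr]
      rw [h4]
      exact h2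
    rw [← mul_div_assoc, le_div_iff₀ hr]
    linarith
  have h7 : 0 ≤ a / r := by positivity
  have h9 : c0⁻¹ * |∫ s, kk s * D e (w i) (x + r • s)| ≤ c0⁻¹ * (A * (a / r)) := by
    gcongr
  calc |D e (w i) x| ≤ _ := h0
    _ ≤ (c0⁻¹ * A + 1) * (a / r) + C2 * (r * g / ν) := by nlinarith

end H88NS
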