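import Pool.Agent.H88NS.CBound

/-! The Liouville theorem with a divergent series of balls centred on one ray. -/

open MeasureTheory Set Filter Metric Topology
open scoped ContDiff Nat

namespace H88NS

/-- centers of the sub-balls -/
noncomputable def sc (t ρ : ℕ → ℝ) (N : ℕ → ℕ) (p : Σ _ : ℕ, ℕ) : ℝ :=
  t p.1 - ρ p.1 / 2 + (2 * p.2 + 1) * (ρ p.1 / (2 * N p.1))

/-- radii of the sub-balls -/
noncomputable def sr (ρ : ℕ → ℝ) (N : ℕ → ℕ) (p : Σ _ : ℕ, ℕ) : ℝ := ρ p.1 / (4 * N p.1)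

section geometry

variable {t ρ : ℕ → ℝ} {N : ℕ → ℕ}

theorem sr_pos (hρ : ∀ i, 0 < ρ i) (hN : ∀ i, 1 ≤ N i) (p : Σ _ : ℕ, ℕ) : 0 < sr ρ N p := by
  unfold sr
  have h1 := hρ p.1
  have h2 : (1 : ℝ) ≤ N p.1 := by exact_mod_cast hN p.1
  positivity

theorem sc_dist (hρ : ∀ i, 0 < ρ i) (hN : ∀ i, 1 ≤ N i) {p : Σ _ : ℕ, ℕ} (hp : p.2 < N p.1) :
    |sc t ρ N p - t p.1| ≤ ρ p.1 / 2 - sr ρ N p := by
  have h1 := hρ p.1
  have h2 : (1 : ℝ) ≤ N p.1 := by exact_mod_cast hN p.1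
  have h3 : (p.2 : ℝ) + 1 ≤ N p.1 := by exact_mod_cast hp
  have h4 : 0 ≤ (p.2 : ℝ) := Nat.cast_nonneg _
  set u : ℝ := ρ p.1 / (4 * N p.1) with hu
  have hu0 : 0 < u := by positivity
  have h5 : ρ p.1 = 4 * N p.1 * u := by rw [hu]; field_simp
  have h6 : ρ p.1 / (2 * N p.1) = 2 * u := by rw [hu]; field_simp; norm_num
  unfold sc sr
  rw [h6, abs_le]
  rw [← hu]
  constructor
  · nlinarith
  · nlinarith

theorem sc_sep (hρ : ∀ i, 0 < ρ i) (hN : ∀ i, 1 ≤ N i)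
    (hsep : ∀ i j, i ≠ j → ρ i + ρ j ≤ |t i - t j|) {p q : Σ _ : ℕ, ℕ} (hp : p.2 < N p.1)
    (hq : q.2 < N q.1) (hpq : p ≠ q) :
    sr ρ N p + sr ρ N q < |sc t ρ N p - sc t ρ N q| := by
  by_cases h : p.1 = q.1
  · obtain ⟨i, a⟩ := p
    obtain ⟨j, b⟩ := q
    simp only at h hp hq
    subst h
    have hab : a ≠ b := fun h => hpq (by rw [h])
    have h1 := hρ i
    have h2 : (1 : ℝ) ≤ N i := by exact_mod_cast hN i
    set u : ℝ := ρ i / (4 * N i) with hu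
    have hu0 : 0 < u := by positivity
    have h6 : ρ i / (2 * N i) = 2 * u := by rw [hu]; field_simp; norm_num
    have h7 : sc t ρ N ⟨i, a⟩ - sc t ρ N ⟨i, b⟩ = ((a : ℝ) - b) * (4 * u) := by
      unfold sc
      simp only [h6]
      ring
    have h8 : (1 : ℝ) ≤ |(a : ℝ) - b| := by
      have h3 : (1 : ℤ) ≤ |(a : ℤ) - b| := Int.one_le_abs (by omega)
      exact_mod_cast h3
    rw [h7, abs_mul, abs_of_pos (by positivity : 0 < 4 * u)]
    unfold sr
    simp only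
    rw [← hu]
    nlinarith
  · have h1 := sc_dist (t := t) hρ hN hp
    have h2 := sc_dist (t := t) hρ hN hq
    have h3 := hsep p.1 q.1 h
    have h4 := hρ p.1
    have h5 := hρ q.1
    have h6 : |t p.1 - t q.1| ≤ |sc t ρ N p - t p.1| + |sc t ρ N q - t q.1| +
        |sc t ρ N p - sc t ρ N q| := by
      have h7 : t p.1 - t q.1 = -(sc t ρ N p - t p.1) + (sc t ρ N q - t q.1) +
        (sc t ρ N p - sc t ρ N q) := by ring
      rw [h7]
      refine (abs_add_le _ _).trans ?_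
      gcongr
      refine (abs_add_le _ _).trans ?_
      rw [abs_neg]
    linarith

theorem sc_lower (hρ : ∀ i, 0 < ρ i) (hN : ∀ i, 1 ≤ N i) (hρt : ∀ i, ρ i ≤ t i)
    {p : Σ _ : ℕ, ℕ} (hp : p.2 < N p.1) : t p.1 / 2 ≤ sc t ρ N p ∧ sc t ρ N p ≤ 2 * t p.1 := by
  have h1 := sc_dist (t := t) hρ hN hp
  have h2 := hρt p.1
  have h3 := sr_pos hρ hN p
  have h4 := hρ p.1
  rw [abs_le] at h1
  constructor <;> linarith [h1.1, h1.2]

theorem sr_le (hρ : ∀ i, 0 < ρ i) (hN : ∀ i, 1 ≤ N i) (p : Σ _ : ℕ, ℕ) :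
    sr ρ N p ≤ ρ p.1 / 4 := by
  have h1 := hρ p.1
  have h2 : (1 : ℝ) ≤ N p.1 := by exact_mod_cast hN p.1
  unfold sr
  gcongr
  linarith

end geometry

/-- disjoint sub-balls: few of them carry much mass -/
theorem few_bad {x0 e : E} (he : ‖e‖ = 1) {t ρ : ℕ → ℝ} {N : ℕ → ℕ} (hρ : ∀ i, 0 < ρ i)
    (hN : ∀ i, 1 ≤ N i) (hsep : ∀ i j, i ≠ j → ρ i + ρ j ≤ |t i - t j|) {g : E → ℝ}
    (hg : Continuous g) (hg0 : ∀ x, 0 ≤ g x) {κ : ℝ} (i : ℕ) (T : Finset ℕ)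
    (hT : ∀ m ∈ T, m < N i ∧ κ < ∫ z in closedBall (x0 + sc t ρ N ⟨i, m⟩ • e) (sr ρ N ⟨i, m⟩), g z) :
    T.card * κ ≤ ∫ z in closedBall (x0 + t i • e) (ρ i), g z := by
  have hint : ∀ y r, IntegrableOn g (closedBall y r) := fun y r =>
    hg.continuousOn.integrableOn_compact (isCompact_closedBall _ _)
  have h1 : ∑ m ∈ T, ∫ z in closedBall (x0 + sc t ρ N ⟨i, m⟩ • e) (sr ρ N ⟨i, m⟩), g z =
      ∫ z in ⋃ m ∈ T, closedBall (x0 + sc t ρ N ⟨i, m⟩ • e) (sr ρ N ⟨i, m⟩), g z := by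
    rw [integral_biUnion_finset T (fun m _ => measurableSet_closedBall) ?_ (fun m _ => hint _ _)]
    intro a ha b hb hab
    rw [Function.onFun, Set.disjoint_left]
    intro x hx1 hx2
    rw [mem_closedBall] at hx1 hx2
    have h2 := sc_sep (t := t) hρ hN hsep (p := ⟨i, a⟩) (q := ⟨i, b⟩) (hT a ha).1 (hT b hb).1
      (by intro h; apply hab; simpa using h)
    have h3 : dist (x0 + sc t ρ N ⟨i, a⟩ • e) (x0 + sc t ρ N ⟨i, b⟩ • e) =
        |sc t ρ N ⟨i, a⟩ - sc t ρ N ⟨i, b⟩| := by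
      rw [dist_add_left, dist_eq_norm, ← sub_smul, norm_smul, he, mul_one, Real.norm_eq_abs]
    have h4 := dist_triangle_left (x0 + sc t ρ N ⟨i, a⟩ • e) (x0 + sc t ρ N ⟨i, b⟩ • e) x
    rw [h3] at h4
    linarith
  have h2 : (T.card : ℝ) * κ ≤
      ∑ m ∈ T, ∫ z in closedBall (x0 + sc t ρ N ⟨i, m⟩ • e) (sr ρ N ⟨i, m⟩), g z := by
    rw [← nsmul_eq_mul, ← Finset.sum_const]
    exact Finset.sum_le_sum fun m hm => (hT m hm).2.le
  refine h2.trans ?_
  rw [h1]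
  refine setIntegral_mono_set (hint _ _) (Eventually.of_forall hg0) (Eventually.of_forall ?_)
  intro x hx
  obtain ⟨m, hm, hx⟩ := mem_iUnion₂.mp
    (show x ∈ ⋃ m ∈ T, closedBall (x0 + sc t ρ N ⟨i, m⟩ • e) (sr ρ N ⟨i, m⟩) from hx)
  show x ∈ closedBall (x0 + t i • e) (ρ i)
  have h5 := sc_dist (t := t) hρ hN (p := ⟨i, m⟩) (hT m hm).1
  rw [mem_closedBall] at hx ⊢
  have h6 : dist (x0 + sc t ρ N ⟨i, m⟩ • e) (x0 + t i • e) = |sc t ρ N ⟨i, m⟩ - t i| := by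
    rw [dist_add_left, dist_eq_norm, ← sub_smul, norm_smul, he, mul_one, Real.norm_eq_abs]
  have h7 := dist_triangle x (x0 + sc t ρ N ⟨i, m⟩ • e) (x0 + t i • e)
  have h8 := hρ i
  rw [h6] at h7
  simp only at h5
  linarith

/-- the sub-balls with small mass and large radius still have a divergent series -/
theorem sub_div {t ρ K : ℕ → ℝ} {N : ℕ → ℕ} (hρ : ∀ i, 0 < ρ i) (hN : ∀ i, 1 ≤ N i)
    (ht : ∀ i, 1 ≤ t i) (hρt : ∀ i, ρ i ≤ t i)
    (hsep : ∀ i j, i ≠ j → ρ i + ρ j ≤ |t i - t j|) (hK : ∀ i, 0 ≤ K i)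
    {Cκ : ℝ} (hNK : ∀ i, (N i : ℝ) ≤ Cκ * (1 + K i))
    (good : (Σ _ : ℕ, ℕ) → Prop)
    (hgood : ∀ i, ∀ T : Finset ℕ, (∀ m, m ∈ T ↔ m < N i ∧ good ⟨i, m⟩) → (N i : ℝ) / 2 ≤ T.card)
    (hdiv : ¬ Summable fun i => (ρ i / t i) ^ 2 / (1 + K i)) {θ L0 : ℝ} (hθ : 0 < θ)
    (hL0 : 0 ≤ L0) :
    ¬ Summable fun p : {p : Σ _ : ℕ, ℕ // p.2 < N p.1 ∧ good p ∧ L0 ≤ sr ρ N p} =>
      (θ * sr ρ N p / sc t ρ N p) ^ 2 := by
  classical
  intro hsum
  apply hdiv
  set P : Set (Σ _ : ℕ, ℕ) := {p | p.2 < N p.1 ∧ good p ∧ L0 ≤ sr ρ N p} with hP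
  set Q : Set (Σ _ : ℕ, ℕ) := {p | p.2 < N p.1} with hQ
  set g : (Σ _ : ℕ, ℕ) → ℝ := fun p => (θ * sr ρ N p / sc t ρ N p) ^ 2 with hg
  set l : (Σ _ : ℕ, ℕ) → ℝ := fun p => sr ρ N p / 8 / (sc t ρ N p) ^ 2 with hl
  have hsP : Summable (P.indicator g) := summable_subtype_iff_indicator.mp hsum
  have hsepQ : Sep (fun p : Q => sc t ρ N p) (fun p : Q => sr ρ N p / 8) := by
    refine ⟨fun p => ?_, fun p => ?_, fun p => ?_, fun p q hpq => ?_⟩
    · have h1 := (sc_lower hρ hN hρt (p := p.1) p.2).1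
      have h2 := ht p.1.1
      linarith
    · have := sr_pos hρ hN p.1
      positivity
    · have h1 := (sc_lower hρ hN hρt (p := p.1) p.2).1
      have h2 := sr_le hρ hN p.1
      have h3 := hρt p.1.1
      have h4 := sr_pos hρ hN p.1
      have h5 := ht p.1.1
      linarith
    · have h1 := sc_sep (t := t) hρ hN hsep (p := p.1) (q := q.1) p.2 q.2
        (fun h => hpq (Subtype.ext h))
      have h2 := sr_pos hρ hN p.1
      have h3 := sr_pos hρ hN q.1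
      linarith
  have hsQ : Summable (Q.indicator l) := summable_subtype_iff_indicator.mp hsepQ.lin
  have hg0 : ∀ p, 0 ≤ P.indicator g p := fun p => indicator_nonneg (fun p _ => by
    simp only [hg]; positivity) p
  have hl0 : ∀ p, 0 ≤ Q.indicator l p := fun p => indicator_nonneg (fun p _ => by
    have := sr_pos hρ hN p
    simp only [hl]; positivity) p
  have hCκ : 0 ≤ Cκ := by
    have h1 := hNK 0
    have h2 : (1 : ℝ) ≤ N 0 := by exact_mod_cast hN 0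
    have h3 := hK 0
    by_contra h4
    push Not at h4
    nlinarith
  -- the pointwise estimate
  have hkey : ∀ i, (ρ i / t i) ^ 2 / (1 + K i) ≤ (128 * Cκ) * ∑ m ∈ Finset.range (N i),
      ((θ ^ 2)⁻¹ * P.indicator g ⟨i, m⟩ + 8 * L0 * Q.indicator l ⟨i, m⟩) := by
    intro i
    have hρi := hρ i
    have hti : 0 < t i := by linarith [ht i]
    have hNi : (1 : ℝ) ≤ N i := by exact_mod_cast hN i
    have hKi := hK i
    set T : Finset ℕ := (Finset.range (N i)).filter (fun m => good ⟨i, m⟩) with hT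
    have hcard : (N i : ℝ) / 2 ≤ T.card := hgood i T (fun m => by
      rw [hT, Finset.mem_filter, Finset.mem_range])
    have h1 : ∀ m ∈ T, (ρ i / (4 * N i)) ^ 2 / (2 * t i) ^ 2 ≤
        (θ ^ 2)⁻¹ * P.indicator g ⟨i, m⟩ + 8 * L0 * Q.indicator l ⟨i, m⟩ := by
      intro m hm
      rw [hT, Finset.mem_filter, Finset.mem_range] at hm
      have hQm : (⟨i, m⟩ : Σ _ : ℕ, ℕ) ∈ Q := hm.1
      have hsc := sc_lower hρ hN hρt (p := ⟨i, m⟩) hm.1
      have hscpos : 0 < sc t ρ N ⟨i, m⟩ := by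
        have := hsc.1
        simp only at this
        linarith
      have hsr := sr_pos hρ hN ⟨i, m⟩
      have h2 : (ρ i / (4 * N i)) ^ 2 / (2 * t i) ^ 2 ≤
          (sr ρ N ⟨i, m⟩) ^ 2 / (sc t ρ N ⟨i, m⟩) ^ 2 := by
        have h3 : sr ρ N ⟨i, m⟩ = ρ i / (4 * N i) := rfl
        rw [h3]
        have h4 := hsc.2
        simp only at h4
        gcongr
      refine h2.trans ?_
      by_cases hL : L0 ≤ sr ρ N ⟨i, m⟩
      · have hPm : (⟨i, m⟩ : Σ _ : ℕ, ℕ) ∈ P := ⟨hm.1, hm.2, hL⟩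
        rw [indicator_of_mem hPm]
        have h3 : (θ ^ 2)⁻¹ * g ⟨i, m⟩ = (sr ρ N ⟨i, m⟩) ^ 2 / (sc t ρ N ⟨i, m⟩) ^ 2 := by
          simp only [hg]
          field_simp
        rw [h3]
        have h4 : 0 ≤ 8 * L0 * Q.indicator l ⟨i, m⟩ := mul_nonneg (by positivity) (hl0 _)
        linarith
      · push Not at hL
        rw [indicator_of_mem hQm]
        have h3 : (sr ρ N ⟨i, m⟩) ^ 2 / (sc t ρ N ⟨i, m⟩) ^ 2 ≤ 8 * L0 * l ⟨i, m⟩ := by
          have h4 : 8 * L0 * l ⟨i, m⟩ = L0 * sr ρ N ⟨i, m⟩ / (sc t ρ N ⟨i, m⟩) ^ 2 := by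
            simp only [hl]
            field_simp
          rw [h4, sq (sr ρ N ⟨i, m⟩)]
          gcongr
        have h4 : 0 ≤ (θ ^ 2)⁻¹ * P.indicator g ⟨i, m⟩ := mul_nonneg (by positivity) (hg0 _)
        linarith
    have h2 : (T.card : ℝ) * ((ρ i / (4 * N i)) ^ 2 / (2 * t i) ^ 2) ≤
        ∑ m ∈ Finset.range (N i),
          ((θ ^ 2)⁻¹ * P.indicator g ⟨i, m⟩ + 8 * L0 * Q.indicator l ⟨i, m⟩) := by
      rw [← nsmul_eq_mul, ← Finset.sum_const]
      refine (Finset.sum_le_sum h1).trans ?_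
      refine Finset.sum_le_sum_of_subset_of_nonneg (Finset.filter_subset _ _) fun m _ _ => ?_
      have h3 := hg0 ⟨i, m⟩
      have h4 := hl0 ⟨i, m⟩
      positivity
    have h3 : (ρ i / t i) ^ 2 / (1 + K i) ≤
        (128 * Cκ) * ((T.card : ℝ) * ((ρ i / (4 * N i)) ^ 2 / (2 * t i) ^ 2)) := by
      have h4 : (128 * Cκ) * ((N i : ℝ) / 2 * ((ρ i / (4 * N i)) ^ 2 / (2 * t i) ^ 2)) ≤
          (128 * Cκ) * ((T.card : ℝ) * ((ρ i / (4 * N i)) ^ 2 / (2 * t i) ^ 2)) := by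
        gcongr
      refine le_trans ?_ h4
      have h5 : (128 * Cκ) * ((N i : ℝ) / 2 * ((ρ i / (4 * N i)) ^ 2 / (2 * t i) ^ 2)) =
          (ρ i / t i) ^ 2 * (Cκ / N i) := by
        field_simp
        ring
      rw [h5, div_eq_mul_inv]
      have h6 : (1 + K i)⁻¹ ≤ Cκ / N i := by
        rw [inv_eq_one_div, div_le_div_iff₀ (by positivity) (by positivity)]
        have := hNK i
        linarith
      gcongr
    refine h3.trans ?_
    gcongr
  -- finite sums are bounded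
  refine summable_of_sum_le (c := (128 * Cκ) * ((θ ^ 2)⁻¹ * (∑' p, P.indicator g p) +
    8 * L0 * ∑' p, Q.indicator l p)) (fun i => ?_) fun I => ?_
  · have := hK i
    simp only [Pi.zero_apply]
    positivity
  calc ∑ i ∈ I, (ρ i / t i) ^ 2 / (1 + K i)
      ≤ ∑ i ∈ I, (128 * Cκ) * ∑ m ∈ Finset.range (N i),
        ((θ ^ 2)⁻¹ * P.indicator g ⟨i, m⟩ + 8 * L0 * Q.indicator l ⟨i, m⟩) :=
        Finset.sum_le_sum fun i _ => hkey i
    _ = (128 * Cκ) * ((θ ^ 2)⁻¹ * (∑ p ∈ I.sigma fun i => Finset.range (N i), P.indicator g p) +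
        8 * L0 * ∑ p ∈ I.sigma fun i => Finset.range (N i), Q.indicator l p) := by
        rw [← Finset.mul_sum, Finset.sum_sigma, Finset.sum_sigma]
        congr 1
        rw [Finset.mul_sum, Finset.mul_sum, ← Finset.sum_add_distrib]
        refine Finset.sum_congr rfl fun i _ => ?_
        rw [Finset.sum_add_distrib, Finset.mul_sum, Finset.mul_sum]
    _ ≤ _ := by
        gcongr
        · exact hsP.sum_le_tsum _ fun p _ => hg0 p
        · exact hsQ.sum_le_tsum _ fun p _ => hl0 p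

set_option maxHeartbeats 4000000 in
/-- **The Liouville theorem.** -/
theorem main2 {ν : ℝ} (hν : 0 < ν) (v : E → E) (p : E → ℝ) (hp : Differentiable ℝ p)
    (hdiv : ∀ x, ∑ j, D (bb j) (fun y => v y j) x = 0)
    (hns : ∀ x i, -ν * ∑ j, D (bb j) (D (bb j) (fun y => v y i)) x +
      ∑ j, v x j * D (bb j) (fun y => v y i) x + D (bb i) p x = 0)
    (hext : ∃ V : EuclideanSpace ℂ (Fin 3) → EuclideanSpace ℂ (Fin 3), AnalyticOnNhd ℂ V univ ∧
      (∀ x i, V (cx x) i = (v x i : ℂ)) ∧ ∃ C A : ℝ, ∀ z, ‖V z‖ ≤ C * Real.exp (A * ‖z‖))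
    (hbdd : ∃ M : ℝ, ∀ x, ‖v x‖ ≤ M)
    (x0 e : E) (he : ‖e‖ = 1) (t ρ : ℕ → ℝ) (ht : ∀ i, 1 ≤ t i) (hρ : ∀ i, 0 < ρ i)
    (hρt : ∀ i, ρ i ≤ t i) (hsep : ∀ i j, i ≠ j → ρ i + ρ j ≤ |t i - t j|)
    (hsum : ¬ Summable fun i =>
      (ρ i / t i) ^ 2 / (1 + ∫ z in closedBall (x0 + t i • e) (ρ i), ‖v z‖ ^ 3)) :
    ∀ z, v z = 0 := by
  obtain ⟨ε, hε, hcb⟩ := complex_bound
  obtain ⟨V, hV, hVv, C, A, hexp⟩ := hext
  obtain ⟨M0, hM0⟩ := hbdd
  intro x1
  have hvi : ∀ i, ContDiff ℝ ∞ (fun y => v y i) := smooth_of_ext hV hVv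
  have hS : Stokes ν (fun i y => v y i) (fun j k y => v y j * v y k) p :=
    stokes_of_ns hvi hp hdiv hns
  have hvc : Continuous v := by
    have h1 : Continuous (fun y => WithLp.toLp 2 (fun i => v y i)) :=
      (PiLp.continuous_toLp 2 _).comp (continuous_pi fun i => (hvi i).continuous)
    exact h1
  have hg : Continuous fun z => ‖v z‖ ^ 3 := hvc.norm.pow 3
  have hg0 : ∀ z, 0 ≤ ‖v z‖ ^ 3 := fun z => by positivity
  have hint : ∀ y r, IntegrableOn (fun z => ‖v z‖ ^ 3) (closedBall y r) := fun y r =>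
    hg.continuousOn.integrableOn_compact (isCompact_closedBall _ _)
  obtain ⟨H, hH, hcb⟩ := hcb ν hν e
  set κ : ℝ := (ε * ν) ^ 3 with hκ
  have hκ0 : 0 < κ := by positivity
  set K : ℕ → ℝ := fun i => ∫ z in closedBall (x0 + t i • e) (ρ i), ‖v z‖ ^ 3 with hK
  have hK0 : ∀ i, 0 ≤ K i := fun i => integral_nonneg fun z => hg0 z
  set N : ℕ → ℕ := fun i => ⌈2 * K i / κ⌉₊ + 1 with hN
  have hN1 : ∀ i, 1 ≤ N i := fun i => by simp only [hN]; omega
  have hNge : ∀ i, 2 * K i / κ ≤ N i := by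
    intro i
    have h1 : 2 * K i / κ ≤ (⌈2 * K i / κ⌉₊ : ℝ) := Nat.le_ceil _
    simp only [hN]
    push_cast
    linarith
  have hNle : ∀ i, (N i : ℝ) ≤ (2 / κ + 2) * (1 + K i) := by
    intro i
    have h0 : 0 ≤ 2 * K i / κ := by have := hK0 i; positivity
    have h1 : (⌈2 * K i / κ⌉₊ : ℝ) < 2 * K i / κ + 1 := Nat.ceil_lt_add_one h0
    have h2 : (N i : ℝ) = (⌈2 * K i / κ⌉₊ : ℝ) + 1 := by simp only [hN]; push_cast; ring
    have h3 : 2 * K i / κ = 2 / κ * K i := by ring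
    have h4 : 0 ≤ 2 / κ := by positivity
    have h5 := hK0 i
    rw [h2]
    nlinarith
  set good : (Σ _ : ℕ, ℕ) → Prop := fun p =>
    ∫ z in closedBall (x0 + sc t ρ N p • e) (sr ρ N p), ‖v z‖ ^ 3 ≤ κ with hgood
  have hmany : ∀ i, ∀ T : Finset ℕ, (∀ m, m ∈ T ↔ m < N i ∧ good ⟨i, m⟩) →
      (N i : ℝ) / 2 ≤ T.card := by
    classical
    intro i T hT
    set T' : Finset ℕ := (Finset.range (N i)).filter (fun m => ¬ good ⟨i, m⟩) with hT'
    have hTe : T = (Finset.range (N i)).filter (fun m => good ⟨i, m⟩) := by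
      ext m
      rw [hT, Finset.mem_filter, Finset.mem_range]
    have h1 := few_bad he hρ hN1 hsep hg hg0 (κ := κ) (x0 := x0) i T' (by
      intro m hm
      rw [hT', Finset.mem_filter, Finset.mem_range] at hm
      exact ⟨hm.1, not_le.mp hm.2⟩)
    have h2 : T.card + T'.card = N i := by
      rw [hTe, hT', Finset.card_filter_add_card_filter_not, Finset.card_range]
    have h3 : (T.card : ℝ) + T'.card = N i := by exact_mod_cast h2
    have h4 : (T'.card : ℝ) ≤ K i / κ := by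
      rw [le_div_iff₀ hκ0]
      exact h1
    have h5 := hNge i
    have h6 : 2 * K i / κ = 2 * (K i / κ) := by ring
    linarith
  ext i
  simp only [PiLp.zero_apply]
  -- enough: bound by 8 ν / L
  suffices hmain : ∀ L : ℝ, 1 ≤ L → 2 * ‖x1 - x0‖ ≤ L → |v x1 i| ≤ 8 * ν / L by
    have hlim : Tendsto (fun L : ℝ => 8 * ν / L) atTop (𝓝 0) :=
      tendsto_const_nhds.div_atTop tendsto_id
    have h1 : |v x1 i| ≤ 0 := by
      refine ge_of_tendsto hlim ?_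
      filter_upwards [eventually_ge_atTop 1, eventually_ge_atTop (2 * ‖x1 - x0‖)] with L h1 h2
        using hmain L h1 h2
    exact abs_nonpos_iff.mp h1
  intro L hL1 hL2
  have hL0 : 0 < L := by linarith
  set F : ℂ → ℂ := fun ζ => V (cx x1 + ζ • cx e) i with hF
  have hVd : Differentiable ℂ V := fun z => (hV z (mem_univ z)).differentiableAt
  have hFd : Differentiable ℂ F := by
    have h1 : Differentiable ℂ (fun ζ : ℂ => V (cx x1 + ζ • cx e)) := hVd.comp (by fun_prop)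
    have h2 : Differentiable ℂ (fun z : EuclideanSpace ℂ (Fin 3) => z i) :=
      (EuclideanSpace.proj (𝕜 := ℂ) i).differentiable
    exact h2.comp h1
  have hFt : ∀ t : ℝ, F t = (v (x1 + t • e) i : ℂ) := by
    intro t
    simp only [hF]
    rw [← cx_line, hVv]
  set θ : ℝ := min (1 / (8 * H)) (1 / 8) with hθ
  have hθ0 : 0 < θ := lt_min (by positivity) (by norm_num)
  have hθ1 : θ ≤ 1 / 8 := min_le_right _ _
  have hθ2 : θ ≤ 1 / (8 * H) := min_le_left _ _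
  -- the bound on the discs
  have hdisc : ∀ p : Σ _ : ℕ, ℕ, good p → L ≤ sr ρ N p → ∀ z : ℂ,
      ‖z - sc t ρ N p‖ ≤ θ * sr ρ N p → ‖F z‖ ≤ 8 * ν / L := by
    intro p hgp hLp z hz
    have hsr := sr_pos hρ hN1 p
    have hsub : closedBall (x1 + sc t ρ N p • e) (sr ρ N p / 2) ⊆
        closedBall (x0 + sc t ρ N p • e) (sr ρ N p) := by
      apply closedBall_subset_closedBall'
      have h1 : dist (x1 + sc t ρ N p • e) (x0 + sc t ρ N p • e) = ‖x1 - x0‖ := by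
        rw [dist_add_right, dist_eq_norm]
      rw [h1]
      linarith
    have h2 : ∫ z in closedBall (x1 + sc t ρ N p • e) (sr ρ N p / 2), ‖v z‖ ^ 3 ≤
        (ε * ν) ^ 3 := by
      refine le_trans ?_ hgp
      exact setIntegral_mono_set (hint _ _) (Eventually.of_forall hg0)
        (Eventually.of_forall hsub)
    have h3 := hcb v _ V hS hV hVv (x1 + sc t ρ N p • e) (sr ρ N p / 2) (by positivity) h2 x1
      (sc t ρ N p) rfl i z (hz.trans ?_)
    · refine h3.trans ?_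
      rw [div_div_eq_mul_div]
      have h4 : 4 * ν * 2 = 8 * ν := by ring
      rw [h4]
      gcongr
    · calc θ * sr ρ N p ≤ 1 / (8 * H) * sr ρ N p := by gcongr
        _ = sr ρ N p / 2 / (4 * H) := by field_simp; norm_num
  have hnotsum := sub_div hρ hN1 ht hρt hsep hK0 hNle good hmany hsum hθ0 hL0.le
  have hD : Discs F (max M0 (8 * ν / L))
      (fun p : {p : Σ _ : ℕ, ℕ // p.2 < N p.1 ∧ good p ∧ L ≤ sr ρ N p} => sc t ρ N p)
      (fun p => θ * sr ρ N p) := by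
    refine ⟨⟨fun p => ?_, fun p => ?_, fun p => ?_, fun p q hpq => ?_⟩, fun p z hz => ?_, hnotsum⟩
    · have h1 := (sc_lower hρ hN1 hρt (p := p.1) p.2.1).1
      have h2 := ht p.1.1
      linarith
    · have := sr_pos hρ hN1 p.1
      positivity
    · have h1 := (sc_lower hρ hN1 hρt (p := p.1) p.2.1).1
      have h2 := sr_le hρ hN1 p.1
      have h3 := hρt p.1.1
      have h4 := sr_pos hρ hN1 p.1
      have h5 := ht p.1.1
      have h6 : θ * sr ρ N p.1 ≤ 1 / 8 * sr ρ N p.1 := by gcongr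
      linarith
    · have h1 := sc_sep (t := t) hρ hN1 hsep (p := p.1) (q := q.1) p.2.1 q.2.1
        (fun h => hpq (Subtype.ext h))
      have h2 := sr_pos hρ hN1 p.1
      have h3 := sr_pos hρ hN1 q.1
      have h4 : θ * sr ρ N p.1 ≤ 1 / 8 * sr ρ N p.1 := by gcongr
      have h5 : θ * sr ρ N q.1 ≤ 1 / 8 * sr ρ N q.1 := by gcongr
      linarith
    · exact (hdisc p.1 p.2.2.1 p.2.2.2 z hz).trans (le_max_right _ _)
  have hM : 0 ≤ max M0 (8 * ν / L) := le_max_of_le_right (by positivity)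
  have hC : 0 ≤ C := by
    have := (norm_nonneg _).trans (hexp 0)
    simpa using this
  have hFexp : ∀ z, ‖F z‖ ≤ (C * Real.exp (|A| * ‖cx x1‖)) * Real.exp ((|A| * ‖cx e‖) * ‖z‖) := by
    intro z
    have h1 : ‖F z‖ ≤ ‖V (cx x1 + z • cx e)‖ := PiLp.norm_apply_le _ i
    refine h1.trans ((hexp _).trans ?_)
    rw [mul_assoc, ← Real.exp_add]
    gcongr
    have h2 : ‖cx x1 + z • cx e‖ ≤ ‖cx x1‖ + ‖z‖ * ‖cx e‖ := by
      refine (norm_add_le _ _).trans ?_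
      rw [norm_smul]
    calc A * ‖cx x1 + z • cx e‖ ≤ |A| * ‖cx x1 + z • cx e‖ := by
          gcongr; exact le_abs_self A
      _ ≤ |A| * (‖cx x1‖ + ‖z‖ * ‖cx e‖) := by gcongr
      _ = |A| * ‖cx x1‖ + |A| * ‖cx e‖ * ‖z‖ := by ring
  have hFreal : ∀ t : ℝ, ‖F t‖ ≤ max M0 (8 * ν / L) := by
    intro t
    rw [hFt, Complex.norm_real]
    exact (PiLp.norm_apply_le (v (x1 + t • e)) i).trans ((hM0 _).trans (le_max_left _ _))
  have hbd := discs_main hFd hM hD hFexp hFreal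
  -- the index set is not empty
  have hne : Nonempty {p : Σ _ : ℕ, ℕ // p.2 < N p.1 ∧ good p ∧ L ≤ sr ρ N p} := by
    by_contra hcon
    rw [not_nonempty_iff] at hcon
    exact hnotsum (summable_empty)
  obtain ⟨q⟩ := hne
  have hconst : F 0 = F (sc t ρ N q.1) := by
    refine hFd.apply_eq_apply_of_bounded ?_ 0 (sc t ρ N q.1 : ℂ)
    rw [isBounded_iff_forall_norm_le]
    refine ⟨max M0 (8 * ν / L), ?_⟩
    rintro _ ⟨z, rfl⟩
    exact hbd z
  have h1 : ‖F (sc t ρ N q.1)‖ ≤ 8 * ν / L := by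
    refine hdisc q.1 q.2.2.1 q.2.2.2 _ ?_
    rw [sub_self, norm_zero]
    have := sr_pos hρ hN1 q.1
    positivity
  have h2 : F 0 = (v x1 i : ℂ) := by
    have := hFt 0
    simpa using this
  rw [← hconst, h2, Complex.norm_real] at h1
  exact h1

end H88NS
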