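import Pool.Agent.H88NS.PL

/-! Phragmen-Lindelof with boxes at many scales. -/

open Complex Set Filter Metric Topology Asymptotics Bornology

namespace H88NS

/-- squares of distances to conjugate points -/
theorem dist_conj_sq (w ζ : ℂ) :
    ‖w - (starRingEnd ℂ) ζ‖ ^ 2 = ‖w - ζ‖ ^ 2 + 4 * w.im * ζ.im := by
  rw [← Complex.normSq_eq_norm_sq, ← Complex.normSq_eq_norm_sq, Complex.normSq_apply,
    Complex.normSq_apply]
  simp only [Complex.sub_re, Complex.sub_im, Complex.conj_re, Complex.conj_im]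
  ring

/-- the comparison on the complement of finitely many discs. -/
theorem pl_multi {ι : Type*} (s : Finset ι) {F : ℂ → ℂ} (hF : Differentiable ℂ F) {A M : ℝ}
    (hM : 0 ≤ M) (hup : ∀ z : ℂ, 0 ≤ z.im → ‖F z‖ ≤ M * Real.exp (A * z.im))
    (ζ : ι → ℂ) (ρ : ι → ℝ) (n : ι → ℕ) (hρ : ∀ i ∈ s, 0 < ρ i)
    (hball : ∀ i ∈ s, ∀ z : ℂ, 0 ≤ z.im → ‖z - ζ i‖ = ρ i → (∀ j ∈ s, ρ j ≤ ‖z - ζ j‖) →
      ‖F z‖ * ∏ j ∈ s, (‖z - (starRingEnd ℂ) (ζ j)‖ / ‖z - ζ j‖) ^ n j ≤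
        M * Real.exp (A * z.im))
    {z : ℂ} (hz : 0 < z.im) (hzρ : ∀ i ∈ s, ρ i < ‖z - ζ i‖) :
    ‖F z‖ * ∏ j ∈ s, (‖z - (starRingEnd ℂ) (ζ j)‖ / ‖z - ζ j‖) ^ n j ≤
      M * Real.exp (A * z.im) := by
  set P : ℂ → ℝ := fun w => ∏ j ∈ s, (‖w - (starRingEnd ℂ) (ζ j)‖ / ‖w - ζ j‖) ^ n j with hP
  set G : ℂ → ℂ := fun w => F w * cexp (I * A * w) *
    ∏ j ∈ s, ((w - (starRingEnd ℂ) (ζ j)) / (w - ζ j)) ^ n j with hG
  have hexpn : ∀ w : ℂ, ‖cexp (I * A * w)‖ = Real.exp (-(A * w.im)) := by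
    intro w
    rw [Complex.norm_exp]
    congr 1
    simp
  have hGn : ∀ w, ‖G w‖ = ‖F w‖ * Real.exp (-(A * w.im)) * P w := by
    intro w
    simp only [hG, hP, norm_mul, norm_prod, norm_pow, norm_div, hexpn]
  have hP0 : ∀ w, 0 ≤ P w := fun w => Finset.prod_nonneg fun j _ => by positivity
  have hMw : ∀ w : ℂ, 0 ≤ w.im → ‖F w‖ * Real.exp (-(A * w.im)) ≤ M := by
    intro w hw
    calc ‖F w‖ * Real.exp (-(A * w.im)) ≤ (M * Real.exp (A * w.im)) * Real.exp (-(A * w.im)) := by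
          gcongr; exact hup w hw
      _ = M := by rw [mul_assoc, ← Real.exp_add]; simp
  set Z : ℝ := ∑ j ∈ s, ‖ζ j‖ with hZ
  have hZj : ∀ j ∈ s, ‖ζ j‖ ≤ Z := fun j hj =>
    Finset.single_le_sum (f := fun j => ‖ζ j‖) (fun i _ => norm_nonneg _) hj
  have hZ0 : 0 ≤ Z := Finset.sum_nonneg fun j _ => norm_nonneg _
  -- main bound for every large T
  have hT : ∀ T : ℝ, Z + ‖z‖ + 1 ≤ T →
      ‖G z‖ ≤ M * ∏ j ∈ s, ((T + ‖ζ j‖) / (T - ‖ζ j‖)) ^ n j := by
    intro T hTz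
    have hTζ : ∀ j ∈ s, 0 < T - ‖ζ j‖ := fun j hj => by linarith [norm_nonneg z, hZj j hj]
    have hTpos : 0 < T := by linarith [norm_nonneg z]
    have hr1 : ∀ j ∈ s, 1 ≤ (T + ‖ζ j‖) / (T - ‖ζ j‖) := fun j hj => by
      rw [le_div_iff₀ (hTζ j hj)]; linarith [norm_nonneg (ζ j)]
    have hr2 : 1 ≤ ∏ j ∈ s, ((T + ‖ζ j‖) / (T - ‖ζ j‖)) ^ n j := by
      calc (1 : ℝ) = ∏ j ∈ s, (1 : ℝ) := by simp
        _ ≤ _ := Finset.prod_le_prod (fun _ _ => zero_le_one)
          (fun j hj => one_le_pow₀ (hr1 j hj))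
    set U : Set ℂ := (ball 0 T ∩ {w : ℂ | 0 < w.im}) ∩ ⋂ j ∈ s, {w : ℂ | ρ j < ‖w - ζ j‖} with hU
    have hUo : IsOpen U := by
      refine (isOpen_ball.inter (isOpen_lt continuous_const Complex.continuous_im)).inter
        (isOpen_biInter_finset fun j _ => isOpen_lt continuous_const (by fun_prop))
    have hUb : Bornology.IsBounded U := by
      refine (isBounded_ball (x := (0 : ℂ)) (r := T)).subset ?_
      intro w hw
      exact hw.1.1
    have hUc : closure U ⊆ (closedBall 0 T ∩ {w : ℂ | 0 ≤ w.im}) ∩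
        ⋂ j ∈ s, {w : ℂ | ρ j ≤ ‖w - ζ j‖} := by
      refine closure_minimal ?_ ?_
      · rintro w ⟨⟨h1, h2⟩, h3⟩
        refine ⟨⟨ball_subset_closedBall h1, le_of_lt (show 0 < w.im from h2)⟩, ?_⟩
        simp only [mem_iInter] at h3 ⊢
        exact fun j hj => le_of_lt (show ρ j < ‖w - ζ j‖ from h3 j hj)
      · exact (isClosed_closedBall.inter (isClosed_le continuous_const Complex.continuous_im)).inter
          (isClosed_biInter fun j _ => isClosed_le continuous_const (by fun_prop))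
    have hUc' : ∀ w ∈ closure U, ‖w‖ ≤ T ∧ 0 ≤ w.im ∧ ∀ j ∈ s, ρ j ≤ ‖w - ζ j‖ := by
      intro w hw
      obtain ⟨⟨h1, h2⟩, h3⟩ := hUc hw
      simp only [mem_iInter] at h3
      exact ⟨by simpa using h1, h2, fun j hj => h3 j hj⟩
    have hzU : z ∈ U := by
      refine ⟨⟨?_, hz⟩, ?_⟩
      · rw [mem_ball_zero_iff]
        linarith
      · simp only [mem_iInter]
        exact fun j hj => hzρ j hj
    have hGd : DiffContOnCl ℂ G U := by
      apply DifferentiableOn.diffContOnCl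
      intro w hw
      obtain ⟨-, -, h1⟩ := hUc' w hw
      have h2 : ∀ j ∈ s, w - ζ j ≠ 0 := by
        intro j hj h0
        have := h1 j hj
        rw [h0, norm_zero] at this
        linarith [hρ j hj]
      apply DifferentiableAt.differentiableWithinAt
      simp only [hG]
      have h3 : DifferentiableAt ℂ F w := hF w
      refine DifferentiableAt.mul (by fun_prop) ?_
      refine DifferentiableAt.fun_finsetProd fun j hj => ?_
      have := h2 j hj
      fun_prop (disch := assumption)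
    refine Complex.norm_le_of_forall_mem_frontier_norm_le hUb hGd ?_ (subset_closure hzU)
    intro w hw
    have hwc : w ∈ closure U := hw.1
    have hwU : w ∉ U := by
      have := hw.2
      rwa [hUo.interior_eq] at this
    obtain ⟨hw1, hw2, hw3⟩ := hUc' w hwc
    rw [hGn]
    by_cases c1 : ∃ i ∈ s, ‖w - ζ i‖ = ρ i
    · obtain ⟨i, hi, hwi⟩ := c1
      have h1 := hball i hi w hw2 hwi hw3
      calc ‖F w‖ * Real.exp (-(A * w.im)) * P w = (‖F w‖ * P w) * Real.exp (-(A * w.im)) := by ring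
        _ ≤ (M * Real.exp (A * w.im)) * Real.exp (-(A * w.im)) := by gcongr
        _ = M * 1 := by rw [mul_assoc, ← Real.exp_add]; simp
        _ ≤ _ := by gcongr
    · push Not at c1
      by_cases c2 : w.im = 0
      · have h1 : P w ≤ 1 := by
          refine Finset.prod_le_one (fun j _ => by positivity) fun j hj => ?_
          refine pow_le_one₀ (by positivity) ?_
          have h2 := dist_conj_sq w (ζ j)
          rw [c2] at h2
          simp only [mul_zero, zero_mul, add_zero] at h2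
          have h3 : ‖w - (starRingEnd ℂ) (ζ j)‖ = ‖w - ζ j‖ :=
            (pow_left_inj₀ (norm_nonneg _) (norm_nonneg _) (by norm_num)).mp h2
          rw [h3]
          exact div_self_le_one _
        calc ‖F w‖ * Real.exp (-(A * w.im)) * P w ≤ M * 1 := by
              gcongr
              exact hMw w hw2
          _ ≤ _ := by gcongr
      · have hwT : T ≤ ‖w‖ := by
          by_contra hlt
          push Not at hlt
          apply hwU
          refine ⟨⟨by rwa [mem_ball_zero_iff], lt_of_le_of_ne hw2 (Ne.symm c2)⟩, ?_⟩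
          simp only [mem_iInter]
          exact fun j hj => lt_of_le_of_ne (hw3 j hj) (Ne.symm (c1 j hj))
        have hwT' : ‖w‖ = T := le_antisymm hw1 hwT
        have h4 : P w ≤ ∏ j ∈ s, ((T + ‖ζ j‖) / (T - ‖ζ j‖)) ^ n j := by
          refine Finset.prod_le_prod (fun j _ => by positivity) fun j hj => ?_
          have h1 : ‖w - (starRingEnd ℂ) (ζ j)‖ ≤ T + ‖ζ j‖ := by
            have := norm_sub_le w ((starRingEnd ℂ) (ζ j))
            rw [Complex.norm_conj, hwT'] at this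
            exact this
          have h2 : T - ‖ζ j‖ ≤ ‖w - ζ j‖ := by
            have := norm_sub_norm_le w (ζ j)
            rw [hwT'] at this
            exact this
          have h3 := hTζ j hj
          gcongr
        have h3 := hMw w hw2
        gcongr
  -- let T tend to infinity
  have hlim : Tendsto (fun T : ℝ => M * ∏ j ∈ s, ((T + ‖ζ j‖) / (T - ‖ζ j‖)) ^ n j) atTop
      (𝓝 (M * ∏ j ∈ s, (1 : ℝ) ^ n j)) := by
    refine Tendsto.const_mul M (tendsto_finsetProd s fun j _ => ?_)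
    have h1 : Tendsto (fun T : ℝ => (T + ‖ζ j‖) / (T - ‖ζ j‖)) atTop (𝓝 1) := by
      have h2 : Tendsto (fun T : ℝ => 1 + (2 * ‖ζ j‖) / (T - ‖ζ j‖)) atTop (𝓝 (1 + 0)) := by
        refine tendsto_const_nhds.add ?_
        refine tendsto_const_nhds.div_atTop ?_
        exact tendsto_atTop_add_const_right _ _ tendsto_id
      rw [add_zero] at h2
      refine h2.congr' ?_
      filter_upwards [eventually_gt_atTop ‖ζ j‖] with T hT0
      have : T - ‖ζ j‖ ≠ 0 := (sub_pos.mpr hT0).ne'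
      field_simp
      ring
    exact h1.pow (n j)
  have hGz : ‖G z‖ ≤ M := by
    have h1 : ‖G z‖ ≤ M * ∏ j ∈ s, (1 : ℝ) ^ n j := by
      refine ge_of_tendsto hlim ?_
      filter_upwards [eventually_ge_atTop (Z + ‖z‖ + 1)] with T hT0 using hT T hT0
    simpa using h1
  rw [hGn] at hGz
  have h4 : Real.exp (-(A * z.im)) * Real.exp (A * z.im) = 1 := by
    rw [← Real.exp_add]; simp
  have h5 : ‖F z‖ * P z = (‖F z‖ * Real.exp (-(A * z.im)) * P z) * Real.exp (A * z.im) := by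
    linear_combination (‖F z‖ * P z) * (-h4)
  rw [show (∏ j ∈ s, (‖z - (starRingEnd ℂ) (ζ j)‖ / ‖z - ζ j‖) ^ n j) = P z from rfl, h5]
  gcongr

/-- upper bound of one factor -/
theorem ratio_le {w ζ : ℂ} {ρ : ℝ} (hζ : ζ.im = 2 * ρ) (hw : 0 < ‖w - ζ‖) :
    ‖w - (starRingEnd ℂ) ζ‖ / ‖w - ζ‖ ≤ Real.exp (4 * w.im * ρ / ‖w - ζ‖ ^ 2) := by
  have h1 : (‖w - (starRingEnd ℂ) ζ‖ / ‖w - ζ‖) ^ 2 ≤
      (Real.exp (4 * w.im * ρ / ‖w - ζ‖ ^ 2)) ^ 2 := by
    rw [div_pow, dist_conj_sq, hζ, ← Real.exp_nat_mul]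
    have h2 : (‖w - ζ‖ ^ 2 + 4 * w.im * (2 * ρ)) / ‖w - ζ‖ ^ 2 =
        ((2 : ℕ) : ℝ) * (4 * w.im * ρ / ‖w - ζ‖ ^ 2) + 1 := by
      push_cast
      field_simp
      ring
    rw [h2]
    exact Real.add_one_le_exp _
  exact (pow_le_pow_iff_left₀ (by positivity) (Real.exp_nonneg _) (by norm_num)).mp h1

/-- lower bound of one factor -/
theorem le_ratio {w ζ : ℂ} {ρ : ℝ} (hζ : ζ.im = 2 * ρ) (hw : 0 < ‖w - ζ‖) (hwi : 0 ≤ w.im)
    (hρ : 0 ≤ ρ) :
    Real.exp (4 * w.im * ρ / ‖w - (starRingEnd ℂ) ζ‖ ^ 2) ≤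
      ‖w - (starRingEnd ℂ) ζ‖ / ‖w - ζ‖ := by
  set P := ‖w - (starRingEnd ℂ) ζ‖ with hP
  set Q := ‖w - ζ‖ with hQ
  have hsq : P ^ 2 = Q ^ 2 + 4 * w.im * (2 * ρ) := by rw [hP, hQ, dist_conj_sq, hζ]
  have hPpos : 0 < P := by
    have h1 : 0 < P ^ 2 := by rw [hsq]; positivity
    exact lt_of_le_of_ne (norm_nonneg _) (fun h => by rw [← h] at h1; norm_num at h1)
  have h1 : (Q / P) ^ 2 ≤ (Real.exp (-(4 * w.im * ρ / P ^ 2))) ^ 2 := by
    rw [div_pow, ← Real.exp_nat_mul]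
    have h2 : Q ^ 2 / P ^ 2 = ((2 : ℕ) : ℝ) * (-(4 * w.im * ρ / P ^ 2)) + 1 := by
      have : Q ^ 2 = P ^ 2 - 4 * w.im * (2 * ρ) := by linarith
      rw [this]
      push_cast
      field_simp
      ring
    rw [h2]
    exact Real.add_one_le_exp _
  have h2 : Q / P ≤ Real.exp (-(4 * w.im * ρ / P ^ 2)) :=
    (pow_le_pow_iff_left₀ (by positivity) (Real.exp_nonneg _) (by norm_num)).mp h1
  rw [Real.exp_neg, div_le_iff₀ hPpos] at h2
  rw [le_div_iff₀ hw]
  have h3 := Real.exp_pos (4 * w.im * ρ / P ^ 2)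
  calc Real.exp (4 * w.im * ρ / P ^ 2) * Q ≤
      Real.exp (4 * w.im * ρ / P ^ 2) * ((Real.exp (4 * w.im * ρ / P ^ 2))⁻¹ * P) := by gcongr
    _ = P := by field_simp

theorem sum_inv_one (N : ℕ) : ∑ i ∈ Finset.range N, 1 / (1 + (i : ℝ) ^ 2) ≤ 3 := by
  have key : ∀ N : ℕ, ∑ i ∈ Finset.range (N + 1), 1 / (1 + (i : ℝ) ^ 2) ≤ 3 - 2 / ((N : ℝ) + 1) := by
    intro N
    induction N with
    | zero => norm_num
    | succ N ih =>
      rw [Finset.sum_range_succ]
      have h1 : 1 / (1 + ((N + 1 : ℕ) : ℝ) ^ 2) ≤ 2 / ((N : ℝ) + 1) - 2 / ((N : ℝ) + 1 + 1) := by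
        push_cast
        rw [div_sub_div _ _ (by positivity) (by positivity), div_le_div_iff₀ (by positivity)
          (by positivity)]
        nlinarith [sq_nonneg (N : ℝ), Nat.cast_nonneg (α := ℝ) N]
      push_cast at ih h1 ⊢
      linarith
  rcases N with _ | N
  · simp
  · have h1 := key N
    have h2 : (0 : ℝ) ≤ 2 / ((N : ℝ) + 1) := by positivity
    linarith

/-- two-sided version -/
theorem sum_inv_two (j J : ℕ) (hj : j < J) :
    ∑ i ∈ Finset.range J, 1 / (1 + ((i : ℝ) - j) ^ 2) ≤ 6 := by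
  have h1 : ∑ i ∈ Finset.range J, 1 / (1 + ((i : ℝ) - j) ^ 2) =
      ∑ i ∈ Finset.range j, 1 / (1 + ((i : ℝ) - j) ^ 2) +
        ∑ i ∈ Finset.Ico j J, 1 / (1 + ((i : ℝ) - j) ^ 2) := by
    rw [Finset.range_eq_Ico, Finset.range_eq_Ico, Finset.sum_Ico_consecutive _ (by omega) hj.le]
  have h2 : ∑ i ∈ Finset.range j, 1 / (1 + ((i : ℝ) - j) ^ 2) ≤ 3 := by
    have h3 : ∑ i ∈ Finset.range j, 1 / (1 + ((i : ℝ) - j) ^ 2) ≤
        ∑ i ∈ Finset.range (j + 1), 1 / (1 + ((i : ℝ) - j) ^ 2) := by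
      rw [Finset.sum_range_succ]
      have : (0 : ℝ) ≤ 1 / (1 + ((j : ℝ) - j) ^ 2) := by positivity
      linarith
    refine h3.trans ?_
    rw [← Finset.sum_flip]
    refine le_trans (le_of_eq ?_) (sum_inv_one (j + 1))
    refine Finset.sum_congr rfl fun i hi => ?_
    rw [Finset.mem_range] at hi
    rw [Nat.cast_sub (by omega)]
    congr 2
    ring
  have h4 : ∑ i ∈ Finset.Ico j J, 1 / (1 + ((i : ℝ) - j) ^ 2) ≤ 3 := by
    rw [Finset.sum_Ico_eq_sum_range]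
    refine le_trans (le_of_eq ?_) (sum_inv_one (J - j))
    refine Finset.sum_congr rfl fun i _ => ?_
    push_cast
    congr 2
    ring
  rw [h1]
  linarith

end H88NS
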