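import Pool.Agent.H88NS.Calc

/-! The exact local identity for the Stokes system. -/

open MeasureTheory Set Filter Metric Topology
open scoped ContDiff

namespace H88NS

/-- smooth solutions of `ν Δ u_k = ∂_j G_jk + ∂_k q`, `div u = 0` on `ℝ³` -/
structure Stokes (ν : ℝ) (u : Fin 3 → E → ℝ) (G : Fin 3 → Fin 3 → E → ℝ) (q : E → ℝ) : Prop where
  hu : ∀ i, ContDiff ℝ ∞ (u i)
  hG : ∀ j k, ContDiff ℝ ∞ (G j k)
  hq : ContDiff ℝ ∞ q
  hdiv : ∀ x, ∑ j, D (bb j) (u j) x = 0
  heq : ∀ k x, ν * lap (u k) x = ∑ j, D (bb j) (G j k) x + D (bb k) q x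

theorem one_le_infty : (1 : WithTop ℕ∞) ≤ ∞ := by norm_cast
theorem two_le_infty : (2 : WithTop ℕ∞) ≤ ∞ := by norm_cast

theorem D_const (c : ℝ) (w : E) : D w (fun _ : E => c) = fun _ => 0 := by
  funext x
  simp [D]

theorem lap_D {f : E → ℝ} (hf : ContDiff ℝ ∞ f) (e : E) : lap (D e f) = D e (lap f) := by
  unfold lap
  rw [D_sum _ (fun j _ => (D_smooth (D_smooth hf _) _).of_le one_le_infty)]
  funext x
  refine Finset.sum_congr rfl fun j _ => ?_
  rw [D_comm (hf.of_le two_le_infty) (bb j) e,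
    D_comm ((D_smooth hf (bb j)).of_le two_le_infty) (bb j) e]

theorem Stokes.deriv {ν : ℝ} {u : Fin 3 → E → ℝ} {G : Fin 3 → Fin 3 → E → ℝ} {q : E → ℝ}
    (h : Stokes ν u G q) (e : E) :
    Stokes ν (fun i => D e (u i)) (fun j k => D e (G j k)) (D e q) where
  hu i := D_smooth (h.hu i) e
  hG j k := D_smooth (h.hG j k) e
  hq := D_smooth h.hq e
  hdiv x := by
    have h1 : ∀ j, D (bb j) (D e (u j)) x = D e (D (bb j) (u j)) x := fun j => by
      rw [D_comm ((h.hu j).of_le two_le_infty)]
    simp only [h1]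
    have h2 := D_sum Finset.univ (f := fun j => D (bb j) (u j))
      (fun j _ => (D_smooth (h.hu j) _).of_le one_le_infty) e
    have h3 : (fun x => ∑ j, D (bb j) (u j) x) = fun _ => (0 : ℝ) := funext h.hdiv
    rw [h3, D_const] at h2
    exact (congrFun h2 x).symm
  heq k x := by
    rw [lap_D (h.hu k)]
    have h1 : ∀ j, D (bb j) (D e (G j k)) x = D e (D (bb j) (G j k)) x := fun j => by
      rw [D_comm ((h.hG j k).of_le two_le_infty)]
    simp only [h1]
    rw [D_comm (h.hq.of_le two_le_infty) (bb k) e]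
    have h2 : (fun x => ν * lap (u k) x) = fun x => ∑ j, D (bb j) (G j k) x + D (bb k) q x :=
      funext (h.heq k)
    have h3 := congrArg (fun f => D e f x) h2
    rw [D_const_mul ((lap_smooth (h.hu k)).of_le one_le_infty),
      D_add ((ContDiff.sum fun j _ => D_smooth (h.hG j k) _).of_le one_le_infty)
        ((D_smooth h.hq _).of_le one_le_infty),
      D_sum _ (fun j _ => (D_smooth (h.hG j k) _).of_le one_le_infty)] at h3
    exact h3

/-- the divergence free test fields `∂_i ∂_k χ - δ_ik Δ χ` -/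
noncomputable def Th (χ : E → ℝ) (i k : Fin 3) : E → ℝ :=
  fun s => D (bb k) (D (bb i) χ) s - (if i = k then 1 else 0) * lap χ s

theorem Th_contDiff {χ : E → ℝ} (hχ : ContDiff ℝ 4 χ) (i k : Fin 3) : ContDiff ℝ 2 (Th χ i k) := by
  unfold Th
  refine ContDiff.sub ?_ (contDiff_const.mul ?_)
  · exact D_contDiff (D_contDiff (m := 3) hχ (by norm_num) _) (by norm_num) _
  · exact lap_contDiff hχ (by norm_num)

theorem lap_compact {χ : E → ℝ} (hc : HasCompactSupport χ) : HasCompactSupport (lap χ) := by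
  unfold lap
  have h : ∀ j : Fin 3, HasCompactSupport (D (bb j) (D (bb j) χ)) := fun j =>
    D_compact (D_compact hc _) _
  have h2 : (fun x => ∑ j, D (bb j) (D (bb j) χ) x) = fun x =>
      D (bb 0) (D (bb 0) χ) x + D (bb 1) (D (bb 1) χ) x + D (bb 2) (D (bb 2) χ) x := by
    funext x
    rw [Fin.sum_univ_three]
  rw [h2]
  exact ((h 0).add (h 1)).add (h 2)

theorem Th_compact {χ : E → ℝ} (hc : HasCompactSupport χ) (i k : Fin 3) :
    HasCompactSupport (Th χ i k) := by
  unfold Th
  have h1 : HasCompactSupport (D (bb k) (D (bb i) χ)) := D_compact (D_compact hc _) _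
  have h2 : HasCompactSupport (fun s => (if i = k then 1 else 0) * lap χ s) :=
    (lap_compact hc).mul_left
  exact h1.sub h2

theorem Th_div {χ : E → ℝ} (hχ : ContDiff ℝ 4 χ) (i : Fin 3) (s : E) :
    ∑ k, D (bb k) (Th χ i k) s = 0 := by
  have h0 : ∀ w, ContDiff ℝ 3 (D w χ) := fun w => D_contDiff hχ (by norm_num) w
  have h00 : ∀ w v, ContDiff ℝ 2 (D v (D w χ)) := fun w v => D_contDiff (h0 w) (by norm_num) v
  have hl : ContDiff ℝ 2 (lap χ) := lap_contDiff hχ (by norm_num)
  have h1 : ∀ k, D (bb k) (Th χ i k) s =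
      D (bb k) (D (bb k) (D (bb i) χ)) s - (if i = k then 1 else 0) * D (bb k) (lap χ) s := by
    intro k
    unfold Th
    rw [D_sub ((h00 _ _).of_le (by norm_num)) (contDiff_const.mul (hl.of_le (by norm_num))),
      D_const_mul (hl.of_le (by norm_num))]
  simp only [h1, Finset.sum_sub_distrib]
  simp only [ite_mul, one_mul, zero_mul, Finset.sum_ite_eq, Finset.mem_univ, if_true]
  have h2 : D (bb i) (lap χ) s = ∑ j, D (bb i) (D (bb j) (D (bb j) χ)) s := by
    unfold lap
    rw [D_sum _ (fun j _ => (h00 _ _).of_le (by norm_num))]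
  rw [h2, sub_eq_zero]
  refine Finset.sum_congr rfl fun j _ => ?_
  rw [D_comm (hχ.of_le (by norm_num)) (bb j) (bb i),
    D_comm ((h0 _).of_le (by norm_num)) (bb j) (bb i)]

theorem lap_div {ν : ℝ} {u : Fin 3 → E → ℝ} {G : Fin 3 → Fin 3 → E → ℝ} {q : E → ℝ}
    (h : Stokes ν u G q) (x : E) : ∑ k, D (bb k) (lap (u k)) x = 0 := by
  have h1 : ∀ k, D (bb k) (lap (u k)) x = lap (D (bb k) (u k)) x := fun k => by
    rw [lap_D (h.hu k)]
  simp only [h1]
  have h2 : lap (fun x => ∑ k, D (bb k) (u k) x) x = ∑ k, lap (D (bb k) (u k)) x := by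
    unfold lap
    rw [Finset.sum_comm]
    refine Finset.sum_congr rfl fun j _ => ?_
    rw [D_sum _ (fun k _ => (D_smooth (h.hu k) _).of_le one_le_infty),
      D_sum _ (fun k _ => (D_smooth (D_smooth (h.hu k) _) _).of_le one_le_infty)]
  rw [← h2]
  have h3 : (fun x => ∑ j, D (bb j) (u j) x) = fun _ => (0 : ℝ) := funext h.hdiv
  rw [h3]
  simp [lap, D_const]

/-- Testing the Stokes system with the fields `Th`. -/
theorem stokes_test {ν : ℝ} {u : Fin 3 → E → ℝ} {G : Fin 3 → Fin 3 → E → ℝ} {q : E → ℝ}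
    (h : Stokes ν u G q) {χ : E → ℝ} (hχ : ContDiff ℝ 4 χ) (hc : HasCompactSupport χ)
    (i : Fin 3) (x : E) (t : ℝ) :
    ν * (t * ∫ s, lap χ s * lap (u i) (x + t • s)) =
      ∑ j, ∑ k, ∫ s, D (bb j) (Th χ i k) s * G j k (x + t • s) := by
  have hTh1 : ∀ k, ContDiff ℝ 1 (Th χ i k) := fun k => (Th_contDiff hχ i k).of_le (by norm_num)
  have hlapu : ∀ k, ContDiff ℝ ∞ (lap (u k)) := fun k => lap_smooth (h.hu k)
  have hDi : ContDiff ℝ 3 (D (bb i) χ) := D_contDiff hχ (by norm_num) _
  have hl : ContDiff ℝ 2 (lap χ) := lap_contDiff hχ (by norm_num)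
  -- integrability of products
  have hint : ∀ {φ F : E → ℝ}, Continuous φ → HasCompactSupport φ → Continuous F →
      Integrable (fun s => φ s * F (x + t • s)) := by
    intro φ F h1 h2 h3
    exact (h1.mul (h3.comp (by fun_prop))).integrable_of_hasCompactSupport h2.mul_right
  -- the equation tested with Th
  have hA : ∀ k, ν * (t * ∫ s, Th χ i k s * lap (u k) (x + t • s)) =
      - (∑ j, ∫ s, D (bb j) (Th χ i k) s * G j k (x + t • s))
      - (∫ s, D (bb k) (Th χ i k) s * q (x + t • s)) := by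
    intro k
    have h1 : ν * (t * ∫ s, Th χ i k s * lap (u k) (x + t • s)) =
        t * ∫ s, (∑ j, Th χ i k s * D (bb j) (G j k) (x + t • s)
          + Th χ i k s * D (bb k) q (x + t • s)) := by
      rw [mul_left_comm, ← integral_const_mul]
      congr 2
      funext s
      rw [← Finset.mul_sum, ← mul_add, ← h.heq k (x + t • s)]
      ring
    rw [h1, integral_add
      (integrable_finsetSum _ fun j _ => hint (hTh1 k).continuous (Th_compact hc i k)
        (D_smooth (h.hG j k) _).continuous)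
      (hint (hTh1 k).continuous (Th_compact hc i k) (D_smooth h.hq _).continuous),
      integral_finsetSum _ (fun j _ => hint (hTh1 k).continuous (Th_compact hc i k)
        (D_smooth (h.hG j k) _).continuous), mul_add, Finset.mul_sum]
    simp only [ibp_dil (hTh1 k) (Th_compact hc i k) ((h.hG _ k).of_le one_le_infty),
      ibp_dil (hTh1 k) (Th_compact hc i k) (h.hq.of_le one_le_infty)]
    rw [Finset.sum_neg_distrib]
    ring
  -- the pressure disappears
  have hB : ∑ k, ∫ s, D (bb k) (Th χ i k) s * q (x + t • s) = 0 := by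
    rw [← integral_finsetSum _ (fun k _ => hint
      (D_contDiff (m := 1) (Th_contDiff hχ i k) (by norm_num) _).continuous
      (D_compact (Th_compact hc i k) _) h.hq.continuous)]
    rw [← integral_zero E ℝ (μ := volume)]
    congr 1
    funext s
    rw [← Finset.sum_mul, Th_div hχ, zero_mul]
  -- the Laplacian term
  have hC : ∑ k, ∫ s, Th χ i k s * lap (u k) (x + t • s) =
      - ∫ s, lap χ s * lap (u i) (x + t • s) := by
    have h1 : ∀ k, ∫ s, Th χ i k s * lap (u k) (x + t • s) =
        (∫ s, D (bb k) (D (bb i) χ) s * lap (u k) (x + t • s))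
          - (if i = k then 1 else 0) * (∫ s, lap χ s * lap (u k) (x + t • s)) := by
      intro k
      rw [← integral_const_mul, ← integral_sub
        (hint (D_contDiff (m := 2) hDi (by norm_num) _).continuous (D_compact (D_compact hc _) _)
          (hlapu k).continuous)
        ((hint hl.continuous (lap_compact hc) (hlapu k).continuous).const_mul _)]
      congr 1
      funext s
      unfold Th
      ring
    simp only [h1, Finset.sum_sub_distrib]
    simp only [ite_mul, one_mul, zero_mul, Finset.sum_ite_eq, Finset.mem_univ, if_true]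
    have h2 : ∑ k, ∫ s, D (bb k) (D (bb i) χ) s * lap (u k) (x + t • s) = 0 := by
      have h3 : ∀ k, ∫ s, D (bb k) (D (bb i) χ) s * lap (u k) (x + t • s) =
          -(t * ∫ s, D (bb i) χ s * D (bb k) (lap (u k)) (x + t • s)) := by
        intro k
        rw [ibp_dil (hDi.of_le (by norm_num)) (D_compact hc _) ((hlapu k).of_le one_le_infty), neg_neg]
      simp only [h3, Finset.sum_neg_distrib, ← Finset.mul_sum]
      rw [← integral_finsetSum _ (fun k _ => hint hDi.continuous (D_compact hc _)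
        (D_smooth (hlapu k) _).continuous)]
      have h4 : (fun s => ∑ k, D (bb i) χ s * D (bb k) (lap (u k)) (x + t • s)) =
          fun _ => (0 : ℝ) := by
        funext s
        rw [← Finset.mul_sum, lap_div h, mul_zero]
      rw [h4]
      simp
    rw [h2, zero_sub]
  have hD : ∑ k, ν * (t * ∫ s, Th χ i k s * lap (u k) (x + t • s)) =
      -(ν * (t * ∫ s, lap χ s * lap (u i) (x + t • s))) := by
    rw [← Finset.mul_sum, ← Finset.mul_sum, hC]
    ring
  have hE : ∑ k, ν * (t * ∫ s, Th χ i k s * lap (u k) (x + t • s)) =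
      - ∑ j, ∑ k, ∫ s, D (bb j) (Th χ i k) s * G j k (x + t • s) := by
    simp only [hA, Finset.sum_sub_distrib, hB, Finset.sum_neg_distrib, sub_zero]
    rw [Finset.sum_comm]
  linarith

/-- the derivative of the dilated average of `u i` -/
theorem J_deriv {ν : ℝ} (hν : ν ≠ 0) {u : Fin 3 → E → ℝ} {G : Fin 3 → Fin 3 → E → ℝ} {q : E → ℝ}
    (h : Stokes ν u G q) {χ k : E → ℝ} (hχ : ContDiff ℝ 4 χ) (hc : HasCompactSupport χ)
    (hk : Continuous k) (hkc : HasCompactSupport k)
    (hkχ : ∀ s j, k s * s j = (1 / 2) * D (bb j) (lap χ) s)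
    (i : Fin 3) (x : E) (t : ℝ) :
    HasDerivAt (fun t : ℝ => ∫ s, k s * u i (x + t • s))
      (-(1 / (2 * ν)) * ∑ j, ∑ m, ∫ s, D (bb j) (Th χ i m) s * G j m (x + t • s)) t := by
  have h1 := hasDerivAt_J hk hkc ((h.hu i).of_le one_le_infty) x t
  have hl : ContDiff ℝ 2 (lap χ) := lap_contDiff hχ (by norm_num)
  have hint : ∀ {φ F : E → ℝ}, Continuous φ → HasCompactSupport φ → Continuous F →
      Integrable (fun s => φ s * F (x + t • s)) := by
    intro φ F h1 h2 h3
    exact (h1.mul (h3.comp (by fun_prop))).integrable_of_hasCompactSupport h2.mul_right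
  have h2 : ∫ s, k s * fderiv ℝ (u i) (x + t • s) s =
      -(1 / 2) * (t * ∫ s, lap χ s * lap (u i) (x + t • s)) := by
    have h3 : ∀ s, k s * fderiv ℝ (u i) (x + t • s) s =
        ∑ j, (1 / 2) * (D (bb j) (lap χ) s * D (bb j) (u i) (x + t • s)) := by
      intro s
      rw [fderiv_eq_sum, Finset.mul_sum]
      refine Finset.sum_congr rfl fun j _ => ?_
      rw [← mul_assoc, hkχ]
      ring
    simp only [h3]
    have hD1 : ∀ j, ContDiff ℝ 1 (D (bb j) (lap χ)) := fun j => D_contDiff hl (by norm_num) _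
    rw [integral_finsetSum _ (fun j _ => (hint (hD1 j).continuous
      (D_compact (lap_compact hc) _) (D_smooth (h.hu i) _).continuous).const_mul _)]
    simp only [integral_const_mul]
    have h4 : ∀ j, ∫ s, D (bb j) (lap χ) s * D (bb j) (u i) (x + t • s) =
        -(t * ∫ s, lap χ s * D (bb j) (D (bb j) (u i)) (x + t • s)) := by
      intro j
      rw [ibp_dil (hl.of_le (by norm_num)) (lap_compact hc)
        ((D_smooth (h.hu i) _).of_le one_le_infty), neg_neg]
    simp only [h4]
    rw [← Finset.mul_sum, Finset.sum_neg_distrib, ← Finset.mul_sum,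
      ← integral_finsetSum _ (fun j _ => hint hl.continuous (lap_compact hc)
        (D_smooth (D_smooth (h.hu i) _) _).continuous)]
    have h5 : (fun s => ∑ j, lap χ s * D (bb j) (D (bb j) (u i)) (x + t • s)) =
        fun s => lap χ s * lap (u i) (x + t • s) := by
      funext s
      rw [← Finset.mul_sum]
      rfl
    rw [h5]
    ring
  have h6 := stokes_test h hχ hc i x t
  have h7 : -(1 / (2 * ν)) * ∑ j, ∑ m, ∫ s, D (bb j) (Th χ i m) s * G j m (x + t • s) =
      ∫ s, k s * fderiv ℝ (u i) (x + t • s) s := by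
    rw [h2, ← h6]
    field_simp
  rw [h7]
  exact h1

end H88NS
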